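import Mathlib
import Pool.Agent.H988R2.Perc.Defs

/-!
Gluing functional of the slit strip (critical bond percolation on `ℤ²`): three qKZ vectors.
-/

namespace Pool.Agent.H492C

open Pool.Agent.H988R2.Perc hiding X
open Finset Polynomial

/-! ## states -/

/-- Two strips side by side: `R` on the faces `< 2k`, `R'` (shifted by `2k`) on the faces
`≥ 2k`. -/
def comb (k : ℕ) (R R' : St) : St where
  rel x y := x = y ∨ (x < 2*k ∧ y < 2*k ∧ R.rel x y) ∨
    (2*k ≤ x ∧ 2*k ≤ y ∧ R'.rel (x - 2*k) (y - 2*k))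
  eqv := by
    obtain ⟨hr, hs, ht⟩ := R.eqv
    obtain ⟨hr', hs', ht'⟩ := R'.eqv
    refine ⟨fun _ => Or.inl rfl, ?_, ?_⟩
    · rintro a b (h | ⟨h1, h2, h3⟩ | ⟨h1, h2, h3⟩)
      · exact Or.inl h.symm
      · exact Or.inr (Or.inl ⟨h2, h1, hs h3⟩)
      · exact Or.inr (Or.inr ⟨h2, h1, hs' h3⟩)
    · rintro a b c (h | ⟨h1, h2, h3⟩ | ⟨h1, h2, h3⟩) (k | ⟨k1, k2, k3⟩ | ⟨k1, k2, k3⟩)
      · exact Or.inl (h.trans k)
      · subst h; exact Or.inr (Or.inl ⟨k1, k2, k3⟩)
      · subst h; exact Or.inr (Or.inr ⟨k1, k2, k3⟩)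
      · subst k; exact Or.inr (Or.inl ⟨h1, h2, h3⟩)
      · exact Or.inr (Or.inl ⟨h1, k2, ht h3 k3⟩)
      · omega
      · subst k; exact Or.inr (Or.inr ⟨h1, h2, h3⟩)
      · omega
      · exact Or.inr (Or.inr ⟨h1, k2, ht' h3 k3⟩)
  odd := by
    rintro a b (h | ⟨h1, h2, h3⟩ | ⟨h1, h2, h3⟩)
    · exact Or.inl h
    · exact R.odd _ _ h3
    · rcases R'.odd _ _ h3 with h | ⟨h, h'⟩
      · left; omega
      · right; omega

/-- the faces `p` and `r` are joined in the join of `R` and `R'` -/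
def jn (p r : ℕ) (R R' : St) : Prop :=
  Relation.EqvGen (fun a b => R.rel a b ∨ R'.rel a b) p r

/-! ## vectors -/

open Classical in
/-- bilinear form attached to `jn p r` -/
noncomputable def pairG (p r : ℕ) (f g : St →₀ ℂ) : ℂ :=
  f.sum fun R a => g.sum fun R' b => a * b * (if jn p r R R' then 1 else 0)

/-- the vector of two strips side by side -/
noncomputable def comb2 (k : ℕ) (f g : St →₀ ℂ) : St →₀ ℂ :=
  f.sum fun R a => g.sum fun R' b => Finsupp.single (comb k R R') (a * b)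

/-- the vector of an upper strip: inverted parameters -/
noncomputable def up1 (A : List ℂ) : St →₀ ℂ := Psi (A.map (fun x => x⁻¹) ++ [0])

/-- the glued quantity: lower strip of width `L = a+1+b` with parameters `A, w, B`, upper strips
of widths `a` and `b` with inverted parameters; indicator of `{face a ~ face L}`. -/
noncomputable def GR (A : List ℂ) (w : ℂ) (B : List ℂ) : ℂ :=
  pairG A.length (A.length + 1 + B.length) (Psi (A ++ w :: (B ++ [0])))
    (comb2 ((A.length + 1) / 2) (up1 A) (up1 B))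

/-- the total mass -/
noncomputable def TT (A : List ℂ) (w : ℂ) (B : List ℂ) : ℂ :=
  Z (A.map (fun x => x⁻¹) ++ [0]) * Z (B.map (fun x => x⁻¹) ++ [0]) * Z (A ++ w :: (B ++ [0]))

/-! ## polynomials in `w` -/

/-- coefficients expressing the `k`-th coefficient of a polynomial of degree `≤ m` by its values
at `0, …, m` -/
noncomputable def lam (m k : ℕ) : ℕ → ℂ := Classical.epsilon fun c => ∀ P : ℂ[X],
  P.natDegree ≤ m → P.coeff k = ∑ j ∈ range (m+1), c j * P.eval (j : ℂ)

/-- `cw m k F` is the coefficient of `w^k` if `F` is a polynomial function of degree `≤ m` -/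
noncomputable def cw (m k : ℕ) (F : ℂ → ℂ) : ℂ := ∑ j ∈ range (m+1), lam m k j * F (j : ℂ)

/-- the product `(w²-1) ∏ (w-c)(w-1/c)` times `P` -/
noncomputable def Mp (l : List ℂ) (P : ℂ[X]) : ℂ[X] :=
  (X^2 - 1) * (l.map (fun c => (X - C c) * (X - C c⁻¹))).prod * P

end Pool.Agent.H492C
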