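import Pool.Agent.H492C.Defs
import Pool.Agent.H988R2.Perc.T17

/-! Polynomiality of the glued quantity `GR` in one variable of `A` or `B` (at any position), with
the degree bounds of task G4; used in task G1. -/

set_option linter.unusedVariables false

namespace Pool.Agent.H492C

open Pool.Agent.H988R2.Perc hiding X
open Finset Polynomial

/-! ### polynomiality -/

open Classical in
theorem g1_expand (p r k : ℕ) (f g h : St →₀ ℂ) (S S' S'' : Finset St) (hf : f.support ⊆ S)
    (hg : g.support ⊆ S') (hh : h.support ⊆ S'') :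
    pairG p r f (comb2 k g h) = ∑ R ∈ S, ∑ R' ∈ S', ∑ R'' ∈ S'',
      f R * (g R' * h R'') * (if jn p r R (comb k R' R'') then 1 else 0) := by
  unfold pairG comb2
  rw [Finsupp.sum_of_support_subset f hf _ (by intro i _; simp)]
  refine Finset.sum_congr rfl (fun R _ => ?_)
  rw [Finsupp.sum_sum_index (by intro a; simp) (by intro a b c; ring)]
  rw [Finsupp.sum_of_support_subset g hg _ (by
    intro i _
    simp)]
  refine Finset.sum_congr rfl (fun R' _ => ?_)
  rw [Finsupp.sum_sum_index (by intro a; simp) (by intro a b c; ring)]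
  rw [Finsupp.sum_of_support_subset h hh _ (by
    intro i _
    simp)]
  refine Finset.sum_congr rfl (fun R'' _ => ?_)
  rw [Finsupp.sum_single_index (by simp)]

/-- `f z` has uniformly finite support and `z^a • f z` has polynomial coefficients of degree
`≤ d` (for `z ≠ 0`) -/
def PolyV (a d : ℕ) (f : ℂ → (St →₀ ℂ)) : Prop :=
  (∃ S : Finset St, ∀ z, (f z).support ⊆ S) ∧
    ∀ R : St, ∃ P : ℂ[X], P.natDegree ≤ d ∧ ∀ z, z ≠ 0 → z^a * f z R = P.eval z

theorem PolyV.const (f : St →₀ ℂ) : PolyV 0 0 (fun _ => f) := by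
  refine ⟨⟨f.support, fun _ => Finset.Subset.refl _⟩, fun R => ⟨C (f R), by simp, ?_⟩⟩
  intro z _; simp

theorem PolyV.psi (u v : List ℂ) (h : Odd (u.length + v.length)) :
    PolyV 0 (u.length + v.length - 1) (fun z => Psi (u ++ z :: v)) := by
  obtain ⟨m, hm⟩ := h
  have hN : Even (u.length + v.length + 1) := ⟨m + 1, by omega⟩
  obtain ⟨S, hS⟩ := t17_supp (u.length + v.length + 1)
  refine ⟨⟨S, fun z => hS _ (by simp; ring)⟩, fun R => ?_⟩
  obtain ⟨P, hP1, hP2⟩ := (Psi_pd (u.length + v.length + 1) hN R).univ u v (by simp; try ring)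
  refine ⟨P, ?_, fun z _ => ?_⟩
  · have e : u.length + v.length + 1 - 2 = u.length + v.length - 1 := by omega
    rw [← e]; exact hP1
  · rw [pow_zero, one_mul]; exact hP2 z

theorem PolyV.psi_inv (u v : List ℂ) (h : Odd (u.length + v.length)) :
    PolyV (u.length + v.length - 1) (u.length + v.length - 1) (fun z => Psi (u ++ z⁻¹ :: v)) := by
  obtain ⟨⟨S, hS⟩, h2⟩ := PolyV.psi u v h
  refine ⟨⟨S, fun z => hS _⟩, fun R => ?_⟩
  obtain ⟨P, hP1, hP2⟩ := h2 R
  obtain ⟨Q, hQ1, hQ2⟩ := t17_reflect _ P hP1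
  refine ⟨Q, hQ1, fun z hz => ?_⟩
  rw [← hQ2 z hz, ← hP2 _ (inv_ne_zero hz), pow_zero, one_mul]

theorem PolyV.up1 (u v : List ℂ) (h : Even (u.length + v.length)) :
    PolyV (u.length + v.length) (u.length + v.length) (fun z => up1 (u ++ z :: v)) := by
  have h' : Odd ((u.map (fun x => x⁻¹)).length + (v.map (fun x => x⁻¹) ++ [0]).length) := by
    simp only [List.length_append, List.length_map, List.length_cons, List.length_nil]
    obtain ⟨m, hm⟩ := h
    exact ⟨m, by omega⟩
  have := PolyV.psi_inv _ _ h'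
  have e : (u.map (fun x => x⁻¹)).length + (v.map (fun x => x⁻¹) ++ [0]).length - 1 =
      u.length + v.length := by
    simp only [List.length_append, List.length_map, List.length_cons, List.length_nil]; omega
  rw [e] at this
  have e2 : (fun z => Pool.Agent.H492C.up1 (u ++ z :: v)) = (fun z => Psi (u.map (fun x => x⁻¹) ++
      z⁻¹ :: (v.map (fun x => x⁻¹) ++ [0]))) := by
    funext z
    unfold Pool.Agent.H492C.up1
    congr 1
    simp
  rw [e2]
  exact this

theorem PolyV.pair {a b c d e e' : ℕ} {f g h : ℂ → (St →₀ ℂ)} (hf : PolyV a d f)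
    (hg : PolyV b e g) (hh : PolyV c e' h) (p r k : ℕ) :
    ∃ P : ℂ[X], P.natDegree ≤ d + e + e' ∧
      ∀ z, z ≠ 0 → P.eval z = z^(a + b + c) * pairG p r (f z) (comb2 k (g z) (h z)) := by
  classical
  obtain ⟨⟨S, hS⟩, hf2⟩ := hf
  obtain ⟨⟨S', hS'⟩, hg2⟩ := hg
  obtain ⟨⟨S'', hS''⟩, hh2⟩ := hh
  choose P hP1 hP2 using hf2
  choose Q hQ1 hQ2 using hg2
  choose T hT1 hT2 using hh2
  refine ⟨∑ R ∈ S, ∑ R' ∈ S', ∑ R'' ∈ S'', P R * Q R' * T R'' *
    C (if jn p r R (comb k R' R'') then 1 else 0), ?_, ?_⟩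
  · refine Polynomial.natDegree_sum_le_of_forall_le _ _ (fun R _ => ?_)
    refine Polynomial.natDegree_sum_le_of_forall_le _ _ (fun R' _ => ?_)
    refine Polynomial.natDegree_sum_le_of_forall_le _ _ (fun R'' _ => ?_)
    refine (Polynomial.natDegree_mul_C_le _ _).trans ?_
    refine (Polynomial.natDegree_mul_le).trans ?_
    refine (Nat.add_le_add_right Polynomial.natDegree_mul_le _).trans ?_
    have := hP1 R
    have := hQ1 R'
    have := hT1 R''
    omega
  · intro z hz
    rw [g1_expand p r k _ _ _ S S' S'' (hS z) (hS' z) (hS'' z), Polynomial.eval_finsetSum,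
      Finset.mul_sum]
    refine Finset.sum_congr rfl (fun R _ => ?_)
    rw [Polynomial.eval_finsetSum, Finset.mul_sum]
    refine Finset.sum_congr rfl (fun R' _ => ?_)
    rw [Polynomial.eval_finsetSum, Finset.mul_sum]
    refine Finset.sum_congr rfl (fun R'' _ => ?_)
    rw [Polynomial.eval_mul, Polynomial.eval_mul, Polynomial.eval_mul, Polynomial.eval_C,
      ← hP2 R z hz, ← hQ2 R' z hz, ← hT2 R'' z hz]
    ring

theorem g1_polyA (u v B : List ℂ) (w : ℂ) (h : Even (u.length + v.length)) (hB : Odd B.length) :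
    ∃ P : ℂ[X], P.natDegree ≤ 2 * (u.length + v.length) + 1 + B.length ∧
      ∀ z, z ≠ 0 → P.eval z = z^(u.length + v.length) * GR (u ++ z :: v) w B := by
  have hpar : Odd (u.length + (v ++ w :: (B ++ [0])).length) := by
    obtain ⟨m, hm⟩ := h
    obtain ⟨n, hn⟩ := hB
    simp only [List.length_append, List.length_cons, List.length_nil]
    exact ⟨m + n + 1, by omega⟩
  obtain ⟨P, hP1, hP2⟩ := PolyV.pair (PolyV.psi u (v ++ w :: (B ++ [0])) hpar) (PolyV.up1 u v h)
    (PolyV.const (up1 B)) (u.length + v.length + 1) (u.length + v.length + 1 + 1 + B.length)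
    ((u.length + v.length + 1 + 1)/2)
  refine ⟨P, hP1.trans ?_, fun z hz => ?_⟩
  · simp only [List.length_append, List.length_cons, List.length_nil]; omega
  · rw [hP2 z hz]
    unfold GR
    have hl : (u ++ z :: v).length = u.length + v.length + 1 := by
      simp only [List.length_append, List.length_cons]; ring
    have hps : Psi ((u ++ z :: v) ++ w :: (B ++ [0])) =
        Psi (u ++ z :: (v ++ w :: (B ++ [0]))) := by
      congr 1; simp
    rw [hl, hps, zero_add, add_zero]

theorem g1_polyB (A u v : List ℂ) (w : ℂ) (hA : Odd A.length) (h : Even (u.length + v.length)) :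
    ∃ P : ℂ[X], P.natDegree ≤ 2 * (u.length + v.length) + 1 + A.length ∧
      ∀ z, z ≠ 0 → P.eval z = z^(u.length + v.length) * GR A w (u ++ z :: v) := by
  have hpar : Odd ((A ++ w :: u).length + (v ++ [0]).length) := by
    obtain ⟨m, hm⟩ := h
    obtain ⟨n, hn⟩ := hA
    simp only [List.length_append, List.length_cons, List.length_nil]
    exact ⟨m + n + 1, by omega⟩
  obtain ⟨P, hP1, hP2⟩ := PolyV.pair (PolyV.psi (A ++ w :: u) (v ++ [0]) hpar)
    (PolyV.const (up1 A)) (PolyV.up1 u v h) A.length (A.length + 1 + (u.length + v.length + 1))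
    ((A.length + 1)/2)
  refine ⟨P, hP1.trans ?_, fun z hz => ?_⟩
  · simp only [List.length_append, List.length_cons, List.length_nil]; omega
  · rw [hP2 z hz]
    unfold GR
    have hl : (u ++ z :: v).length = u.length + v.length + 1 := by
      simp only [List.length_append, List.length_cons]; ring
    have hps : Psi (A ++ w :: ((u ++ z :: v) ++ [0])) =
        Psi ((A ++ w :: u) ++ z :: (v ++ [0])) := by
      congr 1; simp
    rw [hl, hps, zero_add, zero_add]

end Pool.Agent.H492C
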