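import Pool.Agent.H492C.Defs

/-! task P2: two strips side by side -/

set_option autoImplicit false

namespace Pool.Agent.H492C

open Pool.Agent.H988R2.Perc hiding X
open Finset Polynomial

theorem comb2_inner_zero (k : ℕ) (R : St) (g : St →₀ ℂ) :
    (g.sum fun R' b => Finsupp.single (comb k R R') ((0 : ℂ) * b)) = 0 := by
  simp [Finsupp.sum]

theorem comb2_inner_add (k : ℕ) (R : St) (g : St →₀ ℂ) (a a' : ℂ) :
    (g.sum fun R' b => Finsupp.single (comb k R R') ((a + a') * b)) =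
      (g.sum fun R' b => Finsupp.single (comb k R R') (a * b)) +
        (g.sum fun R' b => Finsupp.single (comb k R R') (a' * b)) := by
  rw [← Finsupp.sum_add]
  refine Finsupp.sum_congr (fun R' _ => ?_)
  rw [add_mul, Finsupp.single_add]

theorem comb2_add_left (k : ℕ) (f g h : St →₀ ℂ) :
    comb2 k (f + g) h = comb2 k f h + comb2 k g h := by
  unfold comb2
  exact Finsupp.sum_add_index' (fun R => comb2_inner_zero k R h)
    (fun R a a' => comb2_inner_add k R h a a')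

theorem comb2_add_right (k : ℕ) (f g h : St →₀ ℂ) :
    comb2 k f (g + h) = comb2 k f g + comb2 k f h := by
  unfold comb2
  rw [← Finsupp.sum_add]
  refine Finsupp.sum_congr (fun R _ => ?_)
  refine Finsupp.sum_add_index' (fun R' => ?_) (fun R' b b' => ?_)
  · rw [mul_zero, Finsupp.single_zero]
  · rw [mul_add, Finsupp.single_add]

theorem comb2_smul_left (k : ℕ) (c : ℂ) (f g : St →₀ ℂ) :
    comb2 k (c • f) g = c • comb2 k f g := by
  unfold comb2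
  rw [Finsupp.sum_smul_index (fun R => comb2_inner_zero k R g), Finsupp.smul_sum]
  refine Finsupp.sum_congr (fun R _ => ?_)
  rw [Finsupp.smul_sum]
  refine Finsupp.sum_congr (fun R' _ => ?_)
  rw [Finsupp.smul_single, smul_eq_mul, mul_assoc]

theorem comb2_smul_right (k : ℕ) (c : ℂ) (f g : St →₀ ℂ) :
    comb2 k f (c • g) = c • comb2 k f g := by
  unfold comb2
  rw [Finsupp.smul_sum]
  refine Finsupp.sum_congr (fun R _ => ?_)
  rw [Finsupp.sum_smul_index (fun R' => by rw [mul_zero, Finsupp.single_zero]), Finsupp.smul_sum]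
  refine Finsupp.sum_congr (fun R' _ => ?_)
  rw [Finsupp.smul_single, smul_eq_mul]
  congr 1
  ring

/-- general form: a map of the left argument -/
theorem comb2_map_left (k k' : ℕ) (F G : St → St)
    (hFG : ∀ R R', comb k' (F R) R' = G (comb k R R')) (f g : St →₀ ℂ) :
    comb2 k' (Finsupp.mapDomain F f) g = Finsupp.mapDomain G (comb2 k f g) := by
  unfold comb2
  rw [Finsupp.sum_mapDomain_index (fun R => comb2_inner_zero k' R g)
    (fun R a a' => comb2_inner_add k' R g a a'), Finsupp.mapDomain_sum]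
  refine Finsupp.sum_congr (fun R _ => ?_)
  rw [Finsupp.mapDomain_sum]
  refine Finsupp.sum_congr (fun R' _ => ?_)
  rw [Finsupp.mapDomain_single, hFG]

/-- general form: a map of the right argument -/
theorem comb2_map_right (k : ℕ) (F G : St → St)
    (hFG : ∀ R R', comb k R (F R') = G (comb k R R')) (f g : St →₀ ℂ) :
    comb2 k f (Finsupp.mapDomain F g) = Finsupp.mapDomain G (comb2 k f g) := by
  unfold comb2
  rw [Finsupp.mapDomain_sum]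
  refine Finsupp.sum_congr (fun R _ => ?_)
  rw [Finsupp.mapDomain_sum, Finsupp.sum_mapDomain_index]
  · refine Finsupp.sum_congr (fun R' _ => ?_)
    rw [Finsupp.mapDomain_single, hFG]
  · intro R'
    rw [mul_zero, Finsupp.single_zero]
  · intro R' b b'
    rw [mul_add, Finsupp.single_add]



theorem P2_comb_act_left {k i : ℕ} (h : i + 2 < 2*k) (R R' : St) :
    comb k (St.act i R) R' = St.act i (comb k R R') := by
  ext a b
  have hodd := R'.odd (a-2*k) (b-2*k)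
  have r1 : R.rel i i := R.eqv.refl i
  have r2 : R.rel (i+2) (i+2) := R.eqv.refl (i+2)
  have r3 : R.rel a a := R.eqv.refl a
  show (a = b ∨ (a < 2*k ∧ b < 2*k ∧ (a = b ∨ (a % 2 = 1 ∧ b % 2 = 1 ∧ a ≠ i+1 ∧ b ≠ i+1 ∧
    (R.rel a b ∨ (R.rel a i ∧ R.rel (i+2) b) ∨ (R.rel a (i+2) ∧ R.rel i b))))) ∨
    (2*k ≤ a ∧ 2*k ≤ b ∧ R'.rel (a - 2*k) (b - 2*k))) ↔
    (a = b ∨ (a % 2 = 1 ∧ b % 2 = 1 ∧ a ≠ i+1 ∧ b ≠ i+1 ∧
    ((a = b ∨ (a < 2*k ∧ b < 2*k ∧ R.rel a b) ∨ (2*k ≤ a ∧ 2*k ≤ b ∧ R'.rel (a - 2*k) (b - 2*k))) ∨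
     ((a = i ∨ (a < 2*k ∧ i < 2*k ∧ R.rel a i) ∨ (2*k ≤ a ∧ 2*k ≤ i ∧ R'.rel (a - 2*k) (i - 2*k))) ∧
      ((i+2) = b ∨ ((i+2) < 2*k ∧ b < 2*k ∧ R.rel (i+2) b) ∨ (2*k ≤ (i+2) ∧ 2*k ≤ b ∧ R'.rel ((i+2) - 2*k) (b - 2*k)))) ∨
     ((a = (i+2) ∨ (a < 2*k ∧ (i+2) < 2*k ∧ R.rel a (i+2)) ∨ (2*k ≤ a ∧ 2*k ≤ (i+2) ∧ R'.rel (a - 2*k) ((i+2) - 2*k))) ∧
      (i = b ∨ (i < 2*k ∧ b < 2*k ∧ R.rel i b) ∨ (2*k ≤ i ∧ 2*k ≤ b ∧ R'.rel (i - 2*k) (b - 2*k)))))))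
  by_cases hab : a = b
  · simp [hab]
  · constructor
    · rintro (h0 | ⟨h1, h2, h3⟩ | ⟨h1, h2, h3⟩)
      · exact absurd h0 hab
      · rcases h3 with h3 | ⟨h3, h4, h5, h6, h7⟩
        · exact absurd h3 hab
        · refine Or.inr ⟨h3, h4, h5, h6, ?_⟩
          rcases h7 with h7 | ⟨h7, h8⟩ | ⟨h7, h8⟩
          · exact Or.inl (Or.inr (Or.inl ⟨h1, h2, h7⟩))
          · exact Or.inr (Or.inl ⟨Or.inr (Or.inl ⟨h1, by omega, h7⟩), Or.inr (Or.inl ⟨h, h2, h8⟩)⟩)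
          · exact Or.inr (Or.inr ⟨Or.inr (Or.inl ⟨h1, h, h7⟩), Or.inr (Or.inl ⟨by omega, h2, h8⟩)⟩)
      · rcases hodd h3 with h4 | ⟨h4, h5⟩
        · exfalso; omega
        · exact Or.inr ⟨by omega, by omega, by omega, by omega, Or.inl (Or.inr (Or.inr ⟨h1, h2, h3⟩))⟩
    · rintro (h0 | ⟨h3, h4, h5, h6, h7⟩)
      · exact absurd h0 hab
      · rcases h7 with (h7 | ⟨h7, h8, h9⟩ | ⟨h7, h8, h9⟩) | ⟨h7, h8⟩ | ⟨h7, h8⟩
        · exact absurd h7 hab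
        · exact Or.inr (Or.inl ⟨h7, h8, Or.inr ⟨h3, h4, h5, h6, Or.inl h9⟩⟩)
        · exact Or.inr (Or.inr ⟨h7, h8, h9⟩)
        · have e1 : a < 2*k ∧ R.rel a i := by
            rcases h7 with h7 | ⟨k1, k2, k3⟩ | ⟨k1, k2, k3⟩
            · subst h7; exact ⟨by omega, r3⟩
            · exact ⟨k1, k3⟩
            · omega
          have e2 : b < 2*k ∧ R.rel (i+2) b := by
            rcases h8 with h8 | ⟨k1, k2, k3⟩ | ⟨k1, k2, k3⟩
            · subst h8; exact ⟨by omega, r2⟩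
            · exact ⟨k2, k3⟩
            · omega
          exact Or.inr (Or.inl ⟨e1.1, e2.1, Or.inr ⟨h3, h4, h5, h6, Or.inr (Or.inl ⟨e1.2, e2.2⟩)⟩⟩)
        · have e1 : a < 2*k ∧ R.rel a (i+2) := by
            rcases h7 with h7 | ⟨k1, k2, k3⟩ | ⟨k1, k2, k3⟩
            · subst h7; exact ⟨by omega, r3⟩
            · exact ⟨k1, k3⟩
            · omega
          have e2 : b < 2*k ∧ R.rel i b := by
            rcases h8 with h8 | ⟨k1, k2, k3⟩ | ⟨k1, k2, k3⟩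
            · subst h8; exact ⟨by omega, r1⟩
            · exact ⟨k2, k3⟩
            · omega
          exact Or.inr (Or.inl ⟨e1.1, e2.1, Or.inr ⟨h3, h4, h5, h6, Or.inr (Or.inr ⟨e1.2, e2.2⟩)⟩⟩)

theorem P2_comb_act_right (k i : ℕ) (R R' : St) :
    comb k R (St.act i R') = St.act (i + 2*k) (comb k R R') := by
  ext a b
  have hodd := R.odd a b
  have s1 : i + 2*k - 2*k = i := by omega
  have s2 : i + 2*k + 2 - 2*k = i + 2 := by omega
  have r1 : R'.rel i i := R'.eqv.refl i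
  have r2 : R'.rel (i+2) (i+2) := R'.eqv.refl (i+2)
  show (a = b ∨ (a < 2*k ∧ b < 2*k ∧ R.rel a b) ∨
    (2*k ≤ a ∧ 2*k ≤ b ∧ (a - 2*k = b - 2*k ∨ ((a - 2*k) % 2 = 1 ∧ (b - 2*k) % 2 = 1 ∧
      (a - 2*k) ≠ i+1 ∧ (b - 2*k) ≠ i+1 ∧
      (R'.rel (a - 2*k) (b - 2*k) ∨ (R'.rel (a - 2*k) i ∧ R'.rel (i+2) (b - 2*k)) ∨
        (R'.rel (a - 2*k) (i+2) ∧ R'.rel i (b - 2*k))))))) ↔
    (a = b ∨ (a % 2 = 1 ∧ b % 2 = 1 ∧ a ≠ i+2*k+1 ∧ b ≠ i+2*k+1 ∧
    ((a = b ∨ (a < 2*k ∧ b < 2*k ∧ R.rel a b) ∨ (2*k ≤ a ∧ 2*k ≤ b ∧ R'.rel (a - 2*k) (b - 2*k))) ∨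
     ((a = i+2*k ∨ (a < 2*k ∧ i+2*k < 2*k ∧ R.rel a (i+2*k)) ∨ (2*k ≤ a ∧ 2*k ≤ i+2*k ∧ R'.rel (a - 2*k) (i+2*k - 2*k))) ∧
      ((i+2*k+2) = b ∨ ((i+2*k+2) < 2*k ∧ b < 2*k ∧ R.rel (i+2*k+2) b) ∨ (2*k ≤ (i+2*k+2) ∧ 2*k ≤ b ∧ R'.rel ((i+2*k+2) - 2*k) (b - 2*k)))) ∨
     ((a = (i+2*k+2) ∨ (a < 2*k ∧ (i+2*k+2) < 2*k ∧ R.rel a (i+2*k+2)) ∨ (2*k ≤ a ∧ 2*k ≤ (i+2*k+2) ∧ R'.rel (a - 2*k) ((i+2*k+2) - 2*k))) ∧
      (i+2*k = b ∨ (i+2*k < 2*k ∧ b < 2*k ∧ R.rel (i+2*k) b) ∨ (2*k ≤ i+2*k ∧ 2*k ≤ b ∧ R'.rel (i+2*k - 2*k) (b - 2*k)))))))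
  rw [s1, s2]
  by_cases hab : a = b
  · simp [hab]
  · constructor
    · rintro (h0 | ⟨h1, h2, h3⟩ | ⟨h1, h2, h3⟩)
      · exact absurd h0 hab
      · rcases hodd h3 with h4 | ⟨h4, h5⟩
        · exact absurd h4 hab
        · exact Or.inr ⟨h4, h5, by omega, by omega, Or.inl (Or.inr (Or.inl ⟨h1, h2, h3⟩))⟩
      · rcases h3 with h3 | ⟨h3, h4, h5, h6, h7⟩
        · omega
        · refine Or.inr ⟨by omega, by omega, by omega, by omega, ?_⟩
          rcases h7 with h7 | ⟨h7, h8⟩ | ⟨h7, h8⟩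
          · exact Or.inl (Or.inr (Or.inr ⟨h1, h2, h7⟩))
          · exact Or.inr (Or.inl ⟨Or.inr (Or.inr ⟨h1, by omega, h7⟩),
              Or.inr (Or.inr ⟨by omega, h2, h8⟩)⟩)
          · exact Or.inr (Or.inr ⟨Or.inr (Or.inr ⟨h1, by omega, h7⟩),
              Or.inr (Or.inr ⟨by omega, h2, h8⟩)⟩)
    · rintro (h0 | ⟨h3, h4, h5, h6, h7⟩)
      · exact absurd h0 hab
      · rcases h7 with (h7 | ⟨h7, h8, h9⟩ | ⟨h7, h8, h9⟩) | ⟨h7, h8⟩ | ⟨h7, h8⟩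
        · exact absurd h7 hab
        · exact Or.inr (Or.inl ⟨h7, h8, h9⟩)
        · exact Or.inr (Or.inr ⟨h7, h8, Or.inr ⟨by omega, by omega, by omega, by omega, Or.inl h9⟩⟩)
        · have e1 : 2*k ≤ a ∧ R'.rel (a-2*k) i := by
            rcases h7 with h7 | ⟨k1, k2, k3⟩ | ⟨k1, k2, k3⟩
            · subst h7; rw [s1]; exact ⟨by omega, r1⟩
            · omega
            · exact ⟨k1, k3⟩
          have e2 : 2*k ≤ b ∧ R'.rel (i+2) (b-2*k) := by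
            rcases h8 with h8 | ⟨k1, k2, k3⟩ | ⟨k1, k2, k3⟩
            · subst h8; rw [s2]; exact ⟨by omega, r2⟩
            · omega
            · exact ⟨k2, k3⟩
          exact Or.inr (Or.inr ⟨e1.1, e2.1, Or.inr ⟨by omega, by omega, by omega, by omega,
            Or.inr (Or.inl ⟨e1.2, e2.2⟩)⟩⟩)
        · have e1 : 2*k ≤ a ∧ R'.rel (a-2*k) (i+2) := by
            rcases h7 with h7 | ⟨k1, k2, k3⟩ | ⟨k1, k2, k3⟩
            · subst h7; rw [s2]; exact ⟨by omega, r2⟩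
            · omega
            · exact ⟨k1, k3⟩
          have e2 : 2*k ≤ b ∧ R'.rel i (b-2*k) := by
            rcases h8 with h8 | ⟨k1, k2, k3⟩ | ⟨k1, k2, k3⟩
            · subst h8; rw [s1]; exact ⟨by omega, r1⟩
            · omega
            · exact ⟨k2, k3⟩
          exact Or.inr (Or.inr ⟨e1.1, e2.1, Or.inr ⟨by omega, by omega, by omega, by omega,
            Or.inr (Or.inr ⟨e1.2, e2.2⟩)⟩⟩)


theorem P2_low (i a : ℕ) (h : i < a) : St.low i a = a - 2 := by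
  unfold St.low
  rw [if_neg (by omega)]

theorem P2_low' (i a : ℕ) (h : a ≤ i) : St.low i a = a := by
  unfold St.low
  rw [if_pos h]

theorem P2_comb_ins_left (k : ℕ) (R R' : St) :
    comb (k+1) (St.ins 0 R) R' = St.ins 0 (comb k R R') := by
  ext a b
  have hodd := R'.odd (a-2*(k+1)) (b-2*(k+1))
  show (a = b ∨ (a < 2*(k+1) ∧ b < 2*(k+1) ∧ (a = b ∨ (a % 2 = 1 ∧ b % 2 = 1 ∧ a ≠ 0+1 ∧ b ≠ 0+1 ∧
    R.rel (St.low 0 a) (St.low 0 b)))) ∨
    (2*(k+1) ≤ a ∧ 2*(k+1) ≤ b ∧ R'.rel (a - 2*(k+1)) (b - 2*(k+1)))) ↔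
    (a = b ∨ (a % 2 = 1 ∧ b % 2 = 1 ∧ a ≠ 0+1 ∧ b ≠ 0+1 ∧
    (St.low 0 a = St.low 0 b ∨ (St.low 0 a < 2*k ∧ St.low 0 b < 2*k ∧ R.rel (St.low 0 a) (St.low 0 b)) ∨
      (2*k ≤ St.low 0 a ∧ 2*k ≤ St.low 0 b ∧ R'.rel (St.low 0 a - 2*k) (St.low 0 b - 2*k)))))
  by_cases hab : a = b
  · simp [hab]
  by_cases ha : a % 2 = 1 ∧ b % 2 = 1 ∧ a ≠ 0+1 ∧ b ≠ 0+1
  · obtain ⟨h1, h2, h3, h4⟩ := ha
    rw [P2_low 0 a (by omega), P2_low 0 b (by omega)]
    have e1 : a - 2 - 2*k = a - 2*(k+1) := by omega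
    have e2 : b - 2 - 2*k = b - 2*(k+1) := by omega
    rw [e1, e2]
    constructor
    · rintro (h0 | ⟨k1, k2, k3⟩ | ⟨k1, k2, k3⟩)
      · exact absurd h0 hab
      · rcases k3 with k3 | ⟨_, _, _, _, k3⟩
        · exact absurd k3 hab
        · exact Or.inr ⟨h1, h2, h3, h4, Or.inr (Or.inl ⟨by omega, by omega, k3⟩)⟩
      · exact Or.inr ⟨h1, h2, h3, h4, Or.inr (Or.inr ⟨by omega, by omega, k3⟩)⟩
    · rintro (h0 | ⟨_, _, _, _, k1 | ⟨k1, k2, k3⟩ | ⟨k1, k2, k3⟩⟩)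
      · exact absurd h0 hab
      · omega
      · exact Or.inr (Or.inl ⟨by omega, by omega, Or.inr ⟨h1, h2, h3, h4, k3⟩⟩)
      · exact Or.inr (Or.inr ⟨by omega, by omega, k3⟩)
  · constructor
    · rintro (h0 | ⟨k1, k2, k3⟩ | ⟨k1, k2, k3⟩)
      · exact absurd h0 hab
      · rcases k3 with k3 | ⟨m1, m2, m3, m4, k3⟩
        · exact absurd k3 hab
        · exact absurd ⟨m1, m2, m3, m4⟩ ha
      · rcases hodd k3 with m | ⟨m1, m2⟩
        · omega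
        · exact absurd ⟨by omega, by omega, by omega, by omega⟩ ha
    · rintro (h0 | ⟨m1, m2, m3, m4, _⟩)
      · exact absurd h0 hab
      · exact absurd ⟨m1, m2, m3, m4⟩ ha

theorem P2_comb_ins_right (k : ℕ) (R R' : St) :
    comb k R (St.ins 0 R') = St.ins (2*k) (comb k R R') := by
  ext a b
  have hodd := R.odd a b
  show (a = b ∨ (a < 2*k ∧ b < 2*k ∧ R.rel a b) ∨
    (2*k ≤ a ∧ 2*k ≤ b ∧ (a - 2*k = b - 2*k ∨ ((a - 2*k) % 2 = 1 ∧ (b - 2*k) % 2 = 1 ∧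
      (a - 2*k) ≠ 0+1 ∧ (b - 2*k) ≠ 0+1 ∧ R'.rel (St.low 0 (a - 2*k)) (St.low 0 (b - 2*k)))))) ↔
    (a = b ∨ (a % 2 = 1 ∧ b % 2 = 1 ∧ a ≠ 2*k+1 ∧ b ≠ 2*k+1 ∧
    (St.low (2*k) a = St.low (2*k) b ∨
      (St.low (2*k) a < 2*k ∧ St.low (2*k) b < 2*k ∧ R.rel (St.low (2*k) a) (St.low (2*k) b)) ∨
      (2*k ≤ St.low (2*k) a ∧ 2*k ≤ St.low (2*k) b ∧
        R'.rel (St.low (2*k) a - 2*k) (St.low (2*k) b - 2*k)))))
  by_cases hab : a = b
  · simp [hab]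
  by_cases ha : a % 2 = 1 ∧ b % 2 = 1 ∧ a ≠ 2*k+1 ∧ b ≠ 2*k+1
  · obtain ⟨h1, h2, h3, h4⟩ := ha
    by_cases hak : a < 2*k
    · by_cases hbk : b < 2*k
      · rw [P2_low' (2*k) a (by omega), P2_low' (2*k) b (by omega)]
        constructor
        · rintro (h0 | ⟨k1, k2, k3⟩ | ⟨k1, k2, k3⟩)
          · exact absurd h0 hab
          · exact Or.inr ⟨h1, h2, h3, h4, Or.inr (Or.inl ⟨k1, k2, k3⟩)⟩
          · omega
        · rintro (h0 | ⟨_, _, _, _, k1 | ⟨k1, k2, k3⟩ | ⟨k1, k2, k3⟩⟩)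
          · exact absurd h0 hab
          · exact absurd k1 hab
          · exact Or.inr (Or.inl ⟨k1, k2, k3⟩)
          · omega
      · rw [P2_low' (2*k) a (by omega), P2_low (2*k) b (by omega)]
        constructor
        · rintro (h0 | ⟨k1, k2, k3⟩ | ⟨k1, k2, k3⟩)
          · exact absurd h0 hab
          · omega
          · omega
        · rintro (h0 | ⟨_, _, _, _, k1 | ⟨k1, k2, k3⟩ | ⟨k1, k2, k3⟩⟩)
          · exact absurd h0 hab
          · omega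
          · omega
          · omega
    · by_cases hbk : b < 2*k
      · rw [P2_low (2*k) a (by omega), P2_low' (2*k) b (by omega)]
        constructor
        · rintro (h0 | ⟨k1, k2, k3⟩ | ⟨k1, k2, k3⟩)
          · exact absurd h0 hab
          · omega
          · omega
        · rintro (h0 | ⟨_, _, _, _, k1 | ⟨k1, k2, k3⟩ | ⟨k1, k2, k3⟩⟩)
          · exact absurd h0 hab
          · omega
          · omega
          · omega
      · rw [P2_low (2*k) a (by omega), P2_low (2*k) b (by omega),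
          P2_low 0 (a - 2*k) (by omega), P2_low 0 (b - 2*k) (by omega)]
        have e1 : a - 2 - 2*k = a - 2*k - 2 := by omega
        have e2 : b - 2 - 2*k = b - 2*k - 2 := by omega
        rw [e1, e2]
        constructor
        · rintro (h0 | ⟨k1, k2, k3⟩ | ⟨k1, k2, k3⟩)
          · exact absurd h0 hab
          · omega
          · rcases k3 with k3 | ⟨_, _, _, _, k3⟩
            · omega
            · exact Or.inr ⟨h1, h2, h3, h4, Or.inr (Or.inr ⟨by omega, by omega, k3⟩)⟩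
        · rintro (h0 | ⟨_, _, _, _, k1 | ⟨k1, k2, k3⟩ | ⟨k1, k2, k3⟩⟩)
          · exact absurd h0 hab
          · omega
          · omega
          · exact Or.inr (Or.inr ⟨by omega, by omega, Or.inr ⟨by omega, by omega, by omega,
              by omega, k3⟩⟩)
  · constructor
    · rintro (h0 | ⟨k1, k2, k3⟩ | ⟨k1, k2, k3⟩)
      · exact absurd h0 hab
      · rcases hodd k3 with m | ⟨m1, m2⟩
        · exact absurd m hab
        · exact absurd ⟨by omega, by omega, by omega, by omega⟩ ha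
      · rcases k3 with k3 | ⟨m1, m2, m3, m4, k3⟩
        · omega
        · exact absurd ⟨by omega, by omega, by omega, by omega⟩ ha
    · rintro (h0 | ⟨m1, m2, m3, m4, _⟩)
      · exact absurd h0 hab
      · exact absurd ⟨m1, m2, m3, m4⟩ ha

theorem comb2_act_left {k i : ℕ} (h : i + 2 < 2*k) (f g : St →₀ ℂ) :
    comb2 k (Finsupp.mapDomain (St.act i) f) g = Finsupp.mapDomain (St.act i) (comb2 k f g) :=
  comb2_map_left k k _ _ (fun R R' => P2_comb_act_left h R R') f g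

theorem comb2_act_right (k i : ℕ) (f g : St →₀ ℂ) :
    comb2 k f (Finsupp.mapDomain (St.act i) g) =
      Finsupp.mapDomain (St.act (i + 2*k)) (comb2 k f g) :=
  comb2_map_right k _ _ (fun R R' => P2_comb_act_right k i R R') f g

theorem comb2_ins_left (k : ℕ) (f g : St →₀ ℂ) :
    comb2 (k+1) (Finsupp.mapDomain (St.ins 0) f) g =
      Finsupp.mapDomain (St.ins 0) (comb2 k f g) :=
  comb2_map_left k (k+1) _ _ (fun R R' => P2_comb_ins_left k R R') f g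

theorem comb2_ins_right (k : ℕ) (f g : St →₀ ℂ) :
    comb2 k f (Finsupp.mapDomain (St.ins 0) g) =
      Finsupp.mapDomain (St.ins (2*k)) (comb2 k f g) :=
  comb2_map_right k _ _ (fun R R' => P2_comb_ins_right k R R') f g

end Pool.Agent.H492C
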