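import Pool.Agent.H492C.Defs
import Pool.Agent.H988R2.Perc.T17

/-! Task S1: states. -/

namespace Pool.Agent.H492C

open Pool.Agent.H988R2.Perc hiding X
open Finset Polynomial

theorem jn_act {p r i : ℕ} (hp : p ≠ i+1) (hr : r ≠ i+1) (R R' : St) :
    jn p r (St.act i R) R' ↔ jn p r R (St.act i R') := by
  unfold jn
  have h1 : (fun a b => R.rel a b ∨ (St.act i R').rel a b) =
      (fun a b => (St.act i R').rel a b ∨ R.rel a b) := by
    funext a b; exact propext or_comm
  rw [h1, t17_key R R' p r hp hr, t17_key R' R p r hp hr]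
  have : (fun a b => (St.act i R).rel a b ∨ (St.act i R').rel a b) =
      (fun a b => (St.act i R').rel a b ∨ (St.act i R).rel a b) := by
    funext a b; exact propext or_comm
  rw [this]

theorem S1_low_up (i a : ℕ) : St.low i (St.up i a) = a := by
  unfold St.low St.up
  split_ifs <;> omega

theorem S1_ins_low (i : ℕ) (S : St) (a b : ℕ) (h : (St.ins i S).rel a b) :
    S.rel (St.low i a) (St.low i b) := by
  rcases h with h | ⟨_, _, _, _, h⟩
  · subst h; exact S.eqv.1 _
  · exact h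

theorem S1_ins_up (i : ℕ) (S : St) (a b : ℕ) (h : S.rel a b) :
    (St.ins i S).rel (St.up i a) (St.up i b) := by
  rcases S.odd _ _ h with h' | ⟨h1, h2⟩
  · left; rw [h']
  · right
    refine ⟨?_, ?_, ?_, ?_, ?_⟩
    · unfold St.up; split_ifs <;> omega
    · unfold St.up; split_ifs <;> omega
    · unfold St.up; split_ifs <;> omega
    · unfold St.up; split_ifs <;> omega
    · rw [S1_low_up, S1_low_up]; exact h

theorem jn_ins {p r i : ℕ} (hi : Even i) (R R' : St) :
    jn (St.up i p) (St.up i r) (St.ins i R) (St.ins i R') ↔ jn p r R R' := by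
  unfold jn
  constructor
  · intro h
    have : ∀ a b : ℕ, Relation.EqvGen (fun a b => (St.ins i R).rel a b ∨ (St.ins i R').rel a b) a b →
        Relation.EqvGen (fun a b => R.rel a b ∨ R'.rel a b) (St.low i a) (St.low i b) := by
      intro a b h
      induction h with
      | rel x y h =>
        rcases h with h | h
        · exact Relation.EqvGen.rel _ _ (Or.inl (S1_ins_low i R _ _ h))
        · exact Relation.EqvGen.rel _ _ (Or.inr (S1_ins_low i R' _ _ h))
      | refl x => exact Relation.EqvGen.refl _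
      | symm x y _ ih => exact Relation.EqvGen.symm _ _ ih
      | trans x y z _ _ ih1 ih2 => exact Relation.EqvGen.trans _ _ _ ih1 ih2
    have h2 := this _ _ h
    rw [S1_low_up, S1_low_up] at h2
    exact h2
  · intro h
    induction h with
    | rel x y h =>
      rcases h with h | h
      · exact Relation.EqvGen.rel _ _ (Or.inl (S1_ins_up i R _ _ h))
      · exact Relation.EqvGen.rel _ _ (Or.inr (S1_ins_up i R' _ _ h))
    | refl x => exact Relation.EqvGen.refl _
    | symm x y _ ih => exact Relation.EqvGen.symm _ _ ih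
    | trans x y z _ _ ih1 ih2 => exact Relation.EqvGen.trans _ _ _ ih1 ih2

theorem jn_isol {p r : ℕ} (h : p ≠ r) (R R' : St) (h1 : ∀ x, R.rel x r → x = r)
    (h2 : ∀ x, R'.rel x r → x = r) : ¬ jn p r R R' := by
  intro hj
  have key : ∀ a b : ℕ, Relation.EqvGen (fun a b => R.rel a b ∨ R'.rel a b) a b →
      (a = r ↔ b = r) := by
    intro a b hab
    induction hab with
    | rel x y hxy =>
      constructor
      · intro hx
        subst hx
        rcases hxy with hxy | hxy
        · exact h1 _ (R.eqv.2 hxy)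
        · exact h2 _ (R'.eqv.2 hxy)
      · intro hy
        subst hy
        rcases hxy with hxy | hxy
        · exact h1 _ hxy
        · exact h2 _ hxy
    | refl x => exact Iff.rfl
    | symm x y _ ih => exact ih.symm
    | trans x y z _ _ ih1 ih2 => exact ih1.trans ih2
  exact h ((key p r hj).2 rfl)

theorem S1_comb_l {k : ℕ} {R R' : St} {a b : ℕ} (ha : a < 2*k) (hb : b < 2*k)
    (h : R.rel a b) : (comb k R R').rel a b := Or.inr (Or.inl ⟨ha, hb, h⟩)

theorem S1_comb_r {k : ℕ} {R R' : St} {a b : ℕ} (ha : 2*k ≤ a) (hb : 2*k ≤ b)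
    (h : R'.rel (a - 2*k) (b - 2*k)) : (comb k R R').rel a b := Or.inr (Or.inr ⟨ha, hb, h⟩)

theorem S1_comb_left {k : ℕ} {R R' : St} {a b : ℕ} (h : (comb k R R').rel a b)
    (hab : a < 2*k ∨ b < 2*k) : a < 2*k ∧ b < 2*k ∧ R.rel a b := by
  rcases h with h | h | ⟨h1, h2, _⟩
  · subst h
    have : a < 2*k := by omega
    exact ⟨this, this, R.eqv.1 _⟩
  · exact h
  · omega

theorem S1_comb_right {k : ℕ} {R R' : St} {a b : ℕ} (h : (comb k R R').rel a b)
    (hab : 2*k ≤ a ∨ 2*k ≤ b) : 2*k ≤ a ∧ 2*k ≤ b ∧ R'.rel (a - 2*k) (b - 2*k) := by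
  rcases h with h | ⟨h1, h2, _⟩ | h
  · subst h
    have : 2*k ≤ a := by omega
    exact ⟨this, this, R'.eqv.1 _⟩
  · omega
  · exact h

theorem comb_act_left {k i : ℕ} (h : i + 2 < 2*k) (R R' : St) :
    comb k (St.act i R) R' = St.act i (comb k R R') := by
  apply St.ext
  funext a b
  apply propext
  constructor
  · rintro (h1 | ⟨h1, h2, h3 | ⟨o1, o2, n1, n2, h3⟩⟩ | ⟨h1, h2, h3⟩)
    · exact Or.inl h1
    · exact Or.inl h3
    · refine Or.inr ⟨o1, o2, n1, n2, ?_⟩
      rcases h3 with h3 | ⟨h3, h4⟩ | ⟨h3, h4⟩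
      · exact Or.inl (S1_comb_l h1 h2 h3)
      · exact Or.inr (Or.inl ⟨S1_comb_l h1 (by omega) h3, S1_comb_l (by omega) h2 h4⟩)
      · exact Or.inr (Or.inr ⟨S1_comb_l h1 (by omega) h3, S1_comb_l (by omega) h2 h4⟩)
    · rcases R'.odd _ _ h3 with h4 | ⟨h4, h5⟩
      · left; omega
      · exact Or.inr ⟨by omega, by omega, by omega, by omega, Or.inl (S1_comb_r h1 h2 h3)⟩
  · rintro (h1 | ⟨o1, o2, n1, n2, h3⟩)
    · exact Or.inl h1
    · rcases h3 with h3 | ⟨h3, h4⟩ | ⟨h3, h4⟩
      · rcases h3 with h3 | ⟨h1, h2, h3⟩ | ⟨h1, h2, h3⟩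
        · exact Or.inl h3
        · exact Or.inr (Or.inl ⟨h1, h2, Or.inr ⟨o1, o2, n1, n2, Or.inl h3⟩⟩)
        · exact Or.inr (Or.inr ⟨h1, h2, h3⟩)
      · obtain ⟨k1, -, k3⟩ := S1_comb_left h3 (Or.inr (by omega))
        obtain ⟨-, k5, k6⟩ := S1_comb_left h4 (Or.inl (by omega))
        exact Or.inr (Or.inl ⟨k1, k5, Or.inr ⟨o1, o2, n1, n2, Or.inr (Or.inl ⟨k3, k6⟩)⟩⟩)
      · obtain ⟨k1, -, k3⟩ := S1_comb_left h3 (Or.inr (by omega))
        obtain ⟨-, k5, k6⟩ := S1_comb_left h4 (Or.inl (by omega))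
        exact Or.inr (Or.inl ⟨k1, k5, Or.inr ⟨o1, o2, n1, n2, Or.inr (Or.inr ⟨k3, k6⟩)⟩⟩)

theorem comb_act_right (k i : ℕ) (R R' : St) :
    comb k R (St.act i R') = St.act (i + 2*k) (comb k R R') := by
  have e0 : i + 2*k - 2*k = i := by omega
  have e2 : i + 2*k + 2 - 2*k = i + 2 := by omega
  apply St.ext
  funext a b
  apply propext
  constructor
  · rintro (h1 | ⟨h1, h2, h3⟩ | ⟨h1, h2, h3 | ⟨o1, o2, n1, n2, h3⟩⟩)
    · exact Or.inl h1
    · rcases R.odd _ _ h3 with h4 | ⟨h4, h5⟩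
      · exact Or.inl h4
      · exact Or.inr ⟨h4, h5, by omega, by omega, Or.inl (S1_comb_l h1 h2 h3)⟩
    · left; omega
    · refine Or.inr ⟨by omega, by omega, by omega, by omega, ?_⟩
      rcases h3 with h3 | ⟨h3, h4⟩ | ⟨h3, h4⟩
      · exact Or.inl (S1_comb_r h1 h2 h3)
      · refine Or.inr (Or.inl ⟨S1_comb_r h1 (by omega) ?_, S1_comb_r (by omega) h2 ?_⟩)
        · rw [e0]; exact h3
        · rw [e2]; exact h4
      · refine Or.inr (Or.inr ⟨S1_comb_r h1 (by omega) ?_, S1_comb_r (by omega) h2 ?_⟩)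
        · rw [e2]; exact h3
        · rw [e0]; exact h4
  · rintro (h1 | ⟨o1, o2, n1, n2, h3⟩)
    · exact Or.inl h1
    · rcases h3 with h3 | ⟨h3, h4⟩ | ⟨h3, h4⟩
      · rcases h3 with h3 | ⟨h1, h2, h3⟩ | ⟨h1, h2, h3⟩
        · exact Or.inl h3
        · exact Or.inr (Or.inl ⟨h1, h2, h3⟩)
        · exact Or.inr (Or.inr ⟨h1, h2, Or.inr ⟨by omega, by omega, by omega, by omega,
            Or.inl h3⟩⟩)
      · obtain ⟨k1, -, k3⟩ := S1_comb_right h3 (Or.inr (by omega))
        obtain ⟨-, k5, k6⟩ := S1_comb_right h4 (Or.inl (by omega))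
        rw [e0] at k3
        rw [e2] at k6
        exact Or.inr (Or.inr ⟨k1, k5, Or.inr ⟨by omega, by omega, by omega, by omega,
          Or.inr (Or.inl ⟨k3, k6⟩)⟩⟩)
      · obtain ⟨k1, -, k3⟩ := S1_comb_right h3 (Or.inr (by omega))
        obtain ⟨-, k5, k6⟩ := S1_comb_right h4 (Or.inl (by omega))
        rw [e2] at k3
        rw [e0] at k6
        exact Or.inr (Or.inr ⟨k1, k5, Or.inr ⟨by omega, by omega, by omega, by omega,
          Or.inr (Or.inr ⟨k3, k6⟩)⟩⟩)

theorem S1_low0 {a : ℕ} (ha : a % 2 = 1) (h1 : a ≠ 0 + 1) : St.low 0 a = a - 2 := by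
  unfold St.low
  rw [if_neg (by omega)]

theorem comb_ins_left (k : ℕ) (R R' : St) :
    comb (k+1) (St.ins 0 R) R' = St.ins 0 (comb k R R') := by
  apply St.ext
  funext a b
  apply propext
  constructor
  · rintro (h1 | ⟨h1, h2, h3 | ⟨o1, o2, n1, n2, h3⟩⟩ | ⟨h1, h2, h3⟩)
    · exact Or.inl h1
    · exact Or.inl h3
    · refine Or.inr ⟨o1, o2, n1, n2, ?_⟩
      rw [S1_low0 o1 n1, S1_low0 o2 n2] at h3 ⊢
      exact S1_comb_l (by omega) (by omega) h3
    · rcases R'.odd _ _ h3 with h4 | ⟨h4, h5⟩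
      · left; omega
      · have o1 : a % 2 = 1 := by omega
        have o2 : b % 2 = 1 := by omega
        have n1 : a ≠ 0 + 1 := by omega
        have n2 : b ≠ 0 + 1 := by omega
        refine Or.inr ⟨o1, o2, n1, n2, ?_⟩
        rw [S1_low0 o1 n1, S1_low0 o2 n2]
        refine S1_comb_r (by omega) (by omega) ?_
        have e1 : a - 2 - 2*k = a - 2*(k+1) := by omega
        have e2 : b - 2 - 2*k = b - 2*(k+1) := by omega
        rw [e1, e2]
        exact h3
  · rintro (h1 | ⟨o1, o2, n1, n2, h3⟩)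
    · exact Or.inl h1
    · have l1 := S1_low0 o1 n1
      have l2 := S1_low0 o2 n2
      rw [l1, l2] at h3
      rcases h3 with h3 | ⟨h1, h2, h3⟩ | ⟨h1, h2, h3⟩
      · left; omega
      · refine Or.inr (Or.inl ⟨by omega, by omega, Or.inr ⟨o1, o2, n1, n2, ?_⟩⟩)
        rw [l1, l2]
        exact h3
      · refine Or.inr (Or.inr ⟨by omega, by omega, ?_⟩)
        have e1 : a - 2 - 2*k = a - 2*(k+1) := by omega
        have e2 : b - 2 - 2*k = b - 2*(k+1) := by omega
        rw [← e1, ← e2]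
        exact h3

theorem S1_low2k_lt {k a : ℕ} (ha : a < 2*k) : St.low (2*k) a = a := by
  unfold St.low
  rw [if_pos (by omega)]

theorem S1_low2k_gt {k a : ℕ} (ha : 2*k < a) : St.low (2*k) a = a - 2 := by
  unfold St.low
  rw [if_neg (by omega)]

theorem comb_ins_right (k : ℕ) (R R' : St) :
    comb k R (St.ins 0 R') = St.ins (2*k) (comb k R R') := by
  apply St.ext
  funext a b
  apply propext
  constructor
  · rintro (h1 | ⟨h1, h2, h3⟩ | ⟨h1, h2, h3 | ⟨o1, o2, n1, n2, h3⟩⟩)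
    · exact Or.inl h1
    · rcases R.odd _ _ h3 with h4 | ⟨h4, h5⟩
      · exact Or.inl h4
      · refine Or.inr ⟨h4, h5, by omega, by omega, ?_⟩
        rw [S1_low2k_lt h1, S1_low2k_lt h2]
        exact S1_comb_l h1 h2 h3
    · left; omega
    · refine Or.inr ⟨by omega, by omega, by omega, by omega, ?_⟩
      rw [S1_low0 o1 n1, S1_low0 o2 n2] at h3
      rw [S1_low2k_gt (by omega), S1_low2k_gt (by omega)]
      refine S1_comb_r (by omega) (by omega) ?_
      have e1 : a - 2 - 2*k = a - 2*k - 2 := by omega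
      have e2 : b - 2 - 2*k = b - 2*k - 2 := by omega
      rw [e1, e2]
      exact h3
  · rintro (h1 | ⟨o1, o2, n1, n2, h3⟩)
    · exact Or.inl h1
    · rcases Nat.lt_or_ge a (2*k) with ha | ha
      · rw [S1_low2k_lt ha] at h3
        obtain ⟨-, k2, k3⟩ := S1_comb_left h3 (Or.inl ha)
        rcases Nat.lt_or_ge b (2*k) with hb | hb
        · rw [S1_low2k_lt hb] at k3
          exact Or.inr (Or.inl ⟨ha, hb, k3⟩)
        · rw [S1_low2k_gt (by omega)] at k2
          omega
      · rw [S1_low2k_gt (by omega)] at h3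
        obtain ⟨k1, k2, k3⟩ := S1_comb_right h3 (Or.inl (by omega))
        rcases Nat.lt_or_ge b (2*k) with hb | hb
        · rw [S1_low2k_lt hb] at k2
          omega
        · rw [S1_low2k_gt (by omega)] at k3
          have p1 : (a - 2*k) % 2 = 1 := by omega
          have p2 : (b - 2*k) % 2 = 1 := by omega
          have p3 : a - 2*k ≠ 0 + 1 := by omega
          have p4 : b - 2*k ≠ 0 + 1 := by omega
          refine Or.inr (Or.inr ⟨ha, hb, Or.inr ⟨p1, p2, p3, p4, ?_⟩⟩)
          rw [S1_low0 p1 p3, S1_low0 p2 p4]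
          have e1 : a - 2 - 2*k = a - 2*k - 2 := by omega
          have e2 : b - 2 - 2*k = b - 2*k - 2 := by omega
          rw [← e1, ← e2]
          exact k3

end Pool.Agent.H492C
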