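import Pool.Agent.H492C.Defs
import Pool.Agent.H492C.G1Poly
import Pool.Agent.H492C.S1
import Pool.Agent.H492C.P2

/-! Task G1: exchange symmetry of the glued quantity `GR` inside `A` and inside `B`. -/

set_option linter.unusedVariables false

namespace Pool.Agent.H492C

open Pool.Agent.H988R2.Perc hiding X
open Finset Polynomial

namespace G1w

theorem pairG_add_left (p r : ℕ) (f g h : St →₀ ℂ) :
    pairG p r (f + g) h = pairG p r f h + pairG p r g h := by
  classical
  unfold pairG
  rw [Finsupp.sum_add_index']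
  · intro R; simp
  · intro R b c
    rw [← Finsupp.sum_add]
    refine Finsupp.sum_congr (fun R' _ => ?_)
    ring

theorem pairG_add_right (p r : ℕ) (f g h : St →₀ ℂ) :
    pairG p r f (g + h) = pairG p r f g + pairG p r f h := by
  classical
  unfold pairG
  rw [← Finsupp.sum_add]
  refine Finsupp.sum_congr (fun R _ => ?_)
  rw [Finsupp.sum_add_index']
  · intro R; simp
  · intro R b c; ring

theorem pairG_smul_left (p r : ℕ) (c : ℂ) (f g : St →₀ ℂ) :
    pairG p r (c • f) g = c * pairG p r f g := by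
  classical
  unfold pairG
  rw [Finsupp.sum_smul_index' (fun R => by simp), Finsupp.mul_sum]
  refine Finsupp.sum_congr (fun R _ => ?_)
  rw [Finsupp.mul_sum]
  refine Finsupp.sum_congr (fun R' _ => ?_)
  simp only [smul_eq_mul]; ring

theorem pairG_smul_right (p r : ℕ) (c : ℂ) (f g : St →₀ ℂ) :
    pairG p r f (c • g) = c * pairG p r f g := by
  classical
  unfold pairG
  rw [Finsupp.mul_sum]
  refine Finsupp.sum_congr (fun R _ => ?_)
  rw [Finsupp.sum_smul_index' (fun R => by simp), Finsupp.mul_sum]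
  refine Finsupp.sum_congr (fun R' _ => ?_)
  simp only [smul_eq_mul]; ring

theorem pairG_map_left (p r : ℕ) (φ : St → St) (f g : St →₀ ℂ)
    [∀ R R' : St, Decidable (jn p r R R')] :
    pairG p r (Finsupp.mapDomain φ f) g =
      f.sum fun R a => g.sum fun R' b => a * b * (if jn p r (φ R) R' then 1 else 0) := by
  unfold pairG
  rw [Finsupp.sum_mapDomain_index]
  · refine Finsupp.sum_congr (fun R _ => ?_)
    refine Finsupp.sum_congr (fun R' _ => ?_)
    congr
  · intro R; simp
  · intro R b c
    rw [← Finsupp.sum_add]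
    refine Finsupp.sum_congr (fun R' _ => ?_)
    ring

theorem pairG_map_right (p r : ℕ) (φ : St → St) (f g : St →₀ ℂ)
    [∀ R R' : St, Decidable (jn p r R R')] :
    pairG p r f (Finsupp.mapDomain φ g) =
      f.sum fun R a => g.sum fun R' b => a * b * (if jn p r R (φ R') then 1 else 0) := by
  unfold pairG
  refine Finsupp.sum_congr (fun R _ => ?_)
  rw [Finsupp.sum_mapDomain_index]
  · refine Finsupp.sum_congr (fun R' _ => ?_)
    congr
  · intro R; simp
  · intro R b c
    ring

theorem pairG_act {p r i : ℕ} (hp : p ≠ i+1) (hr : r ≠ i+1) (f g : St →₀ ℂ) :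
    pairG p r (Finsupp.mapDomain (St.act i) f) g =
      pairG p r f (Finsupp.mapDomain (St.act i) g) := by
  classical
  rw [pairG_map_left, pairG_map_right]
  refine Finsupp.sum_congr (fun R _ => Finsupp.sum_congr (fun R' _ => ?_))
  by_cases h : jn p r (St.act i R) R'
  · rw [if_pos h, if_pos ((jn_act hp hr R R').1 h)]
  · rw [if_neg h, if_neg (fun k => h ((jn_act hp hr R R').2 k))]

end G1w

open G1w

/-- the algebra common to both symmetries -/
theorem g1_core (p r i : ℕ) (hp : p ≠ i+1) (hr : r ≠ i+1) (x y : ℂ)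
    (P P' : St →₀ ℂ) (g g' : St →₀ ℂ)
    (hP : (q * x - q^2 * y) • P' = (q * y - q^2 * x) • P +
      (y - x) • Finsupp.mapDomain (St.act i) P)
    (hg : (q * y - q^2 * x) • g' = (q * x - q^2 * y) • g +
      (x - y) • Finsupp.mapDomain (St.act i) g)
    (hxy : q * x - q^2 * y ≠ 0) (hyx : q * y - q^2 * x ≠ 0) :
    pairG p r P' g' = pairG p r P g := by
  have main : (q * y - q^2 * x) * ((q * x - q^2 * y) * pairG p r P' g') =
      (q * y - q^2 * x) * ((q * x - q^2 * y) * pairG p r P g) := by
    have s1 : (q * y - q^2 * x) * ((q * x - q^2 * y) * pairG p r P' g') =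
        pairG p r ((q * x - q^2 * y) • P') ((q * y - q^2 * x) • g') := by
      rw [pairG_smul_left, pairG_smul_right]; ring
    rw [s1, hP, hg]
    simp only [pairG_add_left, pairG_add_right, pairG_smul_left, pairG_smul_right,
      pairG_act hp hr, t17_mapDomain_act_act]
    have hq := q_spec
    linear_combination (y - x) * (x - y) * pairG p r P (Finsupp.mapDomain (St.act i) g) * hq
  exact mul_left_cancel₀ hxy (mul_left_cancel₀ hyx main)

/-- the exchange relation for inverted parameters -/
theorem g1_inv_exch (u v : List ℂ) (x y : ℂ) (h : Odd (u.length + v.length))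
    (hx : x ≠ 0) (hy : y ≠ 0) :
    (q * y - q^2 * x) • up1 (u ++ y :: x :: v) = (q * x - q^2 * y) • up1 (u ++ x :: y :: v) +
      (x - y) • Finsupp.mapDomain (St.act u.length) (up1 (u ++ x :: y :: v)) := by
  have hev' : Even ((u.map (fun x => x⁻¹)).length + ((v.map (fun x => x⁻¹)) ++ [0]).length) := by
    rw [List.length_append, List.length_map, List.length_map, List.length_singleton, ← add_assoc]
    exact Odd.add_one h
  have e2 := Psi_exch (u.map (fun x => x⁻¹)) ((v.map (fun x => x⁻¹)) ++ [0]) x⁻¹ y⁻¹ hev'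
  rw [List.length_map] at e2
  have := congrArg (fun F => (x * y) • F) e2
  simp only [smul_add, smul_smul] at this
  have k1 : x * y * (q * x⁻¹ - q^2 * y⁻¹) = q * y - q^2 * x := by field_simp
  have k2 : x * y * (q * y⁻¹ - q^2 * x⁻¹) = q * x - q^2 * y := by field_simp
  have k3 : x * y * (y⁻¹ - x⁻¹) = x - y := by field_simp
  rw [k1, k2, k3] at this
  have t1 : ∀ a b : ℂ, up1 (u ++ a :: b :: v) =
      Psi (u.map (fun x => x⁻¹) ++ a⁻¹ :: b⁻¹ :: (v.map (fun x => x⁻¹) ++ [0])) := by
    intro a b
    unfold up1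
    congr 1
    simp
  rw [t1, t1]
  exact this

theorem g1_swapA (u v B : List ℂ) (x y w : ℂ) (hA : Odd (u.length + v.length)) (hB : Odd B.length)
    (hx : x ≠ 0) (hy : y ≠ 0)
    (hxy : q * x - q^2 * y ≠ 0) (hyx : q * y - q^2 * x ≠ 0) :
    GR (u ++ y :: x :: v) w B = GR (u ++ x :: y :: v) w B := by
  obtain ⟨n, hn⟩ := hA
  obtain ⟨m, hm⟩ := hB
  have hev : Even (u.length + (v ++ w :: (B ++ [0])).length) := by
    simp only [List.length_append, List.length_cons, List.length_nil]
    exact ⟨n + m + 2, by omega⟩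
  have e1 := Psi_exch u (v ++ w :: (B ++ [0])) x y hev
  have e2 := g1_inv_exch u v x y ⟨n, hn⟩ hx hy
  have hl : ∀ a b : ℂ, (u ++ a :: b :: v).length = u.length + v.length + 2 := by
    intro a b; simp only [List.length_append, List.length_cons]; ring
  have hps : ∀ a b : ℂ, Psi ((u ++ a :: b :: v) ++ w :: (B ++ [0])) =
      Psi (u ++ a :: b :: (v ++ w :: (B ++ [0]))) := by
    intro a b; congr 1; simp
  unfold GR
  rw [hl, hl, hps, hps]
  refine g1_core _ _ u.length (by omega) (by omega) x y _ _ _ _ e1 ?_ hxy hyx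
  rw [← comb2_smul_left, e2, comb2_add_left, comb2_smul_left, comb2_smul_left,
    comb2_act_left (by omega)]

theorem g1_swapB (A u v : List ℂ) (x y w : ℂ) (hA : Odd A.length) (hB : Odd (u.length + v.length))
    (hx : x ≠ 0) (hy : y ≠ 0)
    (hxy : q * x - q^2 * y ≠ 0) (hyx : q * y - q^2 * x ≠ 0) :
    GR A w (u ++ y :: x :: v) = GR A w (u ++ x :: y :: v) := by
  obtain ⟨n, hn⟩ := hA
  obtain ⟨m, hm⟩ := hB
  have hev : Even ((A ++ w :: u).length + (v ++ [0]).length) := by
    simp only [List.length_append, List.length_cons, List.length_nil]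
    exact ⟨n + m + 2, by omega⟩
  have e1 := Psi_exch (A ++ w :: u) (v ++ [0]) x y hev
  have e2 := g1_inv_exch u v x y ⟨m, hm⟩ hx hy
  have hl : ∀ a b : ℂ, (u ++ a :: b :: v).length = u.length + v.length + 2 := by
    intro a b; simp only [List.length_append, List.length_cons]; ring
  have hps : ∀ a b : ℂ, Psi (A ++ w :: ((u ++ a :: b :: v) ++ [0])) =
      Psi ((A ++ w :: u) ++ a :: b :: (v ++ [0])) := by
    intro a b; congr 1; simp
  have hk : (A ++ w :: u).length = u.length + 2 * ((A.length + 1) / 2) := by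
    simp only [List.length_append, List.length_cons]; omega
  rw [hk] at e1
  unfold GR
  rw [hl, hl, hps, hps]
  refine g1_core _ _ (u.length + 2 * ((A.length + 1) / 2)) (by omega) (by omega) x y _ _ _ _ e1
    ?_ hxy hyx
  rw [← comb2_smul_right, e2, comb2_add_right, comb2_smul_right, comb2_smul_right,
    comb2_act_right]

/-- two polynomials agreeing outside finitely many points -/
theorem g1_ext (x : ℂ) (P Q : ℂ[X]) (h : ∀ z, z ≠ 0 → q * x - q^2 * z ≠ 0 → q * z - q^2 * x ≠ 0 →
    P.eval z = Q.eval z) : P = Q := by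
  have hq0 := q_ne_zero
  refine Polynomial.eq_of_infinite_eval_eq _ _ ?_
  have hfin : ({0, q * x / q^2, q^2 * x / q} : Set ℂ).Finite := by
    exact Set.toFinite _
  refine (hfin.infinite_compl).mono ?_
  intro z hz
  simp only [Set.mem_compl_iff, Set.mem_insert_iff, Set.mem_singleton_iff, not_or] at hz
  obtain ⟨hz0, hz1, hz2⟩ := hz
  rw [Set.mem_ofPred_eq]
  refine h z hz0 ?_ ?_
  · intro h'
    apply hz1
    rw [eq_div_iff (pow_ne_zero _ hq0)]
    linear_combination -h'
  · intro h'
    apply hz2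
    rw [eq_div_iff hq0]
    linear_combination h'

/-- `GR` is symmetric in the variables of `A` -/
theorem GR_swapA (u v B : List ℂ) (x y w : ℂ) (hA : Odd (u.length + v.length)) (hB : Odd B.length)
    (hx : x ≠ 0) (hy : y ≠ 0) (h0 : ∀ z ∈ u ++ v ++ B, z ≠ 0) :
    GR (u ++ y :: x :: v) w B = GR (u ++ x :: y :: v) w B := by
  obtain ⟨P, _, hP⟩ := g1_polyA u (x :: v) B w (by
    rw [List.length_cons, ← add_assoc]; exact hA.add_one) hB
  obtain ⟨Q, _, hQ⟩ := g1_polyA (u ++ [x]) v B w (by
    rw [List.length_append, List.length_singleton, add_right_comm]; exact hA.add_one) hB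
  have hP' : ∀ z, z ≠ 0 → P.eval z = z^(u.length + v.length + 1) * GR (u ++ z :: x :: v) w B := by
    intro z hz
    rw [hP z hz]
    congr 1
  have hQ' : ∀ z, z ≠ 0 → Q.eval z = z^(u.length + v.length + 1) * GR (u ++ x :: z :: v) w B := by
    intro z hz
    rw [hQ z hz]
    congr 1
    · congr 1
      simp only [List.length_append, List.length_cons, List.length_nil]; ring
    · congr 1; simp
  have hPQ : P = Q := by
    refine g1_ext x P Q (fun z hz h1 h2 => ?_)
    rw [hP' z hz, hQ' z hz, g1_swapA u v B x z w hA hB hx hz h1 h2]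
  have h3 := hP' y hy
  rw [hPQ, hQ' y hy] at h3
  exact (mul_left_cancel₀ (pow_ne_zero _ hy) h3).symm

/-- `GR` is symmetric in the variables of `B` -/
theorem GR_swapB (A u v : List ℂ) (x y w : ℂ) (hA : Odd A.length) (hB : Odd (u.length + v.length))
    (hx : x ≠ 0) (hy : y ≠ 0) (h0 : ∀ z ∈ A ++ u ++ v, z ≠ 0) :
    GR A w (u ++ y :: x :: v) = GR A w (u ++ x :: y :: v) := by
  obtain ⟨P, _, hP⟩ := g1_polyB A u (x :: v) w hA (by
    rw [List.length_cons, ← add_assoc]; exact hB.add_one)
  obtain ⟨Q, _, hQ⟩ := g1_polyB A (u ++ [x]) v w hA (by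
    rw [List.length_append, List.length_singleton, add_right_comm]; exact hB.add_one)
  have hP' : ∀ z, z ≠ 0 → P.eval z = z^(u.length + v.length + 1) * GR A w (u ++ z :: x :: v) := by
    intro z hz
    rw [hP z hz]
    congr 1
  have hQ' : ∀ z, z ≠ 0 → Q.eval z = z^(u.length + v.length + 1) * GR A w (u ++ x :: z :: v) := by
    intro z hz
    rw [hQ z hz]
    congr 1
    · congr 1
      simp only [List.length_append, List.length_cons, List.length_nil]; ring
    · congr 1; simp
  have hPQ : P = Q := by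
    refine g1_ext x P Q (fun z hz h1 h2 => ?_)
    rw [hP' z hz, hQ' z hz, g1_swapB A u v x z w hA hB hx hz h1 h2]
  have h3 := hP' y hy
  rw [hPQ, hQ' y hy] at h3
  exact (mul_left_cancel₀ (pow_ne_zero _ hy) h3).symm

end Pool.Agent.H492C
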