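import Pool.Agent.H492C.Defs
import Pool.Agent.H988R2.Perc.T14

/-! Task G2: inversion of the outer variables. -/

namespace Pool.Agent.H492C

open Pool.Agent.H988R2.Perc hiding X
open Finset Polynomial

private theorem g2_pair_smul_left (p r : ℕ) (c : ℂ) (f g : St →₀ ℂ) :
    pairG p r (c • f) g = c * pairG p r f g := by
  classical
  unfold pairG
  rw [Finsupp.sum_smul_index', Finsupp.mul_sum]
  · refine Finsupp.sum_congr fun R _ => ?_
    rw [Finsupp.mul_sum]
    refine Finsupp.sum_congr fun R' _ => ?_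
    rw [smul_eq_mul]; ring
  · intro R
    rw [Finsupp.sum]
    exact Finset.sum_eq_zero fun R' _ => by ring

private theorem g2_pair_smul_right (p r : ℕ) (c : ℂ) (f g : St →₀ ℂ) :
    pairG p r f (c • g) = c * pairG p r f g := by
  classical
  unfold pairG
  rw [Finsupp.mul_sum]
  refine Finsupp.sum_congr fun R _ => ?_
  rw [Finsupp.sum_smul_index', Finsupp.mul_sum]
  · refine Finsupp.sum_congr fun R' _ => ?_
    rw [smul_eq_mul]; ring
  · intro R'; ring

private theorem g2_comb2_smul_left (k : ℕ) (c : ℂ) (f g : St →₀ ℂ) :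
    comb2 k (c • f) g = c • comb2 k f g := by
  classical
  unfold comb2
  rw [Finsupp.sum_smul_index', Finsupp.smul_sum]
  · refine Finsupp.sum_congr fun R _ => ?_
    rw [Finsupp.smul_sum]
    refine Finsupp.sum_congr fun R' _ => ?_
    rw [Finsupp.smul_single, smul_eq_mul, smul_eq_mul, mul_assoc]
  · intro R
    rw [Finsupp.sum]
    exact Finset.sum_eq_zero fun R' _ => by rw [zero_mul, Finsupp.single_zero]

private theorem g2_comb2_smul_right (k : ℕ) (c : ℂ) (f g : St →₀ ℂ) :
    comb2 k f (c • g) = c • comb2 k f g := by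
  classical
  unfold comb2
  rw [Finsupp.smul_sum]
  refine Finsupp.sum_congr fun R _ => ?_
  rw [Finsupp.sum_smul_index', Finsupp.smul_sum]
  · refine Finsupp.sum_congr fun R' _ => ?_
    rw [Finsupp.smul_single, smul_eq_mul, smul_eq_mul]
    congr 1; ring
  · intro R'; rw [mul_zero, Finsupp.single_zero]

theorem Z_inv0 (x : ℂ) (u : List ℂ) (hx : x ≠ 0) (h : Even u.length) :
    Z (u ++ [x, 0]) = x^(u.length) * Z (u ++ [x⁻¹, 0]) := by
  unfold Z
  rw [Psi_inv0 x u hx h, mass_smul]

theorem GR_invA (A B : List ℂ) (x w : ℂ) (hA : Even A.length) (hB : Odd B.length) (hx : x ≠ 0) :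
    GR (x :: A) w B = x^(B.length + 1) * GR (x⁻¹ :: A) w B := by
  unfold GR up1
  have h1 : Psi ((x :: A) ++ w :: (B ++ [0])) =
      x^(A.length + B.length + 1) • Psi ((x⁻¹ :: A) ++ w :: (B ++ [0])) := by
    have hodd : Odd (A ++ w :: (B ++ [0])).length := by
      obtain ⟨a, ha⟩ := hA; obtain ⟨b, hb⟩ := hB
      exact ⟨a + b + 1, by simp; omega⟩
    have := Psi_inv1 x (A ++ w :: (B ++ [0])) hx hodd
    rw [List.cons_append, List.cons_append, this]
    congr 2
    simp; omega
  have h2 : Psi ((x :: A).map (fun x => x⁻¹) ++ [0]) =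
      (x⁻¹)^(A.length) • Psi ((x⁻¹ :: A).map (fun x => x⁻¹) ++ [0]) := by
    have hodd : Odd (A.map (fun x => x⁻¹) ++ [0]).length := by
      obtain ⟨a, ha⟩ := hA
      exact ⟨a, by simp; omega⟩
    have := Psi_inv1 x⁻¹ (A.map (fun x => x⁻¹) ++ [0]) (inv_ne_zero hx) hodd
    rw [List.map_cons, List.map_cons, List.cons_append, List.cons_append, this]
    congr 2
    simp
  rw [h1, h2, g2_pair_smul_left, g2_comb2_smul_left, g2_pair_smul_right]
  simp only [List.length_cons]
  rw [← mul_assoc]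
  congr 1
  rw [inv_pow, show A.length + B.length + 1 = (B.length + 1) + A.length by ring, pow_add]
  have : x^A.length ≠ 0 := pow_ne_zero _ hx
  field_simp

theorem GR_invB (A B : List ℂ) (x w : ℂ) (hA : Odd A.length) (hB : Even B.length) (hx : x ≠ 0) :
    GR A w (B ++ [x]) = x^(A.length + 1) * GR A w (B ++ [x⁻¹]) := by
  unfold GR up1
  have h1 : Psi (A ++ w :: ((B ++ [x]) ++ [0])) =
      x^(A.length + 1 + B.length) • Psi (A ++ w :: ((B ++ [x⁻¹]) ++ [0])) := by
    have hev : Even (A ++ w :: B).length := by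
      obtain ⟨a, ha⟩ := hA; obtain ⟨b, hb⟩ := hB
      exact ⟨a + b + 1, by simp; omega⟩
    have := Psi_inv0 x (A ++ w :: B) hx hev
    have e : ∀ y : ℂ, A ++ w :: ((B ++ [y]) ++ [0]) = (A ++ w :: B) ++ [y, 0] := by
      intro y; simp
    rw [e, e, this]
    congr 2
    simp; omega
  have h2 : Psi ((B ++ [x]).map (fun x => x⁻¹) ++ [0]) =
      (x⁻¹)^(B.length) • Psi ((B ++ [x⁻¹]).map (fun x => x⁻¹) ++ [0]) := by
    have hev : Even (B.map (fun x => x⁻¹)).length := by simpa using hB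
    have := Psi_inv0 x⁻¹ (B.map (fun x => x⁻¹)) (inv_ne_zero hx) hev
    have e : ∀ y : ℂ, (B ++ [y]).map (fun x => x⁻¹) ++ [0] =
        B.map (fun x => x⁻¹) ++ [y⁻¹, 0] := by
      intro y; simp
    rw [e, e, this]
    congr 2
    simp
  rw [h1, h2, g2_pair_smul_left, g2_comb2_smul_right, g2_pair_smul_right]
  simp only [List.length_append, List.length_cons, List.length_nil]
  rw [← mul_assoc]
  congr 1
  rw [inv_pow, pow_add x (A.length + 1)]
  have : x^B.length ≠ 0 := pow_ne_zero _ hx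
  field_simp

theorem TT_invA (A B : List ℂ) (x w : ℂ) (hA : Even A.length) (hB : Odd B.length) (hx : x ≠ 0) :
    TT (x :: A) w B = x^(B.length + 1) * TT (x⁻¹ :: A) w B := by
  unfold TT
  have h1 : Z ((x :: A) ++ w :: (B ++ [0])) =
      x^(A.length + B.length + 1) * Z ((x⁻¹ :: A) ++ w :: (B ++ [0])) := by
    have hodd : Odd (A ++ w :: (B ++ [0])).length := by
      obtain ⟨a, ha⟩ := hA; obtain ⟨b, hb⟩ := hB
      exact ⟨a + b + 1, by simp; omega⟩
    have := Z_inv x (A ++ w :: (B ++ [0])) hx hodd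
    rw [List.cons_append, List.cons_append, this]
    congr 2
    simp; omega
  have h2 : Z ((x :: A).map (fun x => x⁻¹) ++ [0]) =
      (x⁻¹)^(A.length) * Z ((x⁻¹ :: A).map (fun x => x⁻¹) ++ [0]) := by
    have hodd : Odd (A.map (fun x => x⁻¹) ++ [0]).length := by
      obtain ⟨a, ha⟩ := hA
      exact ⟨a, by simp; omega⟩
    have := Z_inv x⁻¹ (A.map (fun x => x⁻¹) ++ [0]) (inv_ne_zero hx) hodd
    rw [List.map_cons, List.map_cons, List.cons_append, List.cons_append, this]
    congr 2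
    simp
  rw [h1, h2]
  rw [inv_pow, show A.length + B.length + 1 = (B.length + 1) + A.length by ring, pow_add]
  have : x^A.length ≠ 0 := pow_ne_zero _ hx
  field_simp

theorem TT_invB (A B : List ℂ) (x w : ℂ) (hA : Odd A.length) (hB : Even B.length) (hx : x ≠ 0) :
    TT A w (B ++ [x]) = x^(A.length + 1) * TT A w (B ++ [x⁻¹]) := by
  unfold TT
  have h1 : Z (A ++ w :: ((B ++ [x]) ++ [0])) =
      x^(A.length + 1 + B.length) * Z (A ++ w :: ((B ++ [x⁻¹]) ++ [0])) := by
    have hev : Even (A ++ w :: B).length := by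
      obtain ⟨a, ha⟩ := hA; obtain ⟨b, hb⟩ := hB
      exact ⟨a + b + 1, by simp; omega⟩
    have := Z_inv0 x (A ++ w :: B) hx hev
    have e : ∀ y : ℂ, A ++ w :: ((B ++ [y]) ++ [0]) = (A ++ w :: B) ++ [y, 0] := by
      intro y; simp
    rw [e, e, this]
    congr 2
    simp; omega
  have h2 : Z ((B ++ [x]).map (fun x => x⁻¹) ++ [0]) =
      (x⁻¹)^(B.length) * Z ((B ++ [x⁻¹]).map (fun x => x⁻¹) ++ [0]) := by
    have hev : Even (B.map (fun x => x⁻¹)).length := by simpa using hB
    have := Z_inv0 x⁻¹ (B.map (fun x => x⁻¹)) (inv_ne_zero hx) hev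
    have e : ∀ y : ℂ, (B ++ [y]).map (fun x => x⁻¹) ++ [0] =
        B.map (fun x => x⁻¹) ++ [y⁻¹, 0] := by
      intro y; simp
    rw [e, e, this]
    congr 2
    simp
  rw [h1, h2]
  rw [inv_pow, pow_add x (A.length + 1)]
  have : x^B.length ≠ 0 := pow_ne_zero _ hx
  field_simp

end Pool.Agent.H492C
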