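import Pool.Agent.H492C.S1

/-! Task P1: bilinear forms. -/

namespace Pool.Agent.H492C

open Pool.Agent.H988R2.Perc hiding X
open Finset Polynomial

theorem pairG_add_left (p r : ℕ) (f g h : St →₀ ℂ) :
    pairG p r (f + g) h = pairG p r f h + pairG p r g h := by
  classical
  unfold pairG
  rw [Finsupp.sum_add_index']
  · intro R; simp
  · intro R b c
    rw [← Finsupp.sum_add]
    refine Finsupp.sum_congr (fun R' _ => ?_)
    ring

theorem pairG_add_right (p r : ℕ) (f g h : St →₀ ℂ) :
    pairG p r f (g + h) = pairG p r f g + pairG p r f h := by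
  classical
  unfold pairG
  rw [← Finsupp.sum_add]
  refine Finsupp.sum_congr (fun R _ => ?_)
  rw [Finsupp.sum_add_index']
  · intro R; simp
  · intro R b c; ring

theorem pairG_smul_left (p r : ℕ) (c : ℂ) (f g : St →₀ ℂ) :
    pairG p r (c • f) g = c * pairG p r f g := by
  classical
  unfold pairG
  rw [Finsupp.sum_smul_index' (fun R => by simp), Finsupp.mul_sum]
  refine Finsupp.sum_congr (fun R _ => ?_)
  rw [Finsupp.mul_sum]
  refine Finsupp.sum_congr (fun R' _ => ?_)
  simp only [smul_eq_mul]; ring

theorem pairG_smul_right (p r : ℕ) (c : ℂ) (f g : St →₀ ℂ) :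
    pairG p r f (c • g) = c * pairG p r f g := by
  classical
  unfold pairG
  rw [Finsupp.mul_sum]
  refine Finsupp.sum_congr (fun R _ => ?_)
  rw [Finsupp.sum_smul_index' (fun R => by simp), Finsupp.mul_sum]
  refine Finsupp.sum_congr (fun R' _ => ?_)
  simp only [smul_eq_mul]; ring

theorem P1_map_left (p r : ℕ) (φ : St → St) (f g : St →₀ ℂ)
    [∀ R R' : St, Decidable (jn p r R R')] :
    pairG p r (Finsupp.mapDomain φ f) g =
      f.sum fun R a => g.sum fun R' b => a * b * (if jn p r (φ R) R' then 1 else 0) := by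
  unfold pairG
  rw [Finsupp.sum_mapDomain_index]
  · refine Finsupp.sum_congr (fun R _ => ?_)
    refine Finsupp.sum_congr (fun R' _ => ?_)
    congr
  · intro R; simp
  · intro R b c
    rw [← Finsupp.sum_add]
    refine Finsupp.sum_congr (fun R' _ => ?_)
    ring

theorem P1_map_right (p r : ℕ) (φ : St → St) (f g : St →₀ ℂ)
    [∀ R R' : St, Decidable (jn p r R R')] :
    pairG p r f (Finsupp.mapDomain φ g) =
      f.sum fun R a => g.sum fun R' b => a * b * (if jn p r R (φ R') then 1 else 0) := by
  unfold pairG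
  refine Finsupp.sum_congr (fun R _ => ?_)
  rw [Finsupp.sum_mapDomain_index]
  · refine Finsupp.sum_congr (fun R' _ => ?_)
    congr
  · intro R; simp
  · intro R b c
    ring

theorem pairG_act {p r i : ℕ} (hp : p ≠ i+1) (hr : r ≠ i+1) (f g : St →₀ ℂ) :
    pairG p r (Finsupp.mapDomain (St.act i) f) g =
      pairG p r f (Finsupp.mapDomain (St.act i) g) := by
  classical
  rw [P1_map_left, P1_map_right]
  refine Finsupp.sum_congr (fun R _ => Finsupp.sum_congr (fun R' _ => ?_))
  by_cases h : jn p r (St.act i R) R'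
  · rw [if_pos h, if_pos ((jn_act hp hr R R').1 h)]
  · rw [if_neg h, if_neg (fun k => h ((jn_act hp hr R R').2 k))]

theorem pairG_ins {p r i : ℕ} (hi : Even i) (f g : St →₀ ℂ) :
    pairG (St.up i p) (St.up i r) (Finsupp.mapDomain (St.ins i) f)
      (Finsupp.mapDomain (St.ins i) g) = pairG p r f g := by
  classical
  rw [P1_map_left]
  have : ∀ (R : St) (a : ℂ), ((Finsupp.mapDomain (St.ins i) g).sum fun R' b =>
      a * b * (if jn (St.up i p) (St.up i r) (St.ins i R) R' then (1:ℂ) else 0)) =
      g.sum fun R' b => a * b * (if jn p r R R' then (1:ℂ) else 0) := by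
    intro R a
    rw [Finsupp.sum_mapDomain_index]
    · refine Finsupp.sum_congr (fun R' _ => ?_)
      by_cases h : jn (St.up i p) (St.up i r) (St.ins i R) (St.ins i R')
      · rw [if_pos h, if_pos ((jn_ins hi R R').1 h)]
      · rw [if_neg h, if_neg (fun k => h ((jn_ins hi R R').2 k))]
    · intro R; simp
    · intro R b c; ring
  simp only [this]
  unfold pairG
  refine Finsupp.sum_congr (fun R _ => Finsupp.sum_congr (fun R' _ => ?_))
  congr

end Pool.Agent.H492C
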