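import Pool.Agent.H492C.Defs
import Pool.Agent.H988R2.Perc.T19

/-!
Task C2 of the project CARDY: the relation (*) at one point, for polynomials in `w`
(`starA_of`, `starB_of`: the statements `starA`, `starB` with the inputs of the tasks G1 and C1 as
hypotheses).
-/

set_option linter.unusedVariables false

namespace Pool.Agent.H492C

open Pool.Agent.H988R2.Perc hiding X
open Finset Polynomial

namespace C2

def SwA : Prop := ∀ (u v B : List ℂ) (x y w : ℂ) (hA : Odd (u.length + v.length))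
    (hB : Odd B.length) (hx : x ≠ 0) (hy : y ≠ 0) (h0 : ∀ z ∈ u ++ v ++ B, z ≠ 0),
    GR (u ++ y :: x :: v) w B = GR (u ++ x :: y :: v) w B

def SwB : Prop := ∀ (A u v : List ℂ) (x y w : ℂ) (hA : Odd A.length)
    (hB : Odd (u.length + v.length)) (hx : x ≠ 0) (hy : y ≠ 0) (h0 : ∀ z ∈ A ++ u ++ v, z ≠ 0),
    GR A w (u ++ y :: x :: v) = GR A w (u ++ x :: y :: v)

def CuA : Prop := ∀ (A B : List ℂ) (u : ℂ) (hA : Even A.length) (hB : Odd B.length) (hu : u ≠ 0)
    (h0 : ∀ z ∈ A ++ B, z ≠ 0),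
    GR (A ++ [u]) (q^2 * u) B * (u^(A.length + 1 + B.length) * fac u⁻¹ (A ++ (B ++ [0]))) =
      GR (A ++ [u]) (q^2 * u⁻¹) B * fac u (A ++ (B ++ [0]))

def CuB : Prop := ∀ (A B : List ℂ) (v : ℂ) (hA : Odd A.length) (hB : Even B.length) (hv : v ≠ 0)
    (h0 : ∀ z ∈ A ++ B, z ≠ 0),
    GR A (q * v) (v :: B) * (v^(A.length + 1 + B.length) * fac (q * v⁻¹) (A ++ (B ++ [0]))) =
      GR A (q * v⁻¹) (v :: B) * fac (q * v) (A ++ (B ++ [0]))

theorem moveA (GR_swapA : SwA) (B : List ℂ) (w u : ℂ) (hB : Odd B.length) (hu : u ≠ 0) :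
    ∀ (t s : List ℂ), Even (s.length + t.length) → (∀ z ∈ s ++ t ++ B, z ≠ 0) →
      GR (s ++ u :: t) w B = GR (s ++ t ++ [u]) w B := by
  intro t
  induction t with
  | nil => intro s _ _; simp
  | cons x t ih =>
    intro s he h0
    have hx : x ≠ 0 := h0 x (by simp)
    have ho : Odd (s.length + t.length) := by
      simp only [List.length_cons] at he
      rcases Nat.even_or_odd (s.length + t.length) with h | h
      · exfalso
        have h2 : ¬ Even (s.length + t.length + 1) := by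
          rw [Nat.even_add_one]; simpa using h
        exact h2 (by rwa [← add_assoc] at he)
      · exact h
    rw [GR_swapA s t B x u w ho hB hx hu (fun z hz => h0 z (by
      simp only [List.mem_append, List.mem_cons] at hz ⊢; tauto))]
    have h1 := ih (s ++ [x]) (by
      simp only [List.length_append, List.length_cons, List.length_nil] at he ⊢
      have : s.length + (0 + 1) + t.length = s.length + (t.length + 1) := by omega
      rw [this]; exact he) (fun z hz => h0 z (by
      simp only [List.mem_append, List.mem_cons, List.mem_nil_iff, or_false] at hz ⊢; tauto))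
    simpa [List.append_assoc] using h1

theorem moveB (GR_swapB : SwB) (A : List ℂ) (w v : ℂ) (hA : Odd A.length) (hv : v ≠ 0) :
    ∀ (s t : List ℂ), Even (s.length + t.length) → (∀ z ∈ A ++ s ++ t, z ≠ 0) →
      GR A w (s ++ v :: t) = GR A w (v :: (s ++ t)) := by
  intro s
  induction s using List.reverseRecOn with
  | nil => intro t _ _; simp
  | append_singleton s x ih =>
    intro t he h0
    have hx : x ≠ 0 := h0 x (by simp)
    have ho : Odd (s.length + t.length) := by
      simp only [List.length_append, List.length_cons, List.length_nil] at he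
      rcases Nat.even_or_odd (s.length + t.length) with h | h
      · exfalso
        have h2 : ¬ Even (s.length + t.length + 1) := by
          rw [Nat.even_add_one]; simpa using h
        apply h2
        have : s.length + t.length + 1 = s.length + (0 + 1) + t.length := by omega
        rw [this]; exact he
      · exact h
    have h1 : s ++ [x] ++ v :: t = s ++ x :: v :: t := by simp
    rw [h1, ← GR_swapB A s t x v w hA ho hx hv (fun z hz => h0 z (by
      simp only [List.mem_append, List.mem_cons] at hz ⊢; tauto))]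
    have h2 := ih (x :: t) (by
      simp only [List.length_append, List.length_cons, List.length_nil] at he ⊢
      have : s.length + (0 + 1) + t.length = s.length + (t.length + 1) := by omega
      rw [← this]; exact he) (fun z hz => h0 z (by
      simp only [List.mem_append, List.mem_cons, List.mem_nil_iff, or_false] at hz ⊢; tauto))
    rw [h2]
    simp

theorem facAp (x : ℂ) (u v : List ℂ) : fac x (u ++ v) = fac x u * fac x v := by
  simp [fac]

theorem fac_z (x : ℂ) : fac x [0] = - q^2 * x := by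
  simp [fac]; ring

/-- the product at `q²u` -/
theorem prodA (u : ℂ) (hu : u ≠ 0) : ∀ l : List ℂ, (∀ z ∈ l, z ≠ 0) →
    (l.map (fun c => (q^2 * u - c) * (q^2 * u - c⁻¹))).prod * l.prod =
      u^(2 * l.length) * fac u⁻¹ l := by
  intro l
  induction l with
  | nil => intro _; simp [fac]
  | cons c l ih =>
    intro h
    have hc : c ≠ 0 := h c (by simp)
    have h1 := ih (fun z hz => h z (by simp [hz]))
    have h2 : fac u⁻¹ (c :: l) = ((u⁻¹ - q^2 * c) * (u⁻¹ * c - q^2)) * fac u⁻¹ l := by simp [fac]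
    have h3 : (q^2 * u - c) * (q^2 * u - c⁻¹) * c =
        u^2 * ((u⁻¹ - q^2 * c) * (u⁻¹ * c - q^2)) := by
      field_simp
      ring
    simp only [List.map_cons, List.prod_cons, List.length_cons]
    rw [h2]
    calc _ = ((q^2 * u - c) * (q^2 * u - c⁻¹) * c) *
          ((l.map (fun c => (q^2 * u - c) * (q^2 * u - c⁻¹))).prod * l.prod) := by ring
      _ = _ := by rw [h1, h3]; ring

/-- the product at `qv` -/
theorem prodB (v : ℂ) (hv : v ≠ 0) : ∀ l : List ℂ, (∀ z ∈ l, z ≠ 0) →
    (l.map (fun c => (q * v - c) * (q * v - c⁻¹))).prod * l.prod =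
      q^l.length * v^(2 * l.length) * fac (q * v⁻¹) l := by
  intro l
  induction l with
  | nil => intro _; simp [fac]
  | cons c l ih =>
    intro h
    have hc : c ≠ 0 := h c (by simp)
    have h1 := ih (fun z hz => h z (by simp [hz]))
    have h2 : fac (q * v⁻¹) (c :: l) =
        ((q * v⁻¹ - q^2 * c) * (q * v⁻¹ * c - q^2)) * fac (q * v⁻¹) l := by simp [fac]
    have h3 : (q * v - c) * (q * v - c⁻¹) * c =
        q * v^2 * ((q * v⁻¹ - q^2 * c) * (q * v⁻¹ * c - q^2)) := by
      have hq := q_cube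
      field_simp
      rw [hq]
      ring
    simp only [List.map_cons, List.prod_cons, List.length_cons]
    rw [h2]
    calc _ = ((q * v - c) * (q * v - c⁻¹) * c) *
          ((l.map (fun c => (q * v - c) * (q * v - c⁻¹))).prod * l.prod) := by ring
      _ = _ := by rw [h1, h3]; ring

theorem eval_Mp (l : List ℂ) (P : ℂ[X]) (w : ℂ) :
    (Mp l P).eval w = (w^2 - 1) * (l.map (fun c => (w - c) * (w - c⁻¹))).prod * P.eval w := by
  unfold Mp
  rw [eval_mul, eval_mul]
  congr 1
  congr 1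
  · simp
  · rw [← Polynomial.coe_evalRingHom, map_list_prod]
    congr 1
    rw [List.map_map]
    apply List.map_congr_left
    intro c _
    simp

theorem fac_perm (x : ℂ) {l m : List ℂ} (h : l.Perm m) : fac x l = fac x m := by
  unfold fac
  exact (h.map _).prod_eq

/-- the final computation, A side -/
theorem finA (u P1 P2 f1 f2 F1 F2 D : ℂ) (n : ℕ) (hu : u ≠ 0) (hD : D ≠ 0)
    (h : P1 * (u^n * (f1 * (- q^2 * u⁻¹))) = P2 * (f2 * (- q^2 * u)))
    (h1 : F1 * D = u^(2*n) * (((u⁻¹ - q^2 * u) * (u⁻¹ * u - q^2)) * f1))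
    (h2 : F2 * D = u⁻¹^(2*n) * (((u - q^2 * u) * (u * u - q^2)) * f2)) :
    ((q^2 * u)^2 - 1) * F1 * P1 = u^(3*n+2) * (((q^2 * u⁻¹)^2 - 1) * F2 * P2) := by
  have hq := q_cube
  have hq0 := q_ne_zero
  have hs : ((q^2 * u)^2 - 1) * ((u⁻¹ - q^2 * u) * (u⁻¹ * u - q^2)) =
      ((q^2 * u⁻¹)^2 - 1) * ((u - q^2 * u) * (u * u - q^2)) := by
    rw [inv_mul_cancel₀ hu]
    have hu2 : u⁻¹ * u = 1 := inv_mul_cancel₀ hu
    field_simp
    linear_combination (1 - q^2) * (1 - u^4) * (q^3 + 1) * hq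
  have h' : P1 * (u^n * f1) = P2 * f2 * u^2 := by
    have h3 : (- q^2) * u⁻¹ * (P1 * (u^n * f1)) = (- q^2) * u⁻¹ * (P2 * f2 * u^2) := by
      have : (- q^2) * u⁻¹ * (P2 * f2 * u^2) = P2 * (f2 * (- q^2 * u)) := by
        field_simp
      rw [this, ← h]
      ring
    have h4 : (- q^2) * u⁻¹ ≠ 0 := mul_ne_zero (neg_ne_zero.2 (pow_ne_zero _ hq0)) (inv_ne_zero hu)
    exact mul_left_cancel₀ h4 h3
  apply mul_right_cancel₀ hD
  have hp : u^(3*n+2) * u⁻¹^(2*n) = u^(n+2) := by
    rw [inv_pow]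
    have : u^(3*n+2) = u^(n+2) * u^(2*n) := by rw [← pow_add]; congr 1; ring
    rw [this, mul_assoc, mul_inv_cancel₀ (pow_ne_zero _ hu), mul_one]
  calc ((q^2 * u)^2 - 1) * F1 * P1 * D = ((q^2 * u)^2 - 1) * P1 * (F1 * D) := by ring
    _ = (((q^2 * u)^2 - 1) * ((u⁻¹ - q^2 * u) * (u⁻¹ * u - q^2))) * u^n *
        (P1 * (u^n * f1)) := by rw [h1]; ring
    _ = ((q^2 * u⁻¹)^2 - 1) * ((u - q^2 * u) * (u * u - q^2)) * u^(n+2) * f2 * P2 := by
        rw [h', hs]; ring
    _ = ((q^2 * u⁻¹)^2 - 1) * ((u - q^2 * u) * (u * u - q^2)) * (u^(3*n+2) * u⁻¹^(2*n)) *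
        f2 * P2 := by rw [hp]
    _ = u^(3*n+2) * (((q^2 * u⁻¹)^2 - 1) * P2) * (F2 * D) := by rw [h2]; ring
    _ = _ := by ring

/-- the final computation, B side -/
theorem finB (v P1 P2 f1 f2 F1 F2 D : ℂ) (n : ℕ) (hv : v ≠ 0) (hD : D ≠ 0)
    (h : P1 * (v^n * (f1 * (- q^2 * (q * v⁻¹)))) = P2 * (f2 * (- q^2 * (q * v))))
    (h1 : F1 * D = q^n * v^(2*n) * (((q * v⁻¹ - q^2 * v) * (q * v⁻¹ * v - q^2)) * f1))
    (h2 : F2 * D = q^n * v⁻¹^(2*n) * (((q * v - q^2 * v) * (q * v * v - q^2)) * f2)) :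
    ((q * v)^2 - 1) * F1 * P1 = v^(3*n+2) * (((q * v⁻¹)^2 - 1) * F2 * P2) := by
  have hq := q_cube
  have hq0 := q_ne_zero
  have hs : ((q * v)^2 - 1) * ((q * v⁻¹ - q^2 * v) * (q * v⁻¹ * v - q^2)) =
      ((q * v⁻¹)^2 - 1) * ((q * v - q^2 * v) * (q * v * v - q^2)) := by
    field_simp
    linear_combination (1 - q) * (1 - v^4) * hq
  have h' : P1 * (v^n * f1) = P2 * f2 * v^2 := by
    have h3 : (- q^2) * (q * v⁻¹) * (P1 * (v^n * f1)) = (- q^2) * (q * v⁻¹) * (P2 * f2 * v^2) := by
      have : (- q^2) * (q * v⁻¹) * (P2 * f2 * v^2) = P2 * (f2 * (- q^2 * (q * v))) := by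
        field_simp
      rw [this, ← h]
      ring
    have h4 : (- q^2) * (q * v⁻¹) ≠ 0 :=
      mul_ne_zero (neg_ne_zero.2 (pow_ne_zero _ hq0)) (mul_ne_zero hq0 (inv_ne_zero hv))
    exact mul_left_cancel₀ h4 h3
  apply mul_right_cancel₀ hD
  have hp : v^(3*n+2) * v⁻¹^(2*n) = v^(n+2) := by
    rw [inv_pow]
    have : v^(3*n+2) = v^(n+2) * v^(2*n) := by rw [← pow_add]; congr 1; ring
    rw [this, mul_assoc, mul_inv_cancel₀ (pow_ne_zero _ hv), mul_one]
  calc ((q * v)^2 - 1) * F1 * P1 * D = ((q * v)^2 - 1) * P1 * (F1 * D) := by ring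
    _ = (((q * v)^2 - 1) * ((q * v⁻¹ - q^2 * v) * (q * v⁻¹ * v - q^2))) * q^n * v^n *
        (P1 * (v^n * f1)) := by rw [h1]; ring
    _ = ((q * v⁻¹)^2 - 1) * ((q * v - q^2 * v) * (q * v * v - q^2)) * q^n * v^(n+2) * f2 * P2 := by
        rw [h', hs]; ring
    _ = ((q * v⁻¹)^2 - 1) * ((q * v - q^2 * v) * (q * v * v - q^2)) * q^n *
        (v^(3*n+2) * v⁻¹^(2*n)) * f2 * P2 := by rw [hp]
    _ = v^(3*n+2) * (((q * v⁻¹)^2 - 1) * P2) * (F2 * D) := by rw [h2]; ring
    _ = _ := by ring

end C2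

theorem starA_of (GR_swapA : C2.SwA) (cupA : C2.CuA) (A B : List ℂ) (u : ℂ) (hA : Odd A.length) (hB : Odd B.length) (hu : u ∈ A)
    (h0 : ∀ z ∈ A ++ B, z ≠ 0) (P : ℂ[X]) (hP : ∀ w, GR A w B = P.eval w)
    (hg : fac u (A.erase u ++ B) ≠ 0) :
    (Mp (A ++ B) P).eval (q^2 * u) =
      u^(3 * (A.length + B.length) + 2) * (Mp (A ++ B) P).eval (q^2 * u⁻¹) := by
  have hu0 : u ≠ 0 := h0 u (by simp [hu])
  obtain ⟨s, t, _, hst, her⟩ := List.exists_erase_eq hu
  have hlen : A.length = s.length + t.length + 1 := by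
    rw [hst]; simp only [List.length_append, List.length_cons]; omega
  have hev : Even (s.length + t.length) := by
    rw [hlen] at hA
    by_contra h
    rw [Nat.not_even_iff_odd] at h
    exact (Nat.not_even_iff_odd.2 hA) h.add_one
  have h0' : ∀ z ∈ s ++ t ++ B, z ≠ 0 := by
    intro z hz
    apply h0
    rw [hst]
    simp only [List.mem_append, List.mem_cons] at hz ⊢
    tauto
  have hGR : ∀ w, GR (s ++ t ++ [u]) w B = P.eval w := by
    intro w
    rw [← C2.moveA GR_swapA B w u hB hu0 t s hev h0', ← hst, hP]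
  have hc := cupA (s ++ t) B u (by rw [List.length_append]; exact hev) hB hu0
    (fun z hz => h0' z hz)
  rw [hGR, hGR] at hc
  have hperm : (A ++ B).Perm (u :: (s ++ t ++ B)) := by
    rw [hst]
    have : (s ++ u :: t).Perm (u :: (s ++ t)) := List.perm_middle
    exact (this.append_right B)
  have hn : (A ++ B).length = A.length + B.length := List.length_append
  have hfa : ∀ x : ℂ, fac x (A ++ B) = ((x - q^2 * u) * (x * u - q^2)) * fac x (s ++ t ++ B) := by
    intro x
    rw [C2.fac_perm x hperm]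
    simp [fac]
  have hD : (A ++ B).prod ≠ 0 := by
    apply List.prod_ne_zero
    intro h
    exact h0 0 h rfl
  have hfz : ∀ x : ℂ, fac x (s ++ t ++ (B ++ [0])) = fac x (s ++ t ++ B) * (- q^2 * x) := by
    intro x
    rw [← List.append_assoc, C2.facAp, C2.fac_z]
  have hnn : (s ++ t).length + 1 + B.length = A.length + B.length := by
    rw [hlen, List.length_append]
  rw [hfz, hfz, hnn] at hc
  have p1 := C2.prodA u hu0 (A ++ B) h0
  have p2 := C2.prodA u⁻¹ (inv_ne_zero hu0) (A ++ B) h0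
  rw [inv_inv, hfa, hn] at p2
  rw [hfa, hn] at p1
  rw [C2.eval_Mp, C2.eval_Mp]
  exact C2.finA u _ _ _ _ _ _ _ (A.length + B.length) hu0 hD hc p1 p2

theorem starB_of (GR_swapB : C2.SwB) (cupB : C2.CuB) (A B : List ℂ) (v : ℂ) (hA : Odd A.length) (hB : Odd B.length) (hv : v ∈ B)
    (h0 : ∀ z ∈ A ++ B, z ≠ 0) (P : ℂ[X]) (hP : ∀ w, GR A w B = P.eval w)
    (hg : fac (q * v) (A ++ B.erase v) ≠ 0) :
    (Mp (A ++ B) P).eval (q * v) =
      v^(3 * (A.length + B.length) + 2) * (Mp (A ++ B) P).eval (q * v⁻¹) := by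
  have hv0 : v ≠ 0 := h0 v (by simp [hv])
  obtain ⟨s, t, _, hst, her⟩ := List.exists_erase_eq hv
  have hlen : B.length = s.length + t.length + 1 := by
    rw [hst]; simp only [List.length_append, List.length_cons]; omega
  have hev : Even (s.length + t.length) := by
    rw [hlen] at hB
    by_contra h
    rw [Nat.not_even_iff_odd] at h
    exact (Nat.not_even_iff_odd.2 hB) h.add_one
  have h0' : ∀ z ∈ A ++ s ++ t, z ≠ 0 := by
    intro z hz
    apply h0
    rw [hst]
    simp only [List.mem_append, List.mem_cons] at hz ⊢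
    tauto
  have hGR : ∀ w, GR A w (v :: (s ++ t)) = P.eval w := by
    intro w
    rw [← C2.moveB GR_swapB A w v hA hv0 s t hev h0', ← hst, hP]
  have hc := cupB A (s ++ t) v hA (by rw [List.length_append]; exact hev) hv0
    (fun z hz => h0' z (by rw [← List.append_assoc] at hz; exact hz))
  rw [hGR, hGR] at hc
  have hperm : (A ++ B).Perm (v :: (A ++ (s ++ t))) := by
    rw [hst]
    have : (s ++ v :: t).Perm (v :: (s ++ t)) := List.perm_middle
    exact (this.append_left A).trans List.perm_middle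
  have hn : (A ++ B).length = A.length + B.length := List.length_append
  have hfa : ∀ x : ℂ, fac x (A ++ B) =
      ((x - q^2 * v) * (x * v - q^2)) * fac x (A ++ (s ++ t)) := by
    intro x
    rw [C2.fac_perm x hperm]
    simp [fac]
  have hD : (A ++ B).prod ≠ 0 := by
    apply List.prod_ne_zero
    intro h
    exact h0 0 h rfl
  have hfz : ∀ x : ℂ, fac x (A ++ (s ++ t ++ [0])) = fac x (A ++ (s ++ t)) * (- q^2 * x) := by
    intro x
    rw [← List.append_assoc, C2.facAp, C2.fac_z]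
  have hnn : A.length + 1 + (s ++ t).length = A.length + B.length := by
    rw [hlen, List.length_append]; omega
  rw [hfz, hfz, hnn] at hc
  have p1 := C2.prodB v hv0 (A ++ B) h0
  have p2 := C2.prodB v⁻¹ (inv_ne_zero hv0) (A ++ B) h0
  rw [inv_inv, hfa, hn] at p2
  rw [hfa, hn] at p1
  rw [C2.eval_Mp, C2.eval_Mp]
  exact C2.finB v _ _ _ _ _ _ _ (A.length + B.length) hv0 hD hc p1 p2

end Pool.Agent.H492C
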