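import Pool.Agent.H492C.Defs
import Pool.Agent.H988R2.Perc.T17

/-! task G4: polynomiality of `GR` in one variable (helper28) -/

namespace Pool.Agent.H492C

open Pool.Agent.H988R2.Perc hiding X
open Finset Polynomial

open Classical in
/-- indicator -/
noncomputable def g4c (p r k : ℕ) (R R1 R2 : St) : ℂ := if jn p r R (comb k R1 R2) then 1 else 0

theorem g4_tri (p r k : ℕ) (f g h : St →₀ ℂ) {S S1 S2 : Finset St} (hf : f.support ⊆ S)
    (hg : g.support ⊆ S1) (hh : h.support ⊆ S2) :
    pairG p r f (comb2 k g h) =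
      ∑ R ∈ S, ∑ R1 ∈ S1, ∑ R2 ∈ S2, f R * g R1 * h R2 * g4c p r k R R1 R2 := by
  classical
  unfold pairG comb2
  rw [Finsupp.sum_of_support_subset f hf]
  · refine Finset.sum_congr rfl (fun R _ => ?_)
    rw [Finsupp.sum_sum_index (by intro R'; simp) (by intro R' b1 b2; ring)]
    rw [Finsupp.sum_of_support_subset g hg]
    · refine Finset.sum_congr rfl (fun R1 _ => ?_)
      rw [Finsupp.sum_sum_index (by intro R'; simp) (by intro R' b1 b2; ring)]
      rw [Finsupp.sum_of_support_subset h hh]
      · refine Finset.sum_congr rfl (fun R2 _ => ?_)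
        rw [Finsupp.sum_single_index (by simp)]
        unfold g4c
        congr 1
        ring
      · intro R2 _
        rw [Finsupp.sum_single_index (by simp)]
        ring
    · intro R1 _
      simp
  · intro R _; simp

theorem g4_isol {p r : ℕ} (h : p ≠ r) (R R' : St) (h1 : ∀ x, R.rel x r → x = r)
    (h2 : ∀ x, R'.rel x r → x = r) : ¬ jn p r R R' := by
  intro hj
  have key : ∀ a b : ℕ, Relation.EqvGen (fun a b => R.rel a b ∨ R'.rel a b) a b → (a = r ↔ b = r) := by
    intro a b hab
    induction hab with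
    | rel x y hxy =>
      constructor
      · intro hx
        subst hx
        rcases hxy with h | h
        · exact h1 _ (R.eqv.symm h)
        · exact h2 _ (R'.eqv.symm h)
      · intro hy
        subst hy
        rcases hxy with h | h
        · exact h1 _ h
        · exact h2 _ h
    | refl x => exact Iff.rfl
    | symm x y _ ih => exact ih.symm
    | trans x y z _ _ ih1 ih2 => exact ih1.trans ih2
  exact h ((key p r hj).2 rfl)

/-- main polynomial lemma: three families of vectors with polynomial coefficients -/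
theorem g4_poly (p r k : ℕ) {d1 d2 d3 : ℕ} {f g h : ℂ → St →₀ ℂ} {S : Finset St}
    (hf : ∀ t, (f t).support ⊆ S) (hg : ∀ t, (g t).support ⊆ S) (hh : ∀ t, (h t).support ⊆ S)
    (pf : ∀ R, ∃ P : ℂ[X], P.natDegree ≤ d1 ∧ ∀ t, f t R = P.eval t)
    (pg : ∀ R, ∃ P : ℂ[X], P.natDegree ≤ d2 ∧ ∀ t, g t R = P.eval t)
    (ph : ∀ R, ∃ P : ℂ[X], P.natDegree ≤ d3 ∧ ∀ t, h t R = P.eval t) :
    ∃ P : ℂ[X], P.natDegree ≤ d1 + d2 + d3 ∧ ∀ t, pairG p r (f t) (comb2 k (g t) (h t)) = P.eval t := by
  choose F hF1 hF2 using pf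
  choose G hG1 hG2 using pg
  choose H hH1 hH2 using ph
  refine ⟨∑ R ∈ S, ∑ R1 ∈ S, ∑ R2 ∈ S, F R * G R1 * H R2 * C (g4c p r k R R1 R2), ?_, ?_⟩
  · refine Polynomial.natDegree_sum_le_of_forall_le _ _ (fun R _ => ?_)
    refine Polynomial.natDegree_sum_le_of_forall_le _ _ (fun R1 _ => ?_)
    refine Polynomial.natDegree_sum_le_of_forall_le _ _ (fun R2 _ => ?_)
    refine (Polynomial.natDegree_mul_C_le _ _).trans ?_
    refine (Polynomial.natDegree_mul_le).trans ?_
    have e1 := (Polynomial.natDegree_mul_le (p := F R) (q := G R1))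
    have := hF1 R
    have := hG1 R1
    have := hH1 R2
    omega
  · intro t
    rw [g4_tri p r k _ _ _ (hf t) (hg t) (hh t), Polynomial.eval_finsetSum]
    refine Finset.sum_congr rfl (fun R _ => ?_)
    rw [Polynomial.eval_finsetSum]
    refine Finset.sum_congr rfl (fun R1 _ => ?_)
    rw [Polynomial.eval_finsetSum]
    refine Finset.sum_congr rfl (fun R2 _ => ?_)
    rw [eval_mul, eval_mul, eval_mul, eval_C, hF2, hG2, hH2]

/-- finite support for a family of `Psi` vectors -/
theorem g4_supp (N M K : ℕ) : ∃ S : Finset St, (∀ l : List ℂ, l.length = N → (Psi l).support ⊆ S) ∧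
    (∀ l : List ℂ, l.length = M → (Psi l).support ⊆ S) ∧
    (∀ l : List ℂ, l.length = K → (Psi l).support ⊆ S) := by
  classical
  obtain ⟨S1, h1⟩ := t17_supp N
  obtain ⟨S2, h2⟩ := t17_supp M
  obtain ⟨S3, h3⟩ := t17_supp K
  refine ⟨S1 ∪ S2 ∪ S3, fun l hl => (h1 l hl).trans ?_, fun l hl => (h2 l hl).trans ?_,
    fun l hl => (h3 l hl).trans ?_⟩
  · exact (subset_union_left).trans subset_union_left
  · exact (subset_union_right).trans subset_union_left
  · exact subset_union_right

theorem g4_pd (u v : List ℂ) (h : Even (u.length + v.length + 1)) (R : St) :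
    ∃ P : ℂ[X], P.natDegree ≤ u.length + v.length - 1 ∧ ∀ t, Psi (u ++ t :: v) R = P.eval t := by
  have := (Psi_pd (u.length + v.length + 1) h R).univ u v rfl
  obtain ⟨P, hP, hP'⟩ := this
  exact ⟨P, by omega, hP'⟩

theorem g4_const (f : St →₀ ℂ) (R : St) : ∃ P : ℂ[X], P.natDegree ≤ 0 ∧ ∀ t : ℂ, f R = P.eval t :=
  ⟨C (f R), by simp, fun t => by simp⟩

theorem GR_poly_w (A B : List ℂ) (hA : Odd A.length) (hB : Odd B.length) :
    ∃ P : ℂ[X], P.natDegree ≤ A.length + B.length ∧ ∀ w, GR A w B = P.eval w := by
  obtain ⟨S, h1, h2, h3⟩ := g4_supp (A.length + (B.length + 2)) (A.length + 1) (B.length + 1)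
  obtain ⟨P, hP, hP'⟩ := g4_poly A.length (A.length + 1 + B.length) ((A.length + 1) / 2)
    (f := fun w => Psi (A ++ w :: (B ++ [0]))) (g := fun _ => up1 A) (h := fun _ => up1 B) (S := S)
    (d1 := A.length + B.length) (d2 := 0) (d3 := 0)
    (fun t => h1 _ (by simp)) (fun _ => h2 _ (by simp)) (fun _ => h3 _ (by simp))
    (fun R => by
      obtain ⟨P, hP, hP'⟩ := g4_pd A (B ++ [0]) (by
        rw [List.length_append, List.length_singleton]
        have := hA.add_odd hB
        have h2 : A.length + (B.length + 1) + 1 = (A.length + B.length) + 2 := by ring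
        rw [h2]; exact this.add (by decide)) R
      exact ⟨P, by rw [List.length_append, List.length_singleton] at hP; omega, hP'⟩)
    (fun R => g4_const _ R) (fun R => g4_const _ R)
  exact ⟨P, by omega, fun w => hP' w⟩

theorem g4_smul_left (k : ℕ) (c : ℂ) (f g : St →₀ ℂ) :
    comb2 k (c • f) g = c • comb2 k f g := by
  unfold comb2
  rw [Finsupp.sum_smul_index' (fun R => by simp), Finsupp.smul_sum]
  refine Finsupp.sum_congr (fun R _ => ?_)
  rw [Finsupp.smul_sum]
  refine Finsupp.sum_congr (fun R' _ => ?_)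
  rw [Finsupp.smul_single, smul_eq_mul, smul_eq_mul, mul_assoc]

theorem g4_smul_right (k : ℕ) (c : ℂ) (f g : St →₀ ℂ) :
    comb2 k f (c • g) = c • comb2 k f g := by
  unfold comb2
  rw [Finsupp.smul_sum]
  refine Finsupp.sum_congr (fun R _ => ?_)
  rw [Finsupp.sum_smul_index' (fun R => by simp), Finsupp.smul_sum]
  refine Finsupp.sum_congr (fun R' _ => ?_)
  rw [Finsupp.smul_single, smul_eq_mul, smul_eq_mul]
  congr 1
  ring

theorem g4_pair_smul (p r : ℕ) (c : ℂ) (f g : St →₀ ℂ) :
    pairG p r f (c • g) = c * pairG p r f g := by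
  classical
  unfold pairG
  rw [Finsupp.mul_sum]
  refine Finsupp.sum_congr (fun R _ => ?_)
  rw [Finsupp.sum_smul_index' (fun R => by simp), Finsupp.mul_sum]
  refine Finsupp.sum_congr (fun R' _ => ?_)
  simp only [smul_eq_mul]; ring

theorem GR_poly_A (A B : List ℂ) (w : ℂ) (hA : Even A.length) (hB : Odd B.length)  :
    ∃ P : ℂ[X], P.natDegree ≤ 2 * A.length + 1 + B.length ∧
      ∀ t, t ≠ 0 → P.eval t = t^A.length * GR (t :: A) w B := by
  obtain ⟨S, h1, h2, h3⟩ := g4_supp (A.length + (B.length + 2) + 1) (A.length + 1 + 1) (B.length + 1)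
  obtain ⟨P, hP, hP'⟩ := g4_poly (A.length + 1) (A.length + 1 + 1 + B.length) ((A.length + 1 + 1) / 2)
    (f := fun t => Psi (t :: (A ++ w :: (B ++ [0]))))
    (g := fun t => Psi (t :: (A.map (fun x => x⁻¹) ++ [0]))) (h := fun _ => up1 B) (S := S)
    (d1 := A.length + B.length + 1) (d2 := A.length) (d3 := 0)
    (fun t => h1 _ (by simp)) (fun _ => h2 _ (by simp)) (fun _ => h3 _ (by simp))
    (fun R => by
      obtain ⟨P, hP, hP'⟩ := g4_pd [] (A ++ w :: (B ++ [0])) (by
        simp only [List.length_append, List.length_nil, List.length_cons]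
        obtain ⟨a, ha⟩ := hA
        obtain ⟨b, hb⟩ := hB
        exact ⟨a + b + 2, by omega⟩) R
      refine ⟨P, ?_, hP'⟩
      simp only [List.length_append, List.length_nil, List.length_cons] at hP
      omega)
    (fun R => by
      obtain ⟨P, hP, hP'⟩ := g4_pd [] (A.map (fun x => x⁻¹) ++ [0]) (by
        simp only [List.length_append, List.length_nil, List.length_cons, List.length_map]
        obtain ⟨a, ha⟩ := hA
        exact ⟨a + 1, by omega⟩) R
      refine ⟨P, ?_, hP'⟩
      simp only [List.length_append, List.length_nil, List.length_cons, List.length_map] at hP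
      omega)
    (fun R => g4_const _ R)
  refine ⟨P, by omega, fun t ht => ?_⟩
  rw [← hP' t]
  have e := Psi_inv1 t (A.map (fun x => x⁻¹) ++ [0]) ht (by
    simp only [List.length_append, List.length_map, List.length_singleton]
    exact hA.add_one)
  simp only [List.length_append, List.length_map, List.length_singleton, Nat.add_sub_cancel] at e
  rw [e, g4_smul_left, g4_pair_smul]
  unfold GR up1
  simp only [List.length_cons, List.map_cons, List.cons_append]

theorem GR_poly_B (A B : List ℂ) (w : ℂ) (hA : Odd A.length) (hB : Even B.length)  :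
    ∃ P : ℂ[X], P.natDegree ≤ 2 * B.length + 1 + A.length ∧
      (∀ t, t ≠ 0 → P.eval t = t^B.length * GR A w (B ++ [t])) ∧ P.eval 0 = 0 := by
  obtain ⟨S, h1, h2, h3⟩ := g4_supp (A.length + (B.length + 2) + 1) (A.length + 1) (B.length + 2)
  obtain ⟨P, hP, hP'⟩ := g4_poly A.length (A.length + 1 + (B.length + 1)) ((A.length + 1) / 2)
    (f := fun t => Psi ((A ++ w :: B) ++ t :: [0]))
    (g := fun _ => up1 A)
    (h := fun t => Psi (B.map (fun x => x⁻¹) ++ t :: [0])) (S := S)
    (d1 := A.length + B.length + 1) (d2 := 0) (d3 := B.length)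
    (fun t => h1 _ (by simp; ring)) (fun _ => h2 _ (by simp)) (fun _ => h3 _ (by simp))
    (fun R => by
      obtain ⟨P, hP, hP'⟩ := g4_pd (A ++ w :: B) [0] (by
        simp only [List.length_append, List.length_nil, List.length_cons]
        obtain ⟨a, ha⟩ := hA
        obtain ⟨b, hb⟩ := hB
        exact ⟨a + b + 2, by omega⟩) R
      refine ⟨P, ?_, hP'⟩
      simp only [List.length_append, List.length_nil, List.length_cons] at hP
      omega)
    (fun R => g4_const _ R)
    (fun R => by
      obtain ⟨P, hP, hP'⟩ := g4_pd (B.map (fun x => x⁻¹)) [0] (by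
        simp only [List.length_nil, List.length_cons, List.length_map]
        obtain ⟨a, ha⟩ := hB
        exact ⟨a + 1, by omega⟩) R
      refine ⟨P, ?_, hP'⟩
      simp only [List.length_nil, List.length_cons, List.length_map] at hP
      omega)
  refine ⟨P, by omega, fun t ht => ?_, ?_⟩
  · rw [← hP' t]
    have e := Psi_inv0 t (B.map (fun x => x⁻¹)) ht (by
      rw [List.length_map]; exact hB)
    rw [List.length_map] at e
    rw [e, g4_smul_right, g4_pair_smul]
    unfold GR up1
    simp only [List.length_append, List.length_cons, List.length_nil, List.map_append, List.map_cons,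
      List.map_nil, List.append_assoc, List.cons_append, List.nil_append]
  · rw [← hP' 0]
    have r1 := Psi_rec (A ++ w :: B) [] 0 (by
      simp only [List.length_append, List.length_nil, List.length_cons]
      obtain ⟨a, ha⟩ := hA
      obtain ⟨b, hb⟩ := hB
      exact ⟨a + b + 1, by omega⟩)
    have r2 := Psi_rec (B.map (fun x => x⁻¹)) [] 0 (by
      simp only [List.length_nil, List.length_map]
      exact hB)
    rw [mul_zero, List.append_nil] at r1 r2
    rw [r1, r2]
    classical
    rw [g4_tri A.length (A.length + 1 + (B.length + 1)) ((A.length + 1) / 2) _ _ _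
      (subset_refl _) (subset_refl _) (subset_refl _)]
    refine Finset.sum_eq_zero (fun R hR => Finset.sum_eq_zero (fun R1 _ => Finset.sum_eq_zero
      (fun R2 hR2 => ?_)))
    have hR' : ∃ T : St, R = St.ins (A ++ w :: B).length T := by
      have := Finsupp.support_smul hR
      have := Finsupp.mapDomain_support this
      rw [Finset.mem_image] at this
      obtain ⟨T, _, hT⟩ := this
      exact ⟨T, hT.symm⟩
    have hR2' : ∃ T : St, R2 = St.ins (B.map (fun x => x⁻¹)).length T := by
      have := Finsupp.support_smul hR2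
      have := Finsupp.mapDomain_support this
      rw [Finset.mem_image] at this
      obtain ⟨T, _, hT⟩ := this
      exact ⟨T, hT.symm⟩
    obtain ⟨T, rfl⟩ := hR'
    obtain ⟨T2, rfl⟩ := hR2'
    have hz : g4c A.length (A.length + 1 + (B.length + 1)) ((A.length + 1) / 2)
        (St.ins (A ++ w :: B).length T) R1 (St.ins (B.map (fun x => x⁻¹)).length T2) = 0 := by
      unfold g4c
      rw [if_neg]
      obtain ⟨a, ha⟩ := hA
      have hk : (A.length + 1) / 2 = a + 1 := by omega
      rw [hk]
      refine g4_isol (by omega) _ _ ?_ ?_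
      · intro x hx
        have hx' : x = A.length + 1 + (B.length + 1) ∨ (x % 2 = 1 ∧
          (A.length + 1 + (B.length + 1)) % 2 = 1 ∧ x ≠ (A ++ w :: B).length + 1 ∧
          A.length + 1 + (B.length + 1) ≠ (A ++ w :: B).length + 1 ∧ _) := hx
        rcases hx' with h | ⟨_, _, _, h, _⟩
        · exact h
        · exfalso
          apply h
          simp only [List.length_append, List.length_cons]
          ring
      · intro x hx
        have hx' : x = A.length + 1 + (B.length + 1) ∨
          (x < 2 * (a + 1) ∧ A.length + 1 + (B.length + 1) < 2 * (a + 1) ∧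
            R1.rel x (A.length + 1 + (B.length + 1))) ∨
          (2 * (a + 1) ≤ x ∧ 2 * (a + 1) ≤ A.length + 1 + (B.length + 1) ∧
            (St.ins (B.map (fun x => x⁻¹)).length T2).rel (x - 2 * (a + 1))
              (A.length + 1 + (B.length + 1) - 2 * (a + 1))) := hx
        rcases hx' with h | ⟨_, h, _⟩ | ⟨h1, h2, h⟩
        · exact h
        · omega
        · have h' : x - 2 * (a + 1) = A.length + 1 + (B.length + 1) - 2 * (a + 1) ∨
            ((x - 2 * (a + 1)) % 2 = 1 ∧ (A.length + 1 + (B.length + 1) - 2 * (a + 1)) % 2 = 1 ∧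
              x - 2 * (a + 1) ≠ (B.map (fun x => x⁻¹)).length + 1 ∧
              A.length + 1 + (B.length + 1) - 2 * (a + 1) ≠ (B.map (fun x => x⁻¹)).length + 1 ∧ _) := h
          rcases h' with h | ⟨_, _, _, h, _⟩
          · omega
          · exfalso
            apply h
            rw [List.length_map]
            omega
    rw [hz, mul_zero]

end Pool.Agent.H492C
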