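import Pool.Agent.H492C.Defs
import Pool.Agent.H988R2.Perc.T14

/-! Task G6: the total mass. -/

namespace Pool.Agent.H492C

open Pool.Agent.H988R2.Perc hiding X
open Finset Polynomial

theorem TT_perm {A A' B B' : List ℂ} (w : ℂ) (hA : Odd A.length) (hB : Odd B.length)
    (hp : A.Perm A') (hp' : B.Perm B') : TT A w B = TT A' w B' := by
  unfold TT
  have e1 : Even (A.map (fun x => x⁻¹) ++ [0]).length := by
    rw [List.length_append, List.length_map, List.length_singleton]
    exact hA.add_one
  have e2 : Even (B.map (fun x => x⁻¹) ++ [0]).length := by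
    rw [List.length_append, List.length_map, List.length_singleton]
    exact hB.add_one
  have e3 : Even (A ++ w :: (B ++ [0])).length := by
    rw [List.length_append, List.length_cons, List.length_append, List.length_singleton]
    obtain ⟨a, ha⟩ := hA
    obtain ⟨b, hb⟩ := hB
    exact ⟨a + b + 2, by omega⟩
  rw [Z_perm e1 ((hp.map _).append_right _), Z_perm e2 ((hp'.map _).append_right _),
    Z_perm e3 (hp.append ((hp'.append_right _).cons w))]

theorem TT_swapA (u v B : List ℂ) (x y w : ℂ) (hA : Odd (u.length + v.length))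
    (hB : Odd B.length) : TT (u ++ y :: x :: v) w B = TT (u ++ x :: y :: v) w B := by
  refine TT_perm w ?_ hB ?_ (List.Perm.refl _)
  · rw [List.length_append, List.length_cons, List.length_cons]
    obtain ⟨a, ha⟩ := hA
    exact ⟨a + 1, by omega⟩
  · exact (List.Perm.swap x y v).append_left u

theorem TT_swapB (A u v : List ℂ) (x y w : ℂ) (hA : Odd A.length)
    (hB : Odd (u.length + v.length)) :
    TT A w (u ++ y :: x :: v) = TT A w (u ++ x :: y :: v) := by
  refine TT_perm w hA ?_ (List.Perm.refl _) ?_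
  · rw [List.length_append, List.length_cons, List.length_cons]
    obtain ⟨a, ha⟩ := hB
    exact ⟨a + 1, by omega⟩
  · exact (List.Perm.swap x y v).append_left u

theorem q2_inv (x : ℂ) : q^2 * (q^2 * x)⁻¹ = x⁻¹ := by
  have h : q^2 ≠ 0 := pow_ne_zero 2 q_ne_zero
  rw [mul_inv, ← mul_assoc, mul_inv_cancel₀ h, one_mul]

/-- the factor of an inverted pair -/
theorem Z_pair_inv (A : List ℂ) (x : ℂ) (hA : Odd A.length) :
    Z (((x :: (q^2 * x) :: A).map (fun x => x⁻¹)) ++ [0]) =
      fac (q^2 * x)⁻¹ (A.map (fun x => x⁻¹) ++ [0]) * Z (A.map (fun x => x⁻¹) ++ [0]) := by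
  have e1 : Even (A.map (fun x => x⁻¹) ++ [0]).length := by
    rw [List.length_append, List.length_map, List.length_singleton]
    exact hA.add_one
  have h := Z_swap [] (A.map (fun x => x⁻¹) ++ [0]) (q^2 * x)⁻¹ x⁻¹ (by simpa using e1)
  have h2 := Z_rec [] (A.map (fun x => x⁻¹) ++ [0]) (q^2 * x)⁻¹ (by simpa using e1)
  rw [q2_inv x] at h2
  simp only [List.nil_append] at h h2
  simp only [List.map_cons, List.cons_append]
  rw [h, h2]

theorem TT_pairA (A B : List ℂ) (x w : ℂ) (hA : Odd A.length) (hB : Odd B.length) (hx : x ≠ 0) :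
    TT (x :: (q^2 * x) :: A) w B =
      fac x (A ++ w :: (B ++ [0])) * fac (q^2 * x)⁻¹ (A.map (fun x => x⁻¹) ++ [0]) * TT A w B := by
  unfold TT
  rw [Z_pair_inv A x hA]
  have e3 : Even (A ++ w :: (B ++ [0])).length := by
    rw [List.length_append, List.length_cons, List.length_append, List.length_singleton]
    obtain ⟨a, ha⟩ := hA
    obtain ⟨b, hb⟩ := hB
    exact ⟨a + b + 2, by omega⟩
  have h := Z_rec [] (A ++ w :: (B ++ [0])) x (by simpa using e3)
  simp only [List.nil_append] at h
  simp only [List.cons_append]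
  rw [h]
  ring

theorem TT_pairB (A B : List ℂ) (x w : ℂ) (hA : Odd A.length) (hB : Odd B.length) (hx : x ≠ 0) :
    TT A w (x :: (q^2 * x) :: B) =
      fac x (A ++ w :: (B ++ [0])) * fac (q^2 * x)⁻¹ (B.map (fun x => x⁻¹) ++ [0]) * TT A w B := by
  unfold TT
  rw [Z_pair_inv B x hB]
  have h := Z_rec (A ++ [w]) (B ++ [0]) x (by
    rw [List.length_append, List.length_append, List.length_singleton, List.length_singleton]
    obtain ⟨a, ha⟩ := hA
    obtain ⟨b, hb⟩ := hB
    exact ⟨a + b + 2, by omega⟩)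
  simp only [List.append_assoc, List.cons_append, List.nil_append] at h
  simp only [List.cons_append]
  rw [h]
  ring

theorem TT_poly_w (A B : List ℂ) (hA : Odd A.length) (hB : Odd B.length) :
    ∃ P : ℂ[X], P.natDegree ≤ A.length + B.length ∧ ∀ w, TT A w B = P.eval w := by
  have hN : Even (A.length + B.length + 2) := by
    obtain ⟨a, ha⟩ := hA
    obtain ⟨b, hb⟩ := hB
    exact ⟨a + b + 2, by omega⟩
  obtain ⟨P, hd, hP⟩ := (Z_pd (A.length + B.length + 2) hN).univ A (B ++ [0]) (by
    rw [List.length_append, List.length_singleton]; omega)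
  refine ⟨C (Z (A.map (fun x => x⁻¹) ++ [0]) * Z (B.map (fun x => x⁻¹) ++ [0])) * P, ?_, ?_⟩
  · exact (natDegree_C_mul_le _ _).trans (by simpa using hd)
  · intro w
    rw [eval_mul, eval_C]
    unfold TT
    rw [hP w]

theorem TT_poly_A (A B : List ℂ) (w : ℂ) (hA : Even A.length) (hB : Odd B.length) :
    ∃ P : ℂ[X], P.natDegree ≤ 2 * A.length + 1 + B.length ∧
      ∀ t, t ≠ 0 → P.eval t = t^A.length * TT (t :: A) w B := by
  have hN1 : Even (A.length + 2) := by
    obtain ⟨a, ha⟩ := hA
    exact ⟨a + 1, by omega⟩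
  have hN2 : Even (A.length + B.length + 3) := by
    obtain ⟨a, ha⟩ := hA
    obtain ⟨b, hb⟩ := hB
    exact ⟨a + b + 2, by omega⟩
  obtain ⟨P, hd, hP⟩ := (Z_pd (A.length + 2) hN1).univ [] (A.map (fun x => x⁻¹) ++ [0]) (by
    simp)
  obtain ⟨Q, hd', hQ⟩ := (Z_pd (A.length + B.length + 3) hN2).univ [] (A ++ w :: (B ++ [0])) (by
    simp; omega)
  refine ⟨P * (C (Z (B.map (fun x => x⁻¹) ++ [0])) * Q), ?_, ?_⟩
  · refine natDegree_mul_le.trans ?_
    have := natDegree_C_mul_le (Z (B.map (fun x => x⁻¹) ++ [0])) Q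
    omega
  · intro t ht
    rw [eval_mul, eval_mul, eval_C, ← hP t, ← hQ t]
    simp only [List.nil_append]
    have h := Z_inv t (A.map (fun x => x⁻¹) ++ [0]) ht (by
      rw [List.length_append, List.length_map, List.length_singleton]
      exact hA.add_one)
    have e : (A.map (fun x => x⁻¹) ++ [0]).length - 1 = A.length := by simp
    rw [e] at h
    rw [h]
    unfold TT
    simp only [List.map_cons, List.cons_append]
    ring

theorem TT_poly_B (A B : List ℂ) (w : ℂ) (hA : Odd A.length) (hB : Even B.length) :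
    ∃ P : ℂ[X], P.natDegree ≤ 2 * B.length + 1 + A.length ∧
      (∀ t, t ≠ 0 → P.eval t = t^B.length * TT A w (B ++ [t])) ∧
      P.eval 0 = Z (A.map (fun x => x⁻¹) ++ [0]) *
        (fac 0 (B.map (fun x => x⁻¹)) * Z (B.map (fun x => x⁻¹))) *
        (fac 0 (A ++ w :: B) * Z (A ++ w :: B)) := by
  have hN1 : Even (B.length + 2) := by
    obtain ⟨a, ha⟩ := hB
    exact ⟨a + 1, by omega⟩
  have hN2 : Even (A.length + B.length + 3) := by
    obtain ⟨a, ha⟩ := hA
    obtain ⟨b, hb⟩ := hB
    exact ⟨a + b + 2, by omega⟩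
  obtain ⟨P, hd, hP⟩ := (Z_pd (B.length + 2) hN1).univ [] (B.map (fun x => x⁻¹) ++ [0]) (by
    simp)
  obtain ⟨Q, hd', hQ⟩ := (Z_pd (A.length + B.length + 3) hN2).univ (A ++ w :: B) [0] (by
    simp; omega)
  refine ⟨P * (C (Z (A.map (fun x => x⁻¹) ++ [0])) * Q), ?_, ?_, ?_⟩
  · refine natDegree_mul_le.trans ?_
    have := natDegree_C_mul_le (Z (A.map (fun x => x⁻¹) ++ [0])) Q
    omega
  · intro t ht
    rw [eval_mul, eval_mul, eval_C, ← hP t, ← hQ t]
    simp only [List.nil_append]
    have h := Z_inv t (B.map (fun x => x⁻¹) ++ [0]) ht (by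
      rw [List.length_append, List.length_map, List.length_singleton]
      exact hB.add_one)
    have e : (B.map (fun x => x⁻¹) ++ [0]).length - 1 = B.length := by simp
    rw [e] at h
    rw [h]
    unfold TT
    have e2 : Z ((B ++ [t]).map (fun x => x⁻¹) ++ [0]) =
        Z (t⁻¹ :: (B.map (fun x => x⁻¹) ++ [0])) := by
      apply Z_perm
      · rw [List.length_append, List.length_map, List.length_append, List.length_singleton,
          List.length_singleton]
        exact hN1
      · rw [List.map_append, List.map_cons, List.map_nil, List.append_assoc]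
        exact List.perm_middle
    rw [e2]
    simp only [List.append_assoc, List.cons_append, List.nil_append]
    ring
  · rw [eval_mul, eval_mul, eval_C, ← hP 0, ← hQ 0]
    simp only [List.nil_append]
    have e2 : Z ((0:ℂ) :: (B.map (fun x => x⁻¹) ++ [0])) =
        fac 0 (B.map (fun x => x⁻¹)) * Z (B.map (fun x => x⁻¹)) := by
      have h1 := Z_rec [] (B.map (fun x => x⁻¹)) 0 (by simpa using hB)
      simp only [List.nil_append, mul_zero] at h1
      rw [← h1]
      apply Z_perm
      · rw [List.length_cons, List.length_append, List.length_map, List.length_singleton]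
        exact hN1
      · exact (List.perm_append_comm).cons 0
    have e3 : Z ((A ++ w :: B) ++ (0:ℂ) :: [0]) = fac 0 (A ++ w :: B) * Z (A ++ w :: B) := by
      have h1 := Z_rec (A ++ w :: B) [] 0 (by
        rw [List.length_append, List.length_cons, List.length_nil]
        obtain ⟨a, ha⟩ := hA
        obtain ⟨b, hb⟩ := hB
        exact ⟨a + b + 1, by omega⟩)
      simpa using h1
    rw [e2, e3]
    ring

end Pool.Agent.H492C
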