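import Pool.Agent.H492C.Confl2
import Pool.Agent.H988R2.Perc.T06

/-! Tasks H1A, H1B: the relations at the homogeneous point, from `starA`, `starB` and
`GR_poly_w`. -/

namespace Pool.Agent.H492C

open Pool.Agent.H988R2.Perc hiding X
open Pool.Agent.H123C.Lim
open Finset Polynomial Filter Topology

/-- the perturbed parameters -/
noncomputable def sq (j n : ℕ) : ℝ := 1 + ((j:ℝ) + 1) / ((n:ℝ) + 1)

theorem sq_gt (j n : ℕ) : 1 < sq j n := by
  unfold sq
  have : 0 < ((j:ℝ) + 1) / ((n:ℝ) + 1) := by positivity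
  linarith

theorem sq_inj {i j n : ℕ} (h : sq i n = sq j n) : i = j := by
  unfold sq at h
  have hn : ((n:ℝ) + 1) ≠ 0 := by positivity
  have h1 : ((i:ℝ) + 1) / ((n:ℝ) + 1) = ((j:ℝ) + 1) / ((n:ℝ) + 1) := by linarith
  rw [div_left_inj' hn] at h1
  have : (i:ℝ) = j := by linarith
  exact_mod_cast this

theorem sq_tendsto (j : ℕ) : Tendsto (fun n => ((sq j n : ℝ) : ℂ)) atTop (𝓝 1) := by
  have h1 : Tendsto (fun n : ℕ => sq j n) atTop (𝓝 1) := by
    have h2 : Tendsto (fun n : ℕ => (1:ℝ) / ((n:ℝ) + 1)) atTop (𝓝 0) :=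
      tendsto_one_div_add_atTop_nhds_zero_nat
    have h3 := (h2.const_mul ((j:ℝ) + 1)).const_add 1
    simp only [mul_zero, add_zero] at h3
    refine h3.congr fun n => ?_
    unfold sq; ring
  have := (Complex.continuous_ofReal.tendsto 1).comp h1
  simpa [Function.comp_def] using this

/-- positive reals -/
def RP (z : ℂ) : Prop := ∃ r : ℝ, 0 < r ∧ z = r

theorem RP.ne {z : ℂ} (h : RP z) : z ≠ 0 := by
  obtain ⟨r, hr, rfl⟩ := h
  exact_mod_cast hr.ne'

theorem q_im_pos : 0 < q.im := by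
  have : q.im = Real.sqrt 3 / 2 := rfl
  rw [this]; positivity

theorem q2_eq : q^2 = -1 - q := by linear_combination q_spec

theorem fac_ne_A {x : ℂ} (hx : RP x) {l : List ℂ} (hl : ∀ y ∈ l, RP y) : fac x l ≠ 0 := by
  unfold fac
  apply List.prod_ne_zero
  intro h
  obtain ⟨y, hy, h⟩ := List.mem_map.mp h
  obtain ⟨r, hr, rfl⟩ := hx
  obtain ⟨s, hs, rfl⟩ := hl _ hy
  have hq := q_im_pos
  rcases mul_eq_zero.mp h with h | h
  · have := congrArg Complex.im h
    rw [q2_eq] at this
    simp at this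
    rcases this with h | h
    · exact hq.ne' h
    · exact hs.ne' h
  · have := congrArg Complex.im h
    rw [q2_eq] at this
    simp at this
    exact hq.ne' this

theorem fac_ne_B {x : ℂ} (hx : RP x) {l : List ℂ} (hl : ∀ y ∈ l, RP y) : fac (q * x) l ≠ 0 := by
  unfold fac
  apply List.prod_ne_zero
  intro h
  obtain ⟨y, hy, h⟩ := List.mem_map.mp h
  obtain ⟨r, hr, rfl⟩ := hx
  obtain ⟨s, hs, rfl⟩ := hl _ hy
  have hq := q_im_pos
  have e : (q * (r:ℂ) - q^2 * (s:ℂ)) * (q * (r:ℂ) * (s:ℂ) - q^2) =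
    q^2 * (((r:ℂ) - q * (s:ℂ)) * ((r:ℂ) * (s:ℂ) - q)) := by ring
  rw [e] at h
  rcases mul_eq_zero.mp h with h | h
  · exact pow_ne_zero 2 q_ne_zero h
  rcases mul_eq_zero.mp h with h | h
  · have := congrArg Complex.im h
    simp at this
    rcases this with h | h
    · exact hq.ne' h
    · exact hs.ne' h
  · have := congrArg Complex.im h
    simp at this
    exact hq.ne' this

/-- the perturbed list -/
noncomputable def FA (a : ℕ) : List ((ℕ → ℂ) × ℂ) :=
  (List.range a).map (fun j => ((fun n => ((sq j n : ℝ) : ℂ)), (1:ℂ)))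

/-- the constant list -/
noncomputable def FB (b : ℕ) : List ((ℕ → ℂ) × ℂ) := List.replicate b ((fun _ => (1:ℂ)), (1:ℂ))

theorem FA_Cv (a : ℕ) : Cv (FA a) := by
  intro x hx
  obtain ⟨j, _, rfl⟩ := List.mem_map.mp hx
  exact sq_tendsto j

theorem FB_Cv (b : ℕ) : Cv (FB b) := by
  intro x hx
  rw [List.eq_of_mem_replicate hx]
  exact tendsto_const_nhds

theorem FA_ne (a : ℕ) : ∀ x ∈ FA a, x.2 ≠ 0 := by
  intro x hx
  obtain ⟨j, _, rfl⟩ := List.mem_map.mp hx
  exact one_ne_zero

theorem FB_ne (b : ℕ) : ∀ x ∈ FB b, x.2 ≠ 0 := by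
  intro x hx
  rw [List.eq_of_mem_replicate hx]
  exact one_ne_zero

theorem FA_len (a : ℕ) : (FA a).length = a := by simp [FA]

theorem FB_len (b : ℕ) : (FB b).length = b := by simp [FB]

theorem evL_len (n : ℕ) (F : List ((ℕ → ℂ) × ℂ)) : (evL n F).length = F.length := by simp [evL]

theorem evL_append (n : ℕ) (F G : List ((ℕ → ℂ) × ℂ)) : evL n (F ++ G) = evL n F ++ evL n G := by
  simp [evL]

theorem lmL_append (F G : List ((ℕ → ℂ) × ℂ)) : lmL (F ++ G) = lmL F ++ lmL G := by
  simp [lmL]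

theorem lmL_FA (a : ℕ) : lmL (FA a) = List.replicate a 1 := by
  simp [lmL, FA, List.map_map, Function.comp_def]

theorem lmL_FB (b : ℕ) : lmL (FB b) = List.replicate b 1 := by simp [lmL, FB]

theorem evL_FA_RP (a n : ℕ) : ∀ y ∈ evL n (FA a), RP y := by
  intro y hy
  simp only [evL, FA, List.map_map, List.mem_map, Function.comp_apply] at hy
  obtain ⟨j, _, rfl⟩ := hy
  exact ⟨sq j n, by linarith [sq_gt j n], rfl⟩

theorem evL_FB_RP (b n : ℕ) : ∀ y ∈ evL n (FB b), RP y := by
  intro y hy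
  simp only [evL, FB, List.map_replicate] at hy
  rw [List.eq_of_mem_replicate hy]
  exact ⟨1, one_pos, by norm_num⟩

theorem mem_evL_FA {a n : ℕ} (j : Fin a) : ((sq j n : ℝ) : ℂ) ∈ evL n (FA a) := by
  simp only [evL, FA, List.map_map, List.mem_map, Function.comp_apply, List.mem_range]
  exact ⟨j, j.2, rfl⟩

theorem roots_inj (c n : ℕ) : Function.Injective (fun x : Fin c × Bool =>
    if x.2 then ((sq x.1 n : ℝ) : ℂ) else (((sq x.1 n : ℝ) : ℂ))⁻¹) := by
  rintro ⟨i, b⟩ ⟨j, b'⟩ h
  have hi := sq_gt i n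
  have hj := sq_gt j n
  have hi' : (sq i n)⁻¹ < 1 := inv_lt_one_of_one_lt₀ hi
  have hj' : (sq j n)⁻¹ < 1 := inv_lt_one_of_one_lt₀ hj
  cases b <;> cases b' <;> simp only [Bool.false_eq_true, if_false, if_true] at h
  · rw [inv_inj] at h
    have h2 : sq i n = sq j n := by exact_mod_cast h
    rw [Fin.ext (sq_inj h2)]
  · have h2 : (sq i n)⁻¹ = sq j n := by exact_mod_cast h
    linarith
  · have h2 : sq i n = (sq j n)⁻¹ := by exact_mod_cast h
    linarith
  · have h2 : sq i n = sq j n := by exact_mod_cast h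
    rw [Fin.ext (sq_inj h2)]

/-- task H1A from its inputs -/
theorem hom_A_of
    (hpoly : ∀ (A B : List ℂ), Odd A.length → Odd B.length →
      ∃ P : ℂ[X], P.natDegree ≤ A.length + B.length ∧ ∀ w, GR A w B = P.eval w)
    (hstar : ∀ (A B : List ℂ) (u : ℂ), Odd A.length → Odd B.length → u ∈ A →
      (∀ z ∈ A ++ B, z ≠ 0) → ∀ (P : ℂ[X]), (∀ w, GR A w B = P.eval w) →
      fac u (A.erase u ++ B) ≠ 0 →
      (Mp (A ++ B) P).eval (q^2 * u) =
        u^(3 * (A.length + B.length) + 2) * (Mp (A ++ B) P).eval (q^2 * u⁻¹))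
    (a b : ℕ) (ha : Odd a) (hb : Odd b) (P : ℂ[X])
    (hP : ∀ w, GR (List.replicate a 1) w (List.replicate b 1) = P.eval w) :
    ∃ K : ℂ[X], (X - C 1)^(2*a) ∣ K ∧ ∀ w, w ≠ 0 → K.eval w =
      (Mp (List.replicate (a+b) 1) P).eval (q^2 * w) -
        w^(3 * (a + b) + 2) * (Mp (List.replicate (a+b) 1) P).eval (q^2 * w⁻¹) := by
  have hla : ∀ n, (evL n (FA a)).length = a := fun n => by rw [evL_len, FA_len]
  have hlb : ∀ n, (evL n (FB b)).length = b := fun n => by rw [evL_len, FB_len]
  have hex : ∀ n, ∃ Q : ℂ[X], Q.natDegree ≤ a + b ∧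
      ∀ w, GR (evL n (FA a)) w (evL n (FB b)) = Q.eval w := by
    intro n
    have := hpoly (evL n (FA a)) (evL n (FB b)) (by rw [hla]; exact ha) (by rw [hlb]; exact hb)
    rwa [hla, hlb] at this
  choose Q hQd hQ using hex
  have hPd : P.natDegree ≤ a + b := by
    obtain ⟨P', h1, h2⟩ := hpoly (List.replicate a 1) (List.replicate b 1) (by simpa using ha)
      (by simpa using hb)
    have : P = P' := Polynomial.funext fun w => by rw [← hP, h2]
    rw [this]; simpa using h1
  have ht : ∀ j : ℕ, Tendsto (fun n => (Q n).eval (j:ℂ)) atTop (𝓝 (P.eval (j:ℂ))) := by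
    intro j
    have := GR_tendsto (FA_Cv a) (FB_Cv b) (FA_ne a) (FB_ne b) (j:ℂ)
    rw [lmL_FA, lmL_FB, hP] at this
    refine this.congr fun n => hQ n _
  have := confl (m := a + b) (c := a) (q^2) (FA a ++ FB b) (by simp [FA_len, FB_len])
    ((FA_Cv a).append (FB_Cv b)) (by
      intro x hx
      rcases List.mem_append.mp hx with h | h
      · exact FA_ne a x h
      · exact FB_ne b x h) Q P hQd hPd ht (fun i n => ((sq i n : ℝ) : ℂ)) (fun i => sq_tendsto i)
    (fun i n => by
      have := sq_gt i n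
      have h : (sq i n) ≠ 0 := by linarith
      exact_mod_cast h) (fun n => roots_inj a n) (by
      intro n i
      have h := hstar (evL n (FA a)) (evL n (FB b)) _ (by rw [hla]; exact ha)
        (by rw [hlb]; exact hb) (mem_evL_FA i) (by
          intro z hz
          rcases List.mem_append.mp hz with h | h
          · exact (evL_FA_RP a n z h).ne
          · exact (evL_FB_RP b n z h).ne) (Q n) (hQ n) (by
          apply fac_ne_A (evL_FA_RP a n _ (mem_evL_FA i))
          intro y hy
          rcases List.mem_append.mp hy with h | h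
          · exact evL_FA_RP a n y (List.mem_of_mem_erase h)
          · exact evL_FB_RP b n y h)
      rw [hla, hlb] at h
      rw [evL_append]
      exact h)
  rw [lmL_append, lmL_FA, lmL_FB, List.replicate_append_replicate] at this
  exact this

/-- task H1B from its inputs -/
theorem hom_B_of
    (hpoly : ∀ (A B : List ℂ), Odd A.length → Odd B.length →
      ∃ P : ℂ[X], P.natDegree ≤ A.length + B.length ∧ ∀ w, GR A w B = P.eval w)
    (hstar : ∀ (A B : List ℂ) (v : ℂ), Odd A.length → Odd B.length → v ∈ B →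
      (∀ z ∈ A ++ B, z ≠ 0) → ∀ (P : ℂ[X]), (∀ w, GR A w B = P.eval w) →
      fac (q * v) (A ++ B.erase v) ≠ 0 →
      (Mp (A ++ B) P).eval (q * v) =
        v^(3 * (A.length + B.length) + 2) * (Mp (A ++ B) P).eval (q * v⁻¹))
    (a b : ℕ) (ha : Odd a) (hb : Odd b) (P : ℂ[X])
    (hP : ∀ w, GR (List.replicate a 1) w (List.replicate b 1) = P.eval w) :
    ∃ K : ℂ[X], (X - C 1)^(2*b) ∣ K ∧ ∀ w, w ≠ 0 → K.eval w =
      (Mp (List.replicate (a+b) 1) P).eval (q * w) -
        w^(3 * (a + b) + 2) * (Mp (List.replicate (a+b) 1) P).eval (q * w⁻¹) := by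
  have hla : ∀ n, (evL n (FB a)).length = a := fun n => by rw [evL_len, FB_len]
  have hlb : ∀ n, (evL n (FA b)).length = b := fun n => by rw [evL_len, FA_len]
  have hex : ∀ n, ∃ Q : ℂ[X], Q.natDegree ≤ a + b ∧
      ∀ w, GR (evL n (FB a)) w (evL n (FA b)) = Q.eval w := by
    intro n
    have := hpoly (evL n (FB a)) (evL n (FA b)) (by rw [hla]; exact ha) (by rw [hlb]; exact hb)
    rwa [hla, hlb] at this
  choose Q hQd hQ using hex
  have hPd : P.natDegree ≤ a + b := by
    obtain ⟨P', h1, h2⟩ := hpoly (List.replicate a 1) (List.replicate b 1) (by simpa using ha)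
      (by simpa using hb)
    have : P = P' := Polynomial.funext fun w => by rw [← hP, h2]
    rw [this]; simpa using h1
  have ht : ∀ j : ℕ, Tendsto (fun n => (Q n).eval (j:ℂ)) atTop (𝓝 (P.eval (j:ℂ))) := by
    intro j
    have := GR_tendsto (FB_Cv a) (FA_Cv b) (FB_ne a) (FA_ne b) (j:ℂ)
    rw [lmL_FA, lmL_FB, hP] at this
    refine this.congr fun n => hQ n _
  have := confl (m := a + b) (c := b) q (FB a ++ FA b) (by simp [FA_len, FB_len])
    ((FB_Cv a).append (FA_Cv b)) (by
      intro x hx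
      rcases List.mem_append.mp hx with h | h
      · exact FB_ne a x h
      · exact FA_ne b x h) Q P hQd hPd ht (fun i n => ((sq i n : ℝ) : ℂ)) (fun i => sq_tendsto i)
    (fun i n => by
      have := sq_gt i n
      have h : (sq i n) ≠ 0 := by linarith
      exact_mod_cast h) (fun n => roots_inj b n) (by
      intro n i
      have h := hstar (evL n (FB a)) (evL n (FA b)) _ (by rw [hla]; exact ha)
        (by rw [hlb]; exact hb) (mem_evL_FA i) (by
          intro z hz
          rcases List.mem_append.mp hz with h | h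
          · exact (evL_FB_RP a n z h).ne
          · exact (evL_FA_RP b n z h).ne) (Q n) (hQ n) (by
          apply fac_ne_B (evL_FA_RP b n _ (mem_evL_FA i))
          intro y hy
          rcases List.mem_append.mp hy with h | h
          · exact evL_FB_RP a n y h
          · exact evL_FA_RP b n y (List.mem_of_mem_erase h))
      rw [hla, hlb] at h
      rw [evL_append]
      exact h)
  rw [lmL_append, lmL_FA, lmL_FB, List.replicate_append_replicate] at this
  exact this

end Pool.Agent.H492C
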