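import Pool.Agent.H492C.Defs

/-! Task W1: coefficients of a polynomial as linear combinations of values. -/

namespace Pool.Agent.H492C

open Pool.Agent.H988R2.Perc hiding X
open Finset Polynomial

theorem exists_lam (m k : ℕ) : ∃ c : ℕ → ℂ, ∀ P : ℂ[X], P.natDegree ≤ m →
    P.coeff k = ∑ j ∈ range (m+1), c j * P.eval (j : ℂ) := by
  refine ⟨fun j => (Lagrange.basis (range (m+1)) (fun i : ℕ => (i:ℂ)) j).coeff k, ?_⟩
  intro P hP
  have hinj : Set.InjOn (fun i : ℕ => (i:ℂ)) (range (m+1) : Finset ℕ) := by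
    intro a _ b _ h
    exact Nat.cast_injective (R := ℂ) h
  have hdeg : P.degree < (range (m+1)).card := by
    rw [card_range]
    refine lt_of_le_of_lt P.degree_le_natDegree ?_
    exact_mod_cast Nat.lt_succ_of_le hP
  have h := Lagrange.eq_interpolate hinj hdeg
  conv_lhs => rw [h]
  rw [Lagrange.interpolate_apply, finsetSum_coeff]
  apply sum_congr rfl
  intro j _
  rw [coeff_C_mul]
  ring

theorem cw_eq (m k : ℕ) (P : ℂ[X]) (hP : P.natDegree ≤ m) :
    cw m k (fun w => P.eval w) = P.coeff k := by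
  have h := Classical.epsilon_spec (exists_lam m k)
  exact (h P hP).symm

end Pool.Agent.H492C
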