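import Pool.Agent.H492C.Defs
import Pool.Agent.H988R2.Perc.T13
import Pool.Agent.H31C.Defs

/-! The gluing functional of `H492C` is the one of `H31C`. -/

namespace Pool.Agent.H492C

open Pool.Agent.H988R2.Perc hiding X
open Finset Polynomial

theorem eqvGen_le {α : Type*} {E F : α → α → Prop} (h : ∀ x y, E x y → Relation.EqvGen F x y)
    {x y : α} (hxy : Relation.EqvGen E x y) : Relation.EqvGen F x y := by
  induction hxy with
  | rel x y hh => exact h x y hh
  | refl x => exact Relation.EqvGen.refl _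
  | symm x y _ ih => exact Relation.EqvGen.symm _ _ ih
  | trans x y z _ _ ih1 ih2 => exact Relation.EqvGen.trans _ _ _ ih1 ih2

theorem jn_iff_conn3 {a b k : ℕ} (hk : a + 1 = 2 * k) (R R1 R2 : St)
    (h1 : ∀ x y, R1.rel x y → x = y ∨ (x < 2*k ∧ y < 2*k)) :
    jn a (a + 1 + b) R (comb k R1 R2) ↔ H31C.conn3 a b R R1 R2 := by
  have e : a + 1 + b = a + b + 1 := by omega
  unfold jn H31C.conn3
  rw [e]
  constructor
  · refine eqvGen_le fun x y h => ?_
    rcases h with h | h
    · exact Relation.EqvGen.rel _ _ (Or.inl h)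
    · rcases h with h | ⟨h2, h3, h4⟩ | ⟨h2, h3, h4⟩
      · subst h; exact Relation.EqvGen.refl _
      · exact Relation.EqvGen.rel _ _ (Or.inr (Or.inl h4))
      · refine Relation.EqvGen.rel _ _ (Or.inr (Or.inr ⟨x - 2*k, y - 2*k, by omega, by omega, h4⟩))
  · refine eqvGen_le fun x y h => ?_
    rcases h with h | h | ⟨x', y', hx, hy, h⟩
    · exact Relation.EqvGen.rel _ _ (Or.inl h)
    · rcases h1 x y h with h2 | h2
      · subst h2; exact Relation.EqvGen.refl _
      · exact Relation.EqvGen.rel _ _ (Or.inr (Or.inr (Or.inl ⟨h2.1, h2.2, h⟩)))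
    · refine Relation.EqvGen.rel _ _ (Or.inr (Or.inr (Or.inr ⟨by omega, by omega, ?_⟩)))
      have e1 : x - 2*k = x' := by omega
      have e2 : y - 2*k = y' := by omega
      rw [e1, e2]; exact h

theorem pairG_comb2 (a b k : ℕ) (hk : a + 1 = 2 * k) (f g h : St →₀ ℂ)
    (hg : ∀ R ∈ g.support, ∀ x y, R.rel x y → x = y ∨ (x < 2*k ∧ y < 2*k)) :
    pairG a (a + 1 + b) f (comb2 k g h) = H31C.tri a b f g h := by
  classical
  unfold pairG comb2 H31C.tri
  refine Finsupp.sum_congr fun R _ => ?_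
  rw [Finsupp.sum_sum_index]
  · refine Finsupp.sum_congr fun R1 hR1 => ?_
    rw [Finsupp.sum_sum_index]
    · refine Finsupp.sum_congr fun R2 _ => ?_
      rw [Finsupp.sum_single_index]
      · have := jn_iff_conn3 (b := b) hk R R1 R2 (hg R1 hR1)
        simp only [this]
        split_ifs <;> ring
      · simp
    · intro R'; simp
    · intro R' b1 b2; ring
  · intro R'; simp
  · intro R' b1 b2; ring

theorem GR_bridge (A B : List ℂ) (w : ℂ) (hA : Odd A.length) :
    GR A w B = H31C.GR A w B := by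
  obtain ⟨m, hm⟩ := hA
  unfold GR H31C.GR up1 H31C.inv
  refine pairG_comb2 _ _ _ (by omega) _ _ _ ?_
  intro R hR x y hxy
  have hl : (A.map (fun x => x⁻¹) ++ [0]).length = 2 * ((A.length + 1) / 2) := by
    simp; omega
  have := Psi_supp (A.map (fun x => x⁻¹) ++ [0]) (by rw [hl]; exact even_two_mul _) R hR x y hxy
  rwa [hl] at this

theorem TT_bridge (A B : List ℂ) (w : ℂ) : TT A w B = H31C.TT A w B := by
  unfold TT H31C.TT H31C.inv
  ring

end Pool.Agent.H492C
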