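import Pool.Agent.H492C.Defs
import Pool.Agent.H988R2.Perc.T16
import Pool.Agent.H988R2.Perc.T25

/-! Task H2: the total mass at the homogeneous point. -/

namespace Pool.Agent.H492C

open Pool.Agent.H988R2.Perc hiding X
open Finset Polynomial

namespace H2

/-- the points `t, t², …, t^m` -/
noncomputable def At (m : ℕ) (t : ℂ) : List ℂ := List.ofFn fun i : Fin m => t^((i:ℕ)+1)

theorem At_len (m : ℕ) (t : ℂ) : (At m t).length = m := by simp [At]

theorem At_one (m : ℕ) : At m 1 = List.replicate m 1 := (T16.rep_ofFn m).symm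

/-- the renormalised symplectic Vandermonde product -/
noncomputable def VV (m : ℕ) (x : Fin m → ℂ) : ℂ :=
  (∏ j, (x j - (x j)⁻¹)) * ∏ i : Fin m, ∏ j ∈ Ioi i, ((x j + (x j)⁻¹) - (x i + (x i)⁻¹))

noncomputable def kap (m : ℕ) (x : Fin m → ℂ) : ℂ :=
  (∏ j, x j)^(m+2) * VV m x * ((-1)^m * (∏ j, x j)⁻¹)

noncomputable def Gf (m : ℕ) (x : Fin m → ℂ) (w : ℂ) : ℂ :=
  (w^2 - 1) * ∏ i, ((w - x i) * (w * x i - 1))

theorem ddl_fact (m : ℕ) (x : Fin m → ℂ) (hx : ∀ i, x i ≠ 0) (w : ℂ) (hw : w ≠ 0) :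
    dV (m+2) (fun j => j+1) (Fin.cons w x : Fin (m+1) → ℂ) = kap m x * (w * Gf m x w) := by
  have hz : ∀ i, (Fin.cons w x : Fin (m+1) → ℂ) i ≠ 0 := by
    intro i
    refine Fin.cases ?_ (fun j => ?_) i
    · simpa using hw
    · simpa using hx j
  rw [dV_eq (m+2) (fun j => j+1) (fun j hj => by omega) _ hz]
  have h1 : (Matrix.of fun i j : Fin (m+1) => sL ((j:ℕ)+1) ((Fin.cons w x : Fin (m+1) → ℂ) i)).det =
      (∏ j, ((Fin.cons w x : Fin (m+1) → ℂ) j - ((Fin.cons w x : Fin (m+1) → ℂ) j)⁻¹)) *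
      ∏ i : Fin (m+1), ∏ j ∈ Ioi i, (((Fin.cons w x : Fin (m+1) → ℂ) j +
        ((Fin.cons w x : Fin (m+1) → ℂ) j)⁻¹) - ((Fin.cons w x : Fin (m+1) → ℂ) i +
        ((Fin.cons w x : Fin (m+1) → ℂ) i)⁻¹)) := by
    rw [← T16.weyl (m+1) _ hz, ← Matrix.det_transpose]
    rfl
  rw [h1, Fin.prod_univ_succ, Fin.prod_univ_succ, Fin.prod_univ_succ, Fin.prod_Ioi_zero]
  simp only [Fin.cons_zero, Fin.cons_succ, Fin.prod_Ioi_succ]
  have h2 : ∏ j, ((x j + (x j)⁻¹) - (w + w⁻¹)) =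
      (-1)^m * (∏ i, ((w - x i) * (w * x i - 1))) * (w^m * ∏ j, x j)⁻¹ := by
    have e : ∀ j, ((x j + (x j)⁻¹) - (w + w⁻¹)) =
        (-1) * ((w - x j) * (w * x j - 1)) * (w * x j)⁻¹ := by
      intro j
      have := hx j
      field_simp
      ring
    rw [Finset.prod_congr rfl (fun j _ => e j), Finset.prod_mul_distrib, Finset.prod_mul_distrib,
      Finset.prod_inv_distrib, Finset.prod_mul_distrib (f := fun _ => w)]
    simp
  rw [h2]
  have hX : ∏ j, x j ≠ 0 := Finset.prod_ne_zero_iff.2 (fun j _ => hx j)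
  unfold kap VV Gf
  have hwm : w^m ≠ 0 := pow_ne_zero _ hw
  have h3 : (w * ∏ j, x j)^(m+2) = w^m * w^2 * (∏ j, x j)^(m+2) := by
    rw [mul_pow, pow_add]
  rw [h3]
  field_simp

/-- entries of the list `w, t, …, t^m, 0` -/
theorem ent_lt (m : ℕ) (t w : ℂ) (i : Fin (m+1)) :
    (w :: (At m t ++ [0])).getD i 0 = (Fin.cons w (fun j : Fin m => t^((j:ℕ)+1)) : Fin (m+1) → ℂ) i := by
  refine Fin.cases ?_ (fun j => ?_) i
  · simp
  · simp [At]

theorem ent_last (m : ℕ) (t w : ℂ) : (w :: (At m t ++ [0])).getD (m+1) 0 = 0 := by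
  simp [At]

theorem mu_lt {i j : ℕ} (h : i < j) : mu i < mu j := by unfold mu; omega

/-- coefficients of the expansion along the row of `w` -/
noncomputable def cc (m : ℕ) (x : Fin m → ℂ) (j : Fin (m+1)) : ℂ :=
  (-1)^(j:ℕ) * (Matrix.of fun i k : Fin m =>
    (x i)^(mu (m+1) + mu (j.succAbove k)) - (x i)^(mu (m+1) - mu (j.succAbove k))).det

theorem dmu_exp (m : ℕ) (x : Fin m → ℂ) (w : ℂ) :
    dV (mu (m+1)) mu (Fin.cons w x : Fin (m+1) → ℂ) =
      ∑ j : Fin (m+1), (w^(mu (m+1) + mu j) - w^(mu (m+1) - mu j)) * cc m x j := by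
  unfold dV
  rw [Matrix.det_succ_row_zero]
  refine Finset.sum_congr rfl fun j _ => ?_
  unfold cc
  have : (Matrix.of fun i j : Fin (m+1) => (Fin.cons w x : Fin (m+1) → ℂ) i ^ (mu (m+1) + mu j) -
      (Fin.cons w x : Fin (m+1) → ℂ) i ^ (mu (m+1) - mu j)).submatrix Fin.succ j.succAbove =
      (Matrix.of fun i k : Fin m =>
    (x i)^(mu (m+1) + mu (j.succAbove k)) - (x i)^(mu (m+1) - mu (j.succAbove k))) := by
    ext i k
    simp
  rw [this]
  simp only [Matrix.of_apply, Fin.cons_zero]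
  ring

theorem key (n : ℕ) (t w : ℂ) (ht : t ≠ 0) (hw : w ≠ 0) :
    Z (w :: (At (2*n) t ++ [0])) *
      (kap (2*n) (fun j => t^((j:ℕ)+1)) * (w * Gf (2*n) (fun j => t^((j:ℕ)+1)) w)) =
      q^((n+1)*n) * dV (mu (2*n+1)) mu
        (Fin.cons w (fun j : Fin (2*n) => t^((j:ℕ)+1)) : Fin (2*n+1) → ℂ) := by
  have h := Z_det (n+1) (w :: (At (2*n) t ++ [0])) (by simp [At_len]; ring)
  rw [show (n+1)*(n+1-1) = (n+1)*n by rw [Nat.add_sub_cancel]] at h
  rw [show 2*(n+1) = 2*n+1+1 by ring] at h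
  have hx : ∀ i : Fin (2*n), t^((i:ℕ)+1) ≠ 0 := fun i => pow_ne_zero _ ht
  have hd : ddl (2*n+1+1) (w :: (At (2*n) t ++ [0])) =
      - (kap (2*n) (fun j => t^((j:ℕ)+1)) * (w * Gf (2*n) (fun j => t^((j:ℕ)+1)) w)) := by
    unfold ddl
    refine (T16.det_last (2*n+1) (2*n+1+1) (fun j => j+1) (fun j hj => by simpa using hj) rfl
      (fun i => (w :: (At (2*n) t ++ [0])).getD i 0) (ent_last _ _ _)
      (by omega)).trans ?_
    rw [← ddl_fact (2*n) _ hx w hw]
    unfold dV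
    congr 2
    ext i j
    simp only [Matrix.of_apply]
    rw [ent_lt]
  have hm : dmu (2*n+1+1) (w :: (At (2*n) t ++ [0])) =
      - dV (mu (2*n+1)) mu
        (Fin.cons w (fun j : Fin (2*n) => t^((j:ℕ)+1)) : Fin (2*n+1) → ℂ) := by
    unfold dmu
    refine (T16.det_last (2*n+1) (mu (2*n+1+1-1)) mu (fun j hj => mu_lt (by omega)) rfl
      (fun i => (w :: (At (2*n) t ++ [0])).getD i 0) (ent_last _ _ _)
      (by unfold mu; omega)).trans ?_
    unfold dV
    congr 2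
    ext i j
    simp only [Matrix.of_apply]
    rw [ent_lt]
    rfl
  rw [hd, hm] at h
  linear_combination -h

/-- the polynomial in `w` -/
noncomputable def QQ (m : ℕ) (x : Fin m → ℂ) (P : ℂ[X]) : ℂ[X] :=
  (X^2 - 1) * (∏ i, ((X - C (x i)) * (X * C (x i) - 1))) * P

theorem QQ_eval (m : ℕ) (x : Fin m → ℂ) (P : ℂ[X]) (w : ℂ) :
    (QQ m x P).eval w = Gf m x w * P.eval w := by
  unfold QQ Gf
  simp only [eval_mul, eval_sub, eval_pow, eval_X, eval_one, eval_prod, eval_C]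

theorem QQ_deg (m : ℕ) (x : Fin m → ℂ) (P : ℂ[X]) (hP : P.natDegree ≤ m) :
    (QQ m x P).natDegree ≤ 3 * m + 2 := by
  unfold QQ
  have h1 : (X^2 - 1 : ℂ[X]).natDegree ≤ 2 := by compute_degree
  have h2 : (∏ i, ((X - C (x i)) * (X * C (x i) - 1)) : ℂ[X]).natDegree ≤ ∑ i : Fin m, 2 := by
    refine (natDegree_prod_le _ _).trans (Finset.sum_le_sum fun i _ => ?_)
    compute_degree
  have h3 : (∑ i : Fin m, 2) = 2 * m := by simp [mul_comm]
  have h4 := natDegree_mul_le (p := (X^2 - 1 : ℂ[X]) * (∏ i, ((X - C (x i)) * (X * C (x i) - 1)))) (q := P)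
  have h5 := natDegree_mul_le (p := (X^2 - 1 : ℂ[X])) (q := (∏ i, ((X - C (x i)) * (X * C (x i) - 1))))
  omega

theorem coeff_zero_of_kap (n : ℕ) (t : ℂ) (ht : t ≠ 0)
    (hk : kap (2*n) (fun j => t^((j:ℕ)+1)) ≠ 0) (P : ℂ[X])
    (hP : ∀ w, Z (w :: (At (2*n) t ++ [0])) = P.eval w) (e : ℕ) (he : e % 3 = 1) :
    (QQ (2*n) (fun j => t^((j:ℕ)+1)) P).coeff e = 0 := by
  set x : Fin (2*n) → ℂ := fun j => t^((j:ℕ)+1) with hx
  have h1 : C (kap (2*n) x) * (X * QQ (2*n) x P) =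
      C (q^((n+1)*n)) * ∑ j : Fin (2*n+1),
        (X^(mu (2*n+1) + mu j) - X^(mu (2*n+1) - mu j)) * C (cc (2*n) x j) := by
    apply Polynomial.eq_of_infinite_eval_eq
    refine Set.Infinite.mono (s := {w : ℂ | w ≠ 0}) ?_ ?_
    · intro w hw
      have hw' : w ≠ 0 := hw
      have h := key n t w ht hw'
      rw [dmu_exp, hP] at h
      simp only [Set.mem_ofPred_eq, eval_mul, eval_C, eval_X, QQ_eval, eval_finsetSum, eval_sub,
        eval_pow]
      rw [← h]
      ring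
    · exact (Set.finite_singleton (0:ℂ)).infinite_compl
  have h2 := congrArg (fun p : ℂ[X] => p.coeff (e+1)) h1
  simp only [coeff_C_mul, coeff_X_mul, finsetSum_coeff, coeff_mul_C, coeff_sub,
    coeff_X_pow] at h2
  have h3 : ∀ j : Fin (2*n+1), (((if e + 1 = mu (2*n+1) + mu j then (1:ℂ) else 0) -
      (if e + 1 = mu (2*n+1) - mu j then (1:ℂ) else 0)) * cc (2*n) x j) = 0 := by
    intro j
    have hj := j.2
    have e1 : e + 1 ≠ mu (2*n+1) + mu j := by unfold mu; omega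
    have e2 : e + 1 ≠ mu (2*n+1) - mu j := by unfold mu; omega
    rw [if_neg e1, if_neg e2]
    ring
  rw [Finset.sum_eq_zero (fun j _ => h3 j), mul_zero] at h2
  exact (mul_eq_zero.1 h2).resolve_left hk

theorem VV_eq (m : ℕ) (t : ℂ) (ht : t ≠ 0) :
    VV m (fun j => t^((j:ℕ)+1)) = (t-1)^(T16.cnt m) * T16.W m (fun j => j+1) t := by
  unfold VV
  rw [← T16.weylT m (fun j => j+1) t ht, T16.weyl m (fun j => t^((j:ℕ)+1))
    (fun j => pow_ne_zero _ ht)]

theorem kap_ev (m : ℕ) : ∀ᶠ t in nhdsWithin (1:ℂ) {1}ᶜ,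
    t ≠ 0 ∧ kap m (fun j => t^((j:ℕ)+1)) ≠ 0 := by
  have hW : ∀ᶠ t in nhds (1:ℂ), T16.W m (fun j => j+1) t ≠ 0 :=
    (T16.W_cont m (fun j => j+1)).eventually_ne (T16.W_ne m)
  have h0 : ∀ᶠ t in nhds (1:ℂ), t ≠ 0 := isOpen_ne.mem_nhds (by norm_num)
  filter_upwards [nhdsWithin_le_nhds hW, nhdsWithin_le_nhds h0, self_mem_nhdsWithin] with t h1 h2 h3
  refine ⟨h2, ?_⟩
  have hX : ∏ j : Fin m, t^((j:ℕ)+1) ≠ 0 :=
    Finset.prod_ne_zero_iff.2 (fun j _ => pow_ne_zero _ h2)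
  unfold kap
  rw [VV_eq m t h2]
  have h4 : t - 1 ≠ 0 := sub_ne_zero.2 h3
  refine mul_ne_zero (mul_ne_zero (pow_ne_zero _ hX) (mul_ne_zero (pow_ne_zero _ h4) h1)) ?_
  exact mul_ne_zero (pow_ne_zero _ (by norm_num)) (inv_ne_zero hX)

/-- coefficients as linear combinations of values -/
theorem lam_ex (D k : ℕ) : ∃ c : ℕ → ℂ, ∀ P : ℂ[X], P.natDegree ≤ D →
    P.coeff k = ∑ j ∈ range (D+1), c j * P.eval (j : ℂ) := by
  classical
  refine ⟨fun j => (Lagrange.basis (range (D+1)) (fun i : ℕ => (i:ℂ)) j).coeff k, ?_⟩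
  intro P hP
  have hinj : Set.InjOn (fun i : ℕ => (i:ℂ)) (range (D+1) : Finset ℕ) := by
    intro a _ b _ h
    simpa using h
  have hdeg : P.degree < (range (D+1)).card := by
    rw [Finset.card_range]
    refine lt_of_le_of_lt degree_le_natDegree ?_
    exact_mod_cast Nat.lt_succ_of_le hP
  have h1 := Lagrange.eq_interpolate hinj hdeg
  conv_lhs => rw [h1]
  rw [Lagrange.interpolate_apply, finsetSum_coeff]
  refine Finset.sum_congr rfl fun j _ => ?_
  rw [coeff_C_mul, mul_comm]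

theorem coeff_zero (n : ℕ) (P : ℂ[X])
    (hP : ∀ w, Z (w :: (List.replicate (2*n) 1 ++ [0])) = P.eval w) (hd : P.natDegree ≤ 2*n)
    (e : ℕ) (he : e % 3 = 1) :
    (QQ (2*n) (fun _ => 1) P).coeff e = 0 := by
  obtain ⟨c, hc⟩ := lam_ex (3*(2*n)+2) e
  have hF : ∀ j : ℕ, ContinuousAt (fun t : ℂ => Gf (2*n) (fun i => t^((i:ℕ)+1)) (j:ℂ) *
      Z ((j:ℂ) :: (At (2*n) t ++ [0]))) 1 := by
    intro j
    refine ContinuousAt.mul ?_ ?_
    · unfold Gf
      refine Continuous.continuousAt ?_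
      refine continuous_const.mul (continuous_finsetProd _ fun i _ => ?_)
      fun_prop
    · have h1 := (Z_pd (2*(n+1)) ⟨n+1, by ring⟩)
      have h2 : PD (([(j:ℂ)] : List ℂ).length + (2*n + ([0] : List ℂ).length)) (2*(n+1)-2) Z := by
        have : ([(j:ℂ)] : List ℂ).length + (2*n + ([0] : List ℂ).length) = 2*(n+1) := by
          simp; ring
        rw [this]; exact h1
      have h3 := (h2.sliceLeft [(j:ℂ)]).sliceRight (M := 2*n) [0]
      have h4 := h3.cont (fun i t => t^((i:ℕ)+1)) 1 (fun i => (continuous_pow _).continuousAt)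
      exact h4
  have hS : ContinuousAt (fun t : ℂ => ∑ j ∈ range (3*(2*n)+2+1), c j *
      (Gf (2*n) (fun i => t^((i:ℕ)+1)) (j:ℂ) * Z ((j:ℂ) :: (At (2*n) t ++ [0])))) 1 :=
    tendsto_finsetSum _ fun j _ => continuousAt_const.mul (hF j)
  have hz : (fun t : ℂ => ∑ j ∈ range (3*(2*n)+2+1), c j *
      (Gf (2*n) (fun i => t^((i:ℕ)+1)) (j:ℂ) * Z ((j:ℂ) :: (At (2*n) t ++ [0]))))
      =ᶠ[nhdsWithin (1:ℂ) {1}ᶜ] (fun _ => (0:ℂ)) := by
    filter_upwards [kap_ev (2*n)] with t ht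
    obtain ⟨P', hP', hP''⟩ := (Z_pd (2*(n+1)) ⟨n+1, by ring⟩).univ [] (At (2*n) t ++ [0])
      (by simp [At_len]; ring)
    have h5 := coeff_zero_of_kap n t ht.1 ht.2 P' (fun w => hP'' w) e he
    rw [hc _ (QQ_deg (2*n) _ P' (by omega))] at h5
    refine Eq.trans ?_ h5
    refine Finset.sum_congr rfl fun j _ => ?_
    rw [QQ_eval, ← hP'']
    rfl
  have h6 := tendsto_nhds_unique_of_eventuallyEq
    (hS.tendsto.mono_left nhdsWithin_le_nhds) (tendsto_const_nhds (x := (0:ℂ))) hz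
  rw [hc _ (QQ_deg (2*n) _ P hd), ← h6]
  refine Finset.sum_congr rfl fun j _ => ?_
  rw [QQ_eval, ← hP, At_one]
  simp

theorem Z_ones_zero_ne (a : ℕ) (ha : Odd a) : Z (List.replicate a 1 ++ [0]) ≠ 0 := by
  obtain ⟨k, rfl⟩ := ha
  rw [Z_ones_zero]
  refine mul_ne_zero (pow_ne_zero _ q_ne_zero) ?_
  exact_mod_cast (chi_pos _).ne'

theorem perm_mid (a b : ℕ) (w : ℂ) : (List.replicate a (1:ℂ) ++ w :: (List.replicate b 1 ++ [0])).Perm
    (w :: (List.replicate (a+b) 1 ++ [0])) := by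
  refine List.perm_middle.trans ?_
  rw [← List.append_assoc, List.replicate_append_replicate]

theorem TT_eq (a b : ℕ) (ha : Odd a) (hb : Odd b) (w : ℂ) :
    TT (List.replicate a 1) w (List.replicate b 1) =
      Z (List.replicate a 1 ++ [0]) * Z (List.replicate b 1 ++ [0]) *
        Z (w :: (List.replicate (a+b) 1 ++ [0])) := by
  unfold TT
  rw [List.map_replicate, List.map_replicate, inv_one,
    Z_perm (by
      simp only [List.length_append, List.length_replicate, List.length_cons, List.length_nil]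
      obtain ⟨k, rfl⟩ := ha
      obtain ⟨l, rfl⟩ := hb
      exact ⟨k + l + 2, by ring⟩) (perm_mid a b w)]

end H2

open H2

theorem TT_hom (a b : ℕ) (ha : Odd a) (hb : Odd b) (P : ℂ[X]) (hd : P.natDegree ≤ a + b)
    (hP : ∀ w, TT (List.replicate a 1) w (List.replicate b 1) = P.eval w) :
    P.reflect (a + b) = P ∧
    (∀ j, j % 3 = 1 → (Mp (List.replicate (a+b) 1) P).coeff (j + 3 * ((a + b) / 2)) = 0) ∧
    P.coeff 0 ≠ 0 := by
  obtain ⟨n, hn⟩ : ∃ n, a + b = 2 * n := by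
    obtain ⟨k, rfl⟩ := ha
    obtain ⟨l, rfl⟩ := hb
    exact ⟨k + l + 1, by ring⟩
  obtain ⟨P1, hd1, hP1'⟩ := (Z_pd (2*(n+1)) ⟨n+1, by ring⟩).univ [] (List.replicate (2*n) 1 ++ [0])
      (by simp; ring)
  have hd1' : P1.natDegree ≤ 2 * n := by omega
  have hP1 : ∀ w, Z (w :: (List.replicate (2*n) 1 ++ [0])) = P1.eval w := fun w => hP1' w
  set cst : ℂ := Z (List.replicate a 1 ++ [0]) * Z (List.replicate b 1 ++ [0]) with hcst
  have hcne : cst ≠ 0 := mul_ne_zero (Z_ones_zero_ne a ha) (Z_ones_zero_ne b hb)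
  have hPev : ∀ w, P.eval w = cst * P1.eval w := by
    intro w
    rw [← hP, TT_eq a b ha hb, hn, hP1]
  have hPP : P = C cst * P1 := by
    apply Polynomial.funext
    intro w
    rw [hPev, eval_mul, eval_C]
  refine ⟨?_, ?_, ?_⟩
  · apply Polynomial.eq_of_infinite_eval_eq
    refine Set.Infinite.mono (s := {w : ℂ | w ≠ 0}) ?_ (Set.finite_singleton (0:ℂ)).infinite_compl
    intro w hw
    have hw' : w ≠ 0 := hw
    show (P.reflect (a+b)).eval w = P.eval w
    haveI : Invertible (w⁻¹) := invertibleOfNonzero (inv_ne_zero hw')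
    have h1 := Polynomial.eval₂_reflect_mul_pow (RingHom.id ℂ) (w⁻¹) (a+b) P hd
    have h2 : ⅟(w⁻¹) = w := by rw [invOf_eq_inv, inv_inv]
    rw [h2] at h1
    have h3 : (P.reflect (a+b)).eval w * (w⁻¹)^(a+b) = P.eval w⁻¹ := by
      simpa [eval₂_eq_eval_map] using h1
    have h4 := Z_inv w (List.replicate (2*n) 1 ++ [0]) hw' (by simp)
    rw [hP1, hP1] at h4
    simp only [List.length_append, List.length_replicate, List.length_cons, List.length_nil,
      zero_add, Nat.add_sub_cancel] at h4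
    rw [hPev, h4]
    rw [hPev, hn] at h3
    have h5 : (P.reflect (a+b)).eval w * ((w⁻¹)^(2*n) * w^(2*n)) = cst * P1.eval w⁻¹ * w^(2*n) := by
      rw [← h3, hn]; ring
    rw [← mul_pow, inv_mul_cancel₀ hw', one_pow, mul_one] at h5
    rw [h5]
    ring
  · intro j hj
    have h1 : Mp (List.replicate (a+b) 1) P = C cst * QQ (2*n) (fun _ => 1) P1 := by
      unfold Mp QQ
      rw [hPP, hn]
      simp only [List.map_replicate, List.prod_replicate, inv_one, map_one, mul_one,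
        Finset.prod_const, Finset.card_univ, Fintype.card_fin]
      ring
    rw [h1, coeff_C_mul, coeff_zero n P1 hP1 hd1' _ (by omega), mul_zero]
  · rw [Polynomial.coeff_zero_eq_eval_zero, hPev, ← hP1]
    refine mul_ne_zero hcne ?_
    have h1 : ((0:ℂ) :: (List.replicate (2*n) 1 ++ [0])).Perm ([] ++ (0:ℂ) :: (q^2 * 0) :: List.replicate (2*n) 1) := by
      rw [mul_zero, List.nil_append]
      refine List.Perm.cons _ ?_
      refine (List.perm_append_comm).trans ?_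
      simp
    rw [Z_perm (by simp; exact ⟨n+1, by ring⟩) h1, Z_rec [] _ 0 (by simp), List.nil_append, Z_ones]
    refine mul_ne_zero ?_ (mul_ne_zero (pow_ne_zero _ q_ne_zero) (by exact_mod_cast (chi_pos _).ne'))
    unfold fac
    rw [List.map_replicate, List.prod_replicate]
    apply pow_ne_zero
    have := q_ne_zero
    simp [this]

end Pool.Agent.H492C
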