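import Pool.Agent.H492C.Joint
import Pool.Agent.H983R2.CA.DvdLim

/-!
Confluence: `hom_A`, `hom_B` from the relations at generic points (helper212).
-/

namespace Pool.Agent.H492C

open Pool.Agent.H988R2.Perc hiding X
open Pool.Agent.H983R2.CA
open Finset Polynomial Filter Topology

namespace HB

/-- statement of `starA` -/
def SStarA : Prop := ∀ (A B : List ℂ) (u : ℂ) (_ : Odd A.length) (_ : Odd B.length) (_ : u ∈ A)
    (_ : ∀ z ∈ A ++ B, z ≠ 0) (P : ℂ[X]) (_ : ∀ w, GR A w B = P.eval w)
    (_ : fac u (A.erase u ++ B) ≠ 0),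
    (Mp (A ++ B) P).eval (q^2 * u) =
      u^(3 * (A.length + B.length) + 2) * (Mp (A ++ B) P).eval (q^2 * u⁻¹)

/-- statement of `starB` -/
def SStarB : Prop := ∀ (A B : List ℂ) (v : ℂ) (_ : Odd A.length) (_ : Odd B.length) (_ : v ∈ B)
    (_ : ∀ z ∈ A ++ B, z ≠ 0) (P : ℂ[X]) (_ : ∀ w, GR A w B = P.eval w)
    (_ : fac (q * v) (A ++ B.erase v) ≠ 0),
    (Mp (A ++ B) P).eval (q * v) =
      v^(3 * (A.length + B.length) + 2) * (Mp (A ++ B) P).eval (q * v⁻¹)

theorem eval_reflect {N : ℕ} {f : ℂ[X]} (hf : f.natDegree ≤ N) {x : ℂ} (hx : x ≠ 0) :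
    (reflect N f).eval x = x^N * f.eval x⁻¹ := by
  have hx' : x⁻¹ ≠ 0 := inv_ne_zero hx
  have := invertibleOfNonzero hx'
  have h := Polynomial.eval₂_reflect_mul_pow (RingHom.id ℂ) x⁻¹ N f hf
  have e : ⅟(x⁻¹) = x := by simp [invOf_eq_inv]
  rw [e] at h
  simp only [Polynomial.eval₂_id] at h
  rw [← h, inv_pow]
  field_simp

/-- one block of factors -/
noncomputable def gg (c : ℂ) : ℂ[X] := (X - C c) * (C c * X - 1)

theorem gg_eq (c : ℂ) (hc : c ≠ 0) : gg c = C c * ((X - C c) * (X - C c⁻¹)) := by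
  unfold gg
  have : (C c : ℂ[X]) * C c⁻¹ = 1 := by rw [← C_mul, mul_inv_cancel₀ hc, C_1]
  linear_combination (X - C c) * this

theorem gg_deg (c : ℂ) : (gg c).natDegree ≤ 2 := by
  unfold gg
  compute_degree

/-- `(X²-1) ∏ gg(c) · Q` -/
noncomputable def MM (l : List ℂ) (Q : ℂ[X]) : ℂ[X] := (X^2 - 1) * (l.map gg).prod * Q

theorem prod_gg (l : List ℂ) (h : ∀ c ∈ l, c ≠ 0) :
    (l.map gg).prod = C l.prod * (l.map (fun c => (X - C c) * (X - C c⁻¹))).prod := by
  induction l with
  | nil => simp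
  | cons c l ih =>
    rw [List.map_cons, List.prod_cons, List.prod_cons, List.map_cons, List.prod_cons,
      ih fun z hz => h z (List.mem_cons_of_mem _ hz), gg_eq c (h c List.mem_cons_self), C_mul]
    ring

theorem MM_eq (l : List ℂ) (h : ∀ c ∈ l, c ≠ 0) (c : ℂ) (P : ℂ[X]) :
    MM l (C c * P) = C (l.prod * c) * Mp l P := by
  unfold MM Mp
  rw [prod_gg l h, C_mul]
  ring

theorem prod_gg_deg (l : List ℂ) : ((l.map gg).prod).natDegree ≤ 2 * l.length := by
  induction l with
  | nil => simp
  | cons c l ih =>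
    rw [List.map_cons, List.prod_cons, List.length_cons]
    refine Polynomial.natDegree_mul_le.trans ?_
    have := gg_deg c
    omega

theorem MM_deg (l : List ℂ) (Q : ℂ[X]) (n : ℕ) (h : Q.natDegree ≤ n) :
    (MM l Q).natDegree ≤ 2 + 2 * l.length + n := by
  unfold MM
  refine Polynomial.natDegree_mul_le.trans (add_le_add (Polynomial.natDegree_mul_le.trans
    (add_le_add ?_ (prod_gg_deg l))) h)
  compute_degree

/-- `f(cW) - W^N f(c/W)` -/
noncomputable def KK (N : ℕ) (c : ℂ) (f : ℂ[X]) : ℂ[X] :=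
  f.comp (C c * X) - reflect N (f.comp (C c * X))

theorem comp_deg (c : ℂ) (f : ℂ[X]) {N : ℕ} (h : f.natDegree ≤ N) :
    (f.comp (C c * X)).natDegree ≤ N := by
  refine (Polynomial.natDegree_comp_le).trans ?_
  have : (C c * X : ℂ[X]).natDegree ≤ 1 := by compute_degree
  calc f.natDegree * (C c * X : ℂ[X]).natDegree ≤ N * 1 := Nat.mul_le_mul h this
    _ = N := mul_one N

theorem KK_deg (N : ℕ) (c : ℂ) (f : ℂ[X]) (h : f.natDegree ≤ N) : (KK N c f).natDegree ≤ N := by
  unfold KK
  refine (Polynomial.natDegree_sub_le _ _).trans (max_le (comp_deg c f h) ?_)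
  refine (Polynomial.natDegree_reflect_le).trans (max_le le_rfl (comp_deg c f h))

theorem KK_eval (N : ℕ) (c : ℂ) (f : ℂ[X]) (h : f.natDegree ≤ N) {w : ℂ} (hw : w ≠ 0) :
    (KK N c f).eval w = f.eval (c * w) - w^N * f.eval (c * w⁻¹) := by
  unfold KK
  rw [Polynomial.eval_sub, eval_reflect (comp_deg c f h) hw]
  simp [Polynomial.eval_comp]

/-- the family of nodes -/
noncomputable def nod (n : ℕ) (s : ℂ) : List ℂ := List.ofFn (fun j : Fin n => uu j s)

/-- the same, as polynomials in `s` -/
noncomputable def nodP (n : ℕ) : List ℂ[X] := List.ofFn (fun j : Fin n => 1 + C ((j : ℂ) + 1) * X)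

theorem nodP_eval (n : ℕ) (s : ℂ) : (nodP n).map (fun p => p.eval s) = nod n s := by
  unfold nodP nod
  rw [List.map_ofFn]
  congr 1
  funext j
  simp [uu]

theorem nod_length (n : ℕ) (s : ℂ) : (nod n s).length = n := by simp [nod]

theorem nodP_length (n : ℕ) : (nodP n).length = n := by simp [nodP]

theorem nod_zero (n : ℕ) : nod n 0 = List.replicate n 1 := by
  unfold nod
  rw [show (fun j : Fin n => uu j 0) = fun _ => (1 : ℂ) from funext fun j => uu_zero j,
    List.ofFn_const]

theorem CC_Q (Q : ℂ[X][X]) : CC (fun s => Q.map (evalRingHom s)) := by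
  intro k
  simp only [Polynomial.coeff_map, coe_evalRingHom]
  exact (Q.coeff k).continuous.continuousAt

theorem CC_gg {f : ℂ → ℂ} (hf : ContinuousAt f 0) : CC (fun s => gg (f s)) := by
  unfold gg
  exact ((CC.const X).sub (CC.C hf)).mul (((CC.C hf).mul (CC.const X)).sub (CC.const 1))

theorem CC_nod (n : ℕ) : CC (fun s => ((nod n s).map gg).prod) := by
  have : (fun s => ((nod n s).map gg).prod) = fun s => ∏ j : Fin n, gg (uu j s) := by
    funext s
    unfold nod
    rw [List.map_ofFn, List.prod_ofFn]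
    rfl
  rw [this]
  exact CC.prod _ fun j _ => CC_gg (uu_cont j)

theorem fac_ne (x : ℂ) (m : List ℂ) (h : ∀ y ∈ m, (x - q^2 * y) * (x * y - q^2) ≠ 0) :
    fac x m ≠ 0 := by
  unfold fac
  apply List.prod_ne_zero
  intro h0
  rw [List.mem_map] at h0
  obtain ⟨y, hy, h1⟩ := h0
  exact h y hy h1

theorem ev_ne {c : ℂ} (hc : (c - q^2) * (c - q^2) ≠ 0) (f g : ℂ → ℂ) (hf : ContinuousAt f 0)
    (hg : ContinuousAt g 0) (hf0 : f 0 = 1) (hg0 : g 0 = 1) :
    ∀ᶠ s in 𝓝[≠] (0:ℂ), (c * f s - q^2 * g s) * (c * f s * g s - q^2) ≠ 0 := by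
  have h1 : ContinuousAt (fun s => (c * f s - q^2 * g s) * (c * f s * g s - q^2)) 0 := by
    fun_prop
  have h2 : (c * f 0 - q^2 * g 0) * (c * f 0 * g 0 - q^2) ≠ 0 := by
    rw [hf0, hg0]
    simpa using hc
  exact (h1.eventually_ne h2).filter_mono nhdsWithin_le_nhds

theorem good (n : ℕ) {c : ℂ} (hc : (c - q^2) * (c - q^2) ≠ 0) :
    ∀ᶠ s in 𝓝[≠] (0:ℂ), (∀ z ∈ nod n s, z ≠ 0) ∧ (∀ v ∈ nod n s, ∀ y ∈ 1 :: nod n s,
      (c * v - q^2 * y) * (c * v * y - q^2) ≠ 0) := by
  have h1 : ∀ᶠ s in 𝓝[≠] (0:ℂ), ∀ j : Fin n, uu j s ≠ 0 := by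
    rw [Filter.eventually_all]
    intro j
    have := (uu_cont j).eventually_ne (y := 0) (by rw [uu_zero]; exact one_ne_zero)
    exact this.filter_mono nhdsWithin_le_nhds
  have h2 : ∀ᶠ s in 𝓝[≠] (0:ℂ), ∀ j : Fin n, (c * uu j s - q^2 * 1) * (c * uu j s * 1 - q^2) ≠ 0 := by
    rw [Filter.eventually_all]
    intro j
    exact ev_ne hc (uu j) (fun _ => 1) (uu_cont j) continuousAt_const (uu_zero j) rfl
  have h3 : ∀ᶠ s in 𝓝[≠] (0:ℂ), ∀ j k : Fin n,
      (c * uu j s - q^2 * uu k s) * (c * uu j s * uu k s - q^2) ≠ 0 := by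
    rw [Filter.eventually_all]
    intro j
    rw [Filter.eventually_all]
    intro k
    exact ev_ne hc (uu j) (uu k) (uu_cont j) (uu_cont k) (uu_zero j) (uu_zero k)
  filter_upwards [h1, h2, h3] with s e1 e2 e3
  constructor
  · intro z hz
    unfold nod at hz
    rw [List.mem_ofFn] at hz
    obtain ⟨j, rfl⟩ := hz
    exact e1 j
  · intro v hv y hy
    unfold nod at hv
    rw [List.mem_ofFn] at hv
    obtain ⟨j, rfl⟩ := hv
    rcases List.mem_cons.1 hy with rfl | hy
    · exact e2 j
    · unfold nod at hy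
      rw [List.mem_ofFn] at hy
      obtain ⟨k, rfl⟩ := hy
      exact e3 j k

theorem q_ne : q - q^2 ≠ 0 := by
  intro h
  have : q * (1 - q) = 0 := by linear_combination h
  rcases mul_eq_zero.1 this with h | h
  · exact q_ne_zero h
  · exact q_ne_one (by linear_combination -h)

theorem one_ne : (1 : ℂ) - q^2 ≠ 0 := fun h => q_sq_ne_one (by linear_combination -h)

theorem ev_C_mul (c : ℂ) (f : ℂ[X]) (x : ℂ) : (C c * f).eval x = c * f.eval x := by simp

end HB

open HB

theorem hom_B_of (hstar : SStarB) (a b : ℕ) (ha : Odd a) (hb : Odd b) (P : ℂ[X])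
    (hP : ∀ w, GR (List.replicate a 1) w (List.replicate b 1) = P.eval w) :
    ∃ K : ℂ[X], (X - C 1)^(2*b+1) ∣ K ∧ ∀ w, w ≠ 0 → K.eval w =
      (Mp (List.replicate (a+b) 1) P).eval (q * w) -
        w^(3 * (a + b) + 2) * (Mp (List.replicate (a+b) 1) P).eval (q * w⁻¹) := by
  obtain ⟨Q, hQd, hQ⟩ := joint_GR (List.replicate a 1) (nodP b)
  rw [List.length_replicate, nodP_length] at hQd
  have hQ' : ∀ s W : ℂ, (∀ z ∈ nod b s, z ≠ 0) → (Q.map (evalRingHom s)).eval W =
      ((nod b s).prod) ^ (b - 1) * GR (List.replicate a 1) W (nod b s) := by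
    intro s W hs
    have h := hQ s W ?_
    · rw [nodP_eval, List.map_replicate, Polynomial.eval_one, List.length_replicate, nodP_length,
        List.prod_replicate, one_pow, one_pow, one_mul] at h
      exact h
    · intro x hx
      rw [List.mem_append] at hx
      rcases hx with hx | hx
      · rw [List.eq_of_mem_replicate hx]
        simp
      · apply hs
        rw [← nodP_eval]
        exact List.mem_map_of_mem hx
  set D := 3 * (a + b) + 2 with hD
  let F : ℂ → ℂ[X] := fun s => MM (List.replicate a 1 ++ nod b s) (Q.map (evalRingHom s))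
  have hFd : ∀ s, (F s).natDegree ≤ D := by
    intro s
    refine (MM_deg _ _ (a + b) (Polynomial.natDegree_map_le.trans hQd)).trans ?_
    rw [List.length_append, List.length_replicate, nod_length]
    omega
  have hFC : CC F := by
    have : F = fun s => (X^2 - 1) * ((((List.replicate a (1:ℂ)).map gg).prod) *
        ((nod b s).map gg).prod) * Q.map (evalRingHom s) := by
      funext s
      simp only [F, MM, List.map_append, List.prod_append]
    rw [this]
    exact (((CC.const _).mul ((CC.const _).mul (CC_nod b))).mul (CC_Q Q))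
  have hstar' : ∀ᶠ s in 𝓝[≠] (0:ℂ), ∀ v ∈ nod b s, v ≠ 0 ∧
      (F s).eval (q * v) = v^D * (F s).eval (q * v⁻¹) := by
    have hc : (q - q^2) * (q - q^2) ≠ 0 := mul_ne_zero q_ne q_ne
    filter_upwards [good b hc] with s hs
    obtain ⟨h1, h2⟩ := hs
    intro v hv
    refine ⟨h1 v hv, ?_⟩
    have hcs : ((nod b s).prod) ^ (b - 1) ≠ 0 := by
      apply pow_ne_zero
      apply List.prod_ne_zero
      intro h0
      exact h1 0 h0 rfl
    set cs := ((nod b s).prod) ^ (b - 1) with hcsd
    have h0 : ∀ z ∈ List.replicate a (1:ℂ) ++ nod b s, z ≠ 0 := by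
      intro z hz
      rw [List.mem_append] at hz
      rcases hz with hz | hz
      · rw [List.eq_of_mem_replicate hz]
        exact one_ne_zero
      · exact h1 z hz
    have hst := hstar (List.replicate a 1) (nod b s) v (by simpa using ha)
      (by rw [nod_length]; exact hb) hv h0 (C cs⁻¹ * Q.map (evalRingHom s)) ?_ ?_
    · have hF : F s = C ((List.replicate a (1:ℂ) ++ nod b s).prod * cs) *
          Mp (List.replicate a 1 ++ nod b s) (C cs⁻¹ * Q.map (evalRingHom s)) := by
        rw [← MM_eq _ h0]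
        simp only [F]
        congr 1
        rw [← mul_assoc, ← C_mul, mul_inv_cancel₀ hcs, C_1, one_mul]
      rw [hF, ev_C_mul, ev_C_mul, hst, List.length_replicate, nod_length]
      ring
    · intro w
      rw [ev_C_mul, hQ' s w h1, ← mul_assoc, inv_mul_cancel₀ hcs, one_mul]
    · apply fac_ne
      intro y hy
      apply h2 v hv
      rw [List.mem_append] at hy
      rcases hy with hy | hy
      · rw [List.eq_of_mem_replicate hy]
        exact List.mem_cons_self
      · exact List.mem_cons_of_mem _ (List.mem_of_mem_erase hy)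
  refine ⟨KK D q (F 0), ?_, ?_⟩
  · have hdiv := pow_dvd_at_one b D (fun s => KK D q (F s)) (fun s => KK_deg D q (F s) (hFd s))
      ?_ ?_ ?_ ?_
    · simpa using hdiv
    · have h1 := hFC.scale q
      exact h1.sub (h1.reflect D)
    · refine Filter.Eventually.of_forall fun s => ?_
      rw [KK_eval D q (F s) (hFd s) one_ne_zero]
      simp
    · intro j hj
      filter_upwards [hstar'] with s hs
      have hv : uu j s ∈ nod b s := by
        unfold nod
        rw [List.mem_ofFn]
        exact ⟨⟨j, hj⟩, rfl⟩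
      obtain ⟨h1, h2⟩ := hs _ hv
      rw [KK_eval D q (F s) (hFd s) h1, h2, sub_self]
    · intro j hj
      filter_upwards [hstar'] with s hs
      have hv : uu j s ∈ nod b s := by
        unfold nod
        rw [List.mem_ofFn]
        exact ⟨⟨j, hj⟩, rfl⟩
      obtain ⟨h1, h2⟩ := hs _ hv
      rw [KK_eval D q (F s) (hFd s) (inv_ne_zero h1), inv_inv, h2, ← mul_assoc, ← mul_pow,
        inv_mul_cancel₀ h1, one_pow, one_mul, sub_self]
  · intro w hw
    have hnz : ∀ z ∈ nod b 0, z ≠ 0 := by
      rw [nod_zero]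
      intro z hz
      rw [List.eq_of_mem_replicate hz]
      exact one_ne_zero
    have hQP : Q.map (evalRingHom 0) = P := by
      apply Polynomial.funext
      intro W
      rw [hQ' 0 W hnz, nod_zero, List.prod_replicate, one_pow, one_pow, one_mul, hP]
    have hF0 : F 0 = Mp (List.replicate (a+b) 1) P := by
      have h0 : ∀ z ∈ List.replicate (a+b) (1:ℂ), z ≠ 0 := by
        intro z hz
        rw [List.eq_of_mem_replicate hz]
        exact one_ne_zero
      have := MM_eq (List.replicate (a+b) (1:ℂ)) h0 1 P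
      rw [C_1, one_mul, List.prod_replicate, one_pow, mul_one, C_1, one_mul] at this
      rw [← this]
      simp only [F]
      rw [nod_zero, ← List.replicate_add, hQP]
    rw [KK_eval D q (F 0) (hFd 0) hw, hF0]

theorem hom_A_of (hstar : SStarA) (a b : ℕ) (ha : Odd a) (hb : Odd b) (P : ℂ[X])
    (hP : ∀ w, GR (List.replicate a 1) w (List.replicate b 1) = P.eval w) :
    ∃ K : ℂ[X], (X - C 1)^(2*a+1) ∣ K ∧ ∀ w, w ≠ 0 → K.eval w =
      (Mp (List.replicate (a+b) 1) P).eval (q^2 * w) -
        w^(3 * (a + b) + 2) * (Mp (List.replicate (a+b) 1) P).eval (q^2 * w⁻¹) := by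
  obtain ⟨Q, hQd, hQ⟩ := joint_GR (nodP a) (List.replicate b 1)
  rw [nodP_length, List.length_replicate] at hQd
  have hQ' : ∀ s W : ℂ, (∀ z ∈ nod a s, z ≠ 0) → (Q.map (evalRingHom s)).eval W =
      ((nod a s).prod) ^ (a - 1) * GR (nod a s) W (List.replicate b 1) := by
    intro s W hs
    have h := hQ s W ?_
    · rw [nodP_eval, List.map_replicate, Polynomial.eval_one, List.length_replicate, nodP_length,
        List.prod_replicate, one_pow, one_pow, mul_one] at h
      exact h
    · intro x hx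
      rw [List.mem_append] at hx
      rcases hx with hx | hx
      · apply hs
        rw [← nodP_eval]
        exact List.mem_map_of_mem hx
      · rw [List.eq_of_mem_replicate hx]
        simp
  set D := 3 * (a + b) + 2 with hD
  let F : ℂ → ℂ[X] := fun s => MM (nod a s ++ List.replicate b 1) (Q.map (evalRingHom s))
  have hFd : ∀ s, (F s).natDegree ≤ D := by
    intro s
    refine (MM_deg _ _ (a + b) (Polynomial.natDegree_map_le.trans hQd)).trans ?_
    rw [List.length_append, List.length_replicate, nod_length]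
    omega
  have hFC : CC F := by
    have : F = fun s => (X^2 - 1) * (((nod a s).map gg).prod *
        ((List.replicate b (1:ℂ)).map gg).prod) * Q.map (evalRingHom s) := by
      funext s
      simp only [F, MM, List.map_append, List.prod_append]
    rw [this]
    exact (((CC.const _).mul ((CC_nod a).mul (CC.const _))).mul (CC_Q Q))
  have hstar' : ∀ᶠ s in 𝓝[≠] (0:ℂ), ∀ v ∈ nod a s, v ≠ 0 ∧
      (F s).eval (q^2 * v) = v^D * (F s).eval (q^2 * v⁻¹) := by
    have hc : ((1:ℂ) - q^2) * (1 - q^2) ≠ 0 := mul_ne_zero one_ne one_ne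
    filter_upwards [good a hc] with s hs
    obtain ⟨h1, h2⟩ := hs
    intro v hv
    refine ⟨h1 v hv, ?_⟩
    have hcs : ((nod a s).prod) ^ (a - 1) ≠ 0 := by
      apply pow_ne_zero
      apply List.prod_ne_zero
      intro h0
      exact h1 0 h0 rfl
    set cs := ((nod a s).prod) ^ (a - 1) with hcsd
    have h0 : ∀ z ∈ nod a s ++ List.replicate b (1:ℂ), z ≠ 0 := by
      intro z hz
      rw [List.mem_append] at hz
      rcases hz with hz | hz
      · exact h1 z hz
      · rw [List.eq_of_mem_replicate hz]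
        exact one_ne_zero
    have hst := hstar (nod a s) (List.replicate b 1) v (by rw [nod_length]; exact ha)
      (by simpa using hb) hv h0 (C cs⁻¹ * Q.map (evalRingHom s)) ?_ ?_
    · have hF : F s = C ((nod a s ++ List.replicate b (1:ℂ)).prod * cs) *
          Mp (nod a s ++ List.replicate b 1) (C cs⁻¹ * Q.map (evalRingHom s)) := by
        rw [← MM_eq _ h0]
        simp only [F]
        congr 1
        rw [← mul_assoc, ← C_mul, mul_inv_cancel₀ hcs, C_1, one_mul]
      rw [hF, ev_C_mul, ev_C_mul, hst, List.length_replicate, nod_length]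
      ring
    · intro w
      rw [ev_C_mul, hQ' s w h1, ← mul_assoc, inv_mul_cancel₀ hcs, one_mul]
    · apply fac_ne
      intro y hy
      have h3 : y ∈ 1 :: nod a s := by
        rw [List.mem_append] at hy
        rcases hy with hy | hy
        · exact List.mem_cons_of_mem _ (List.mem_of_mem_erase hy)
        · rw [List.eq_of_mem_replicate hy]
          exact List.mem_cons_self
      have := h2 v hv y h3
      rwa [one_mul] at this
  refine ⟨KK D (q^2) (F 0), ?_, ?_⟩
  · have hdiv := pow_dvd_at_one a D (fun s => KK D (q^2) (F s)) (fun s => KK_deg D (q^2) (F s) (hFd s))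
      ?_ ?_ ?_ ?_
    · simpa using hdiv
    · have h1 := hFC.scale (q^2)
      exact h1.sub (h1.reflect D)
    · refine Filter.Eventually.of_forall fun s => ?_
      rw [KK_eval D (q^2) (F s) (hFd s) one_ne_zero]
      simp
    · intro j hj
      filter_upwards [hstar'] with s hs
      have hv : uu j s ∈ nod a s := by
        unfold nod
        rw [List.mem_ofFn]
        exact ⟨⟨j, hj⟩, rfl⟩
      obtain ⟨h1, h2⟩ := hs _ hv
      rw [KK_eval D (q^2) (F s) (hFd s) h1, h2, sub_self]
    · intro j hj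
      filter_upwards [hstar'] with s hs
      have hv : uu j s ∈ nod a s := by
        unfold nod
        rw [List.mem_ofFn]
        exact ⟨⟨j, hj⟩, rfl⟩
      obtain ⟨h1, h2⟩ := hs _ hv
      rw [KK_eval D (q^2) (F s) (hFd s) (inv_ne_zero h1), inv_inv, h2, ← mul_assoc, ← mul_pow,
        inv_mul_cancel₀ h1, one_pow, one_mul, sub_self]
  · intro w hw
    have hnz : ∀ z ∈ nod a 0, z ≠ 0 := by
      rw [nod_zero]
      intro z hz
      rw [List.eq_of_mem_replicate hz]
      exact one_ne_zero
    have hQP : Q.map (evalRingHom 0) = P := by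
      apply Polynomial.funext
      intro W
      rw [hQ' 0 W hnz, nod_zero, List.prod_replicate, one_pow, one_pow, one_mul, hP]
    have hF0 : F 0 = Mp (List.replicate (a+b) 1) P := by
      have h0 : ∀ z ∈ List.replicate (a+b) (1:ℂ), z ≠ 0 := by
        intro z hz
        rw [List.eq_of_mem_replicate hz]
        exact one_ne_zero
      have := MM_eq (List.replicate (a+b) (1:ℂ)) h0 1 P
      rw [C_1, one_mul, List.prod_replicate, one_pow, mul_one, C_1, one_mul] at this
      rw [← this]
      simp only [F]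
      rw [nod_zero, ← List.replicate_add, hQP]
    rw [KK_eval D (q^2) (F 0) (hFd 0) hw, hF0]


end Pool.Agent.H492C
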