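import Pool.Agent.H492C.C2h
import Pool.Agent.H492C.G1
import Pool.Agent.H492C.C1

/-!
Task C2 of the project CARDY: the relation (*) at one point, for polynomials in `w`.
-/

set_option linter.unusedVariables false

namespace Pool.Agent.H492C

open Pool.Agent.H988R2.Perc hiding X
open Finset Polynomial

theorem starA (A B : List ℂ) (u : ℂ) (hA : Odd A.length) (hB : Odd B.length) (hu : u ∈ A)
    (h0 : ∀ z ∈ A ++ B, z ≠ 0) (P : ℂ[X]) (hP : ∀ w, GR A w B = P.eval w)
    (hg : fac u (A.erase u ++ B) ≠ 0) :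
    (Mp (A ++ B) P).eval (q^2 * u) =
      u^(3 * (A.length + B.length) + 2) * (Mp (A ++ B) P).eval (q^2 * u⁻¹) :=
  starA_of GR_swapA cupA A B u hA hB hu h0 P hP hg

theorem starB (A B : List ℂ) (v : ℂ) (hA : Odd A.length) (hB : Odd B.length) (hv : v ∈ B)
    (h0 : ∀ z ∈ A ++ B, z ≠ 0) (P : ℂ[X]) (hP : ∀ w, GR A w B = P.eval w)
    (hg : fac (q * v) (A ++ B.erase v) ≠ 0) :
    (Mp (A ++ B) P).eval (q * v) =
      v^(3 * (A.length + B.length) + 2) * (Mp (A ++ B) P).eval (q * v⁻¹) :=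
  starB_of GR_swapB cupB A B v hA hB hv h0 P hP hg

end Pool.Agent.H492C
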