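import Pool.Agent.H492C.Defs
import Pool.Agent.H988R2.Perc.T13
import Pool.Agent.H123C.Lim

/-! Confluence: continuity of the glued functional and the abstract limit lemma. -/

namespace Pool.Agent.H492C

open Pool.Agent.H988R2.Perc hiding X
open Pool.Agent.H123C.Lim
open Finset Polynomial Filter Topology

/-! ### sequences of lists -/

/-- value at `n` of a list of sequences -/
def evL (n : ℕ) (F : List ((ℕ → ℂ) × ℂ)) : List ℂ := F.map (fun x => x.1 n)

/-- the list of the limits -/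
def lmL (F : List ((ℕ → ℂ) × ℂ)) : List ℂ := F.map (fun x => x.2)

/-- all sequences converge to the given limits -/
def Cv (F : List ((ℕ → ℂ) × ℂ)) : Prop := ∀ x ∈ F, Tendsto x.1 atTop (𝓝 x.2)

/-- the inverted list -/
noncomputable def ivL (F : List ((ℕ → ℂ) × ℂ)) : List ((ℕ → ℂ) × ℂ) :=
  F.map (fun x => (fun n => (x.1 n)⁻¹, x.2⁻¹))

theorem Cv.iv {F : List ((ℕ → ℂ) × ℂ)} (h : Cv F) (h0 : ∀ x ∈ F, x.2 ≠ 0) : Cv (ivL F) := by
  intro x hx
  obtain ⟨y, hy, rfl⟩ := List.mem_map.mp hx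
  exact (h y hy).inv₀ (h0 y hy)

theorem Cv.append {F G : List ((ℕ → ℂ) × ℂ)} (hF : Cv F) (hG : Cv G) : Cv (F ++ G) := by
  intro x hx
  rcases List.mem_append.mp hx with h | h
  · exact hF x h
  · exact hG x h

theorem Cv.const (w : ℂ) : Cv [((fun _ => w), w)] := by
  intro x hx
  rw [List.mem_singleton] at hx
  subst hx
  exact tendsto_const_nhds

theorem evL_iv (n : ℕ) (F : List ((ℕ → ℂ) × ℂ)) : evL n (ivL F) = (evL n F).map (fun x => x⁻¹) := by
  simp [evL, ivL, List.map_map, Function.comp_def]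

theorem lmL_iv (F : List ((ℕ → ℂ) × ℂ)) : lmL (ivL F) = (lmL F).map (fun x => x⁻¹) := by
  simp [lmL, ivL, List.map_map, Function.comp_def]

theorem tendsto_PD {N d : ℕ} {Φ : List ℂ → ℂ} (hΦ : PD N d Φ) {F : List ((ℕ → ℂ) × ℂ)}
    (hl : F.length = N) (hF : Cv F) : Tendsto (fun n => Φ (evL n F)) atTop (𝓝 (Φ (lmL F))) := by
  obtain ⟨p, _, hp⟩ := hΦ
  have h1 : ∀ n, Φ (evL n F) = MvPolynomial.eval (fun i : Fin N => (evL n F).getD i 0) p :=
    fun n => hp _ (by simp [evL, hl])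
  have h2 : Φ (lmL F) = MvPolynomial.eval (fun i : Fin N => (lmL F).getD i 0) p :=
    hp _ (by simp [lmL, hl])
  simp only [h1, h2]
  have hc : Continuous (fun x : Fin N → ℂ => MvPolynomial.eval x p) := MvPolynomial.continuous_eval p
  refine (hc.tendsto _).comp ?_
  rw [tendsto_pi_nhds]
  intro i
  have e1 : ∀ n, (evL n F).getD i 0 = (F.getD i ((fun _ => 0), 0)).1 n := by
    intro n
    exact List.getD_map (f := fun x : (ℕ → ℂ) × ℂ => x.1 n) (d := ((fun _ => 0), 0)) ..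
  have e2 : (lmL F).getD i 0 = (F.getD i ((fun _ => 0), 0)).2 :=
    List.getD_map (f := fun x : (ℕ → ℂ) × ℂ => x.2) (d := ((fun _ => 0), 0)) ..
  simp only [e1, e2]
  by_cases hi : (i : ℕ) < F.length
  · rw [List.getD_eq_getElem _ _ hi]
    exact hF _ (List.getElem_mem hi)
  · rw [List.getD_eq_default _ _ (by omega)]
    exact tendsto_const_nhds

/-! ### expansion of `GR` -/

open Classical in
/-- the indicator -/
noncomputable def chi3 (a b : ℕ) (w0 w1 w2 : Word) : ℂ :=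
  if jn a (a + 1 + b) (Phi ((a + b + 2) / 2) w0)
    (comb ((a + 1) / 2) (Phi ((a + 1) / 2) w1) (Phi ((b + 1) / 2) w2)) then 1 else 0

theorem pairG_sum {ι κ : Type*} (p r : ℕ) (s : Finset ι) (t : Finset κ) (R : ι → St) (x : ι → ℂ)
    (S : κ → St) (y : κ → ℂ) [∀ i j, Decidable (jn p r (R i) (S j))] :
    pairG p r (∑ i ∈ s, Finsupp.single (R i) (x i)) (∑ j ∈ t, Finsupp.single (S j) (y j)) =
      ∑ i ∈ s, ∑ j ∈ t, x i * y j * (if jn p r (R i) (S j) then 1 else 0) := by
  classical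
  unfold pairG
  rw [← Finsupp.sum_finsetSum_index]
  · refine Finset.sum_congr rfl fun i _ => ?_
    rw [Finsupp.sum_single_index]
    · rw [← Finsupp.sum_finsetSum_index]
      · refine Finset.sum_congr rfl fun j _ => ?_
        rw [Finsupp.sum_single_index]
        · congr
        · simp
      · intro R'; simp
      · intro R' b c; ring
    · simp
  · intro R'; simp
  · intro R' b c
    simp only [add_mul]
    rw [Finsupp.sum_add]

theorem comb2_sum {ι κ : Type*} (k : ℕ) (s : Finset ι) (t : Finset κ) (R : ι → St) (x : ι → ℂ)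
    (S : κ → St) (y : κ → ℂ) :
    comb2 k (∑ i ∈ s, Finsupp.single (R i) (x i)) (∑ j ∈ t, Finsupp.single (S j) (y j)) =
      ∑ z ∈ s ×ˢ t, Finsupp.single (comb k (R z.1) (S z.2)) (x z.1 * y z.2) := by
  classical
  rw [Finset.sum_product]
  unfold comb2
  rw [← Finsupp.sum_finsetSum_index]
  · refine Finset.sum_congr rfl fun i _ => ?_
    rw [Finsupp.sum_single_index]
    · rw [← Finsupp.sum_finsetSum_index]
      · refine Finset.sum_congr rfl fun j _ => ?_
        rw [Finsupp.sum_single_index]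
        simp
      · intro R'; simp
      · intro R' b c; rw [mul_add, Finsupp.single_add]
    · simp
  · intro R'; simp
  · intro R' b c
    simp only [add_mul, Finsupp.single_add]
    rw [Finsupp.sum_add]

theorem GR_expand {a b : ℕ} (A B : List ℂ) (w : ℂ) (hA : A.length = a) (hB : B.length = b) :
    GR A w B = ∑ w0 ∈ LP (a + b + 2), ∑ z ∈ LP (a + 1) ×ˢ LP (b + 1),
      Fw w0 (A ++ w :: (B ++ [0])) * (Fw z.1 (A.map (fun x => x⁻¹) ++ [0]) *
        Fw z.2 (B.map (fun x => x⁻¹) ++ [0])) * chi3 a b w0 z.1 z.2 := by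
  classical
  subst hA; subst hB
  have e0 : (A ++ w :: (B ++ [0])).length = A.length + B.length + 2 := by simp; omega
  have e1 : (A.map (fun x => x⁻¹) ++ [(0:ℂ)]).length = A.length + 1 := by simp
  have e2 : (B.map (fun x => x⁻¹) ++ [(0:ℂ)]).length = B.length + 1 := by simp
  unfold GR up1 Psi
  rw [e0, e1, e2, comb2_sum, pairG_sum]
  rfl

theorem GR_tendsto {A B : List ((ℕ → ℂ) × ℂ)} (hA : Cv A) (hB : Cv B)
    (hA0 : ∀ x ∈ A, x.2 ≠ 0) (hB0 : ∀ x ∈ B, x.2 ≠ 0) (w : ℂ) :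
    Tendsto (fun n => GR (evL n A) w (evL n B)) atTop (𝓝 (GR (lmL A) w (lmL B))) := by
  have e1 : ∀ n, (evL n A).length = A.length := fun n => by simp [evL]
  have e2 : ∀ n, (evL n B).length = B.length := fun n => by simp [evL]
  have e3 : (lmL A).length = A.length := by simp [lmL]
  have e4 : (lmL B).length = B.length := by simp [lmL]
  simp only [GR_expand _ _ w (e1 _) (e2 _), GR_expand _ _ w e3 e4]
  refine tendsto_finsetSum _ fun w0 h0 => tendsto_finsetSum _ fun z hz => ?_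
  rw [Finset.mem_product] at hz
  have c0 : Cv (A ++ (((fun _ => w), w) :: (B ++ [((fun _ => (0:ℂ)), (0:ℂ))]))) := by
    have := hA.append ((Cv.const w).append (hB.append (Cv.const 0)))
    simpa using this
  have c1 : Cv (ivL A ++ [((fun _ => (0:ℂ)), (0:ℂ))]) := (hA.iv hA0).append (Cv.const 0)
  have c2 : Cv (ivL B ++ [((fun _ => (0:ℂ)), (0:ℂ))]) := (hB.iv hB0).append (Cv.const 0)
  have t0 := tendsto_PD (Fw_V h0).pd (by simp; omega) c0
  have t1 := tendsto_PD (Fw_V hz.1).pd (by simp [ivL]) c1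
  have t2 := tendsto_PD (Fw_V hz.2).pd (by simp [ivL]) c2
  have t := ((t0.mul (t1.mul t2)).mul_const (chi3 A.length B.length w0 z.1 z.2))
  have f0 : ∀ n, evL n (A ++ (((fun _ => w), w) :: (B ++ [((fun _ => (0:ℂ)), (0:ℂ))]))) =
      evL n A ++ w :: (evL n B ++ [0]) := fun n => by simp [evL]
  have f0' : lmL (A ++ (((fun _ => w), w) :: (B ++ [((fun _ => (0:ℂ)), (0:ℂ))]))) =
      lmL A ++ w :: (lmL B ++ [0]) := by simp [lmL]
  have f1 : ∀ (n : ℕ) (A : List ((ℕ → ℂ) × ℂ)), evL n (ivL A ++ [((fun _ => (0:ℂ)), (0:ℂ))]) =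
      (evL n A).map (fun x => x⁻¹) ++ [0] := fun n A => by
    rw [← evL_iv]; simp [evL]
  have f1' : ∀ (A : List ((ℕ → ℂ) × ℂ)), lmL (ivL A ++ [((fun _ => (0:ℂ)), (0:ℂ))]) =
      (lmL A).map (fun x => x⁻¹) ++ [0] := fun A => by
    rw [← lmL_iv]; simp [lmL]
  simp only [f0, f0', f1, f1'] at t
  exact t

end Pool.Agent.H492C
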