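import Pool.Agent.H492C.Confl

/-! Abstract confluence lemma. -/

namespace Pool.Agent.H492C

open Pool.Agent.H988R2.Perc hiding X
open Pool.Agent.H123C.Lim
open Finset Polynomial Filter Topology

/-- `M(p w) - w^N M(p/w)` -/
noncomputable def KK (p : ℂ) (N : ℕ) (M : ℂ[X]) : ℂ[X] :=
  ∑ i ∈ range (N+1), C (M.coeff i * p^i) * (X^i - X^(N-i))

theorem KK_eval {p : ℂ} {N : ℕ} {M : ℂ[X]} (hM : M.natDegree ≤ N) {w : ℂ} (hw : w ≠ 0) :
    (KK p N M).eval w = M.eval (p * w) - w^N * M.eval (p * w⁻¹) := by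
  have h : M.natDegree < N + 1 := Nat.lt_succ_of_le hM
  rw [KK, eval_finsetSum, Polynomial.eval_eq_sum_range' h, Polynomial.eval_eq_sum_range' h,
    Finset.mul_sum, ← Finset.sum_sub_distrib]
  refine Finset.sum_congr rfl fun i hi => ?_
  rw [Finset.mem_range] at hi
  simp only [eval_mul, eval_C, eval_sub, eval_pow, eval_X]
  have : w^N = w^(N-i) * w^i := by rw [← pow_add]; congr 1; omega
  rw [mul_pow, mul_pow, this, inv_pow]
  have hwi : w^i ≠ 0 := pow_ne_zero _ hw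
  field_simp

theorem KK_TC {p : ℂ} {N : ℕ} {M : ℕ → ℂ[X]} {M0 : ℂ[X]} (h : TC M M0) :
    TC (fun n => KK p N (M n)) (KK p N M0) := by
  unfold KK
  exact TC.sum _ fun i _ => (TC.C ((h i).mul_const (p^i))).mul (TC.const _)

theorem KK_deg (p : ℂ) (N : ℕ) (M : ℂ[X]) : (KK p N M).natDegree ≤ N := by
  unfold KK
  apply natDegree_sum_le_of_forall_le
  intro i hi
  rw [Finset.mem_range] at hi
  refine natDegree_C_mul_le _ _ |>.trans ?_
  refine (natDegree_sub_le _ _).trans ?_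
  rw [natDegree_X_pow, natDegree_X_pow]
  omega

theorem TC_of_values {m : ℕ} {P : ℕ → ℂ[X]} {P0 : ℂ[X]} (hPd : ∀ n, (P n).natDegree ≤ m)
    (hP0 : P0.natDegree ≤ m)
    (h : ∀ j : ℕ, Tendsto (fun n => (P n).eval (j:ℂ)) atTop (𝓝 (P0.eval (j:ℂ)))) : TC P P0 := by
  classical
  have key : ∀ Q : ℂ[X], Q.natDegree ≤ m → Q = ∑ j ∈ range (m+1),
      C (Q.eval (j:ℂ)) * Lagrange.basis (range (m+1)) (fun j : ℕ => (j:ℂ)) j := by
    intro Q hQ
    have hinj : Set.InjOn (fun j : ℕ => (j:ℂ)) (range (m+1) : Finset ℕ) :=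
      fun x _ y _ hxy => Nat.cast_injective hxy
    have := Lagrange.eq_interpolate (s := range (m+1)) (v := fun j : ℕ => (j:ℂ)) (f := Q) hinj (by
      rw [Finset.card_range]
      exact lt_of_le_of_lt degree_le_natDegree (by exact_mod_cast Nat.lt_succ_of_le hQ))
    rw [Lagrange.interpolate_apply] at this
    exact this
  rw [key P0 hP0]
  have h2 : P = fun n => ∑ j ∈ range (m+1),
      C ((P n).eval (j:ℂ)) * Lagrange.basis (range (m+1)) (fun j : ℕ => (j:ℂ)) j := by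
    funext n
    exact key _ (hPd n)
  rw [h2]
  refine TC.sum _ fun j _ => (TC.C ?_).mul (TC.const _)
  have h3 : (fun n => (P n).eval (j:ℂ)) = fun n => (P n).eval (j:ℂ) := rfl
  have := h j
  rw [h2] at this
  simpa using h j

theorem Mp_deg {l : List ℂ} {m : ℕ} (hl : l.length = m) {P : ℂ[X]} (hP : P.natDegree ≤ m) :
    (Mp l P).natDegree ≤ 3 * m + 2 := by
  unfold Mp
  have h1 : (X^2 - 1 : ℂ[X]).natDegree ≤ 2 := by compute_degree
  have h2 : ((l.map (fun c => (X - C c) * (X - C c⁻¹))).prod : ℂ[X]).natDegree ≤ 2 * m := by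
    rw [← hl]
    clear hl
    induction l with
    | nil => simp
    | cons c l ih =>
      rw [List.map_cons, List.prod_cons, List.length_cons]
      refine natDegree_mul_le.trans ?_
      have : ((X - C c) * (X - C c⁻¹) : ℂ[X]).natDegree ≤ 2 := by compute_degree
      omega
  refine natDegree_mul_le.trans ?_
  have h3 := natDegree_mul_le (p := (X^2 - 1 : ℂ[X]))
    (q := (l.map (fun c => (X - C c) * (X - C c⁻¹))).prod)
  omega

theorem TC_listprod {F : List ((ℕ → ℂ) × ℂ)} (hF : Cv F) (h0 : ∀ x ∈ F, x.2 ≠ 0) :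
    TC (fun n => ((evL n F).map (fun c => (X - C c) * (X - C c⁻¹))).prod)
      ((lmL F).map (fun c => (X - C c) * (X - C c⁻¹))).prod := by
  induction F with
  | nil => simpa [evL, lmL] using TC.const 1
  | cons x F ih =>
    have h1 := ih (fun y hy => hF y (List.mem_cons_of_mem _ hy))
      (fun y hy => h0 y (List.mem_cons_of_mem _ hy))
    have hx := hF x List.mem_cons_self
    have hx0 := h0 x List.mem_cons_self
    have h2 := (((TC.const X).sub (TC.C hx)).mul ((TC.const X).sub (TC.C (hx.inv₀ hx0)))).mul h1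
    simpa [evL, lmL] using h2

theorem Mp_TC {F : List ((ℕ → ℂ) × ℂ)} (hF : Cv F) (h0 : ∀ x ∈ F, x.2 ≠ 0) {P : ℕ → ℂ[X]}
    {P0 : ℂ[X]} (hP : TC P P0) : TC (fun n => Mp (evL n F) (P n)) (Mp (lmL F) P0) := by
  unfold Mp
  exact ((TC.const _).mul (TC_listprod hF h0)).mul hP

/-- the abstract confluence lemma -/
theorem confl {m c : ℕ} (p : ℂ) (F : List ((ℕ → ℂ) × ℂ)) (hFl : F.length = m) (hF : Cv F)
    (h0 : ∀ x ∈ F, x.2 ≠ 0) (P : ℕ → ℂ[X]) (P0 : ℂ[X]) (hPd : ∀ n, (P n).natDegree ≤ m)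
    (hP0d : P0.natDegree ≤ m)
    (hPt : ∀ j : ℕ, Tendsto (fun n => (P n).eval (j:ℂ)) atTop (𝓝 (P0.eval (j:ℂ))))
    (u : Fin c → ℕ → ℂ) (hu : ∀ i, Tendsto (u i) atTop (𝓝 1)) (hu0 : ∀ i n, u i n ≠ 0)
    (hinj : ∀ n, Function.Injective
      (fun x : Fin c × Bool => if x.2 then u x.1 n else (u x.1 n)⁻¹))
    (star : ∀ n i, (Mp (evL n F) (P n)).eval (p * u i n) =
      (u i n)^(3*m+2) * (Mp (evL n F) (P n)).eval (p * (u i n)⁻¹)) :
    ∃ K : ℂ[X], (X - C 1)^(2*c) ∣ K ∧ ∀ w, w ≠ 0 → K.eval w =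
      (Mp (lmL F) P0).eval (p * w) - w^(3*m+2) * (Mp (lmL F) P0).eval (p * w⁻¹) := by
  have hlm : (lmL F).length = m := by simp [lmL, hFl]
  have hev : ∀ n, (evL n F).length = m := fun n => by simp [evL, hFl]
  refine ⟨KK p (3*m+2) (Mp (lmL F) P0), ?_, fun w hw => KK_eval (Mp_deg hlm hP0d) hw⟩
  have hT := KK_TC (p := p) (N := 3*m+2) (Mp_TC hF h0 (TC_of_values hPd hP0d hPt))
  have hcard : (Finset.univ : Finset (Fin c × Bool)).card = 2 * c := by
    rw [Finset.card_univ, Fintype.card_prod, Fintype.card_fin, Fintype.card_bool, mul_comm]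
  rw [← hcard]
  refine lim_dvd Finset.univ (fun x n => if x.2 then u x.1 n else (u x.1 n)⁻¹) 1 ?_
    (fun n => KK_deg p (3*m+2) _) hT ?_
  · rintro ⟨i, b⟩ _
    cases b
    · simpa using (hu i).inv₀ one_ne_zero
    · simpa using hu i
  · intro n
    apply dvd_of_roots _ (hinj n)
    rintro ⟨i, b⟩
    have hd := Mp_deg (hev n) (hPd n)
    cases b
    · simp only [Bool.false_eq_true, if_false]
      rw [KK_eval hd (inv_ne_zero (hu0 i n)), inv_inv, star n i, inv_pow]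
      have := pow_ne_zero (3*m+2) (hu0 i n)
      field_simp
      ring
    · simp only [if_true]
      rw [KK_eval hd (hu0 i n), star n i]
      ring

end Pool.Agent.H492C
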