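import Pool.Agent.H492C.Bridge
import Pool.Agent.H31C.Stubs

/-! Assembly of block A2 (abstract part). -/

namespace Pool.Agent.H492C

open Pool.Agent.H988R2.Perc hiding X
open Finset Polynomial

theorem Mp_eq_Gam (a b : ℕ) (P : ℂ[X]) : Mp (List.replicate (a+b) 1) P = H31C.Gam a b P := by
  unfold Mp H31C.Gam
  simp only [List.map_replicate, List.prod_replicate, inv_one, map_one]
  rw [← pow_two, ← pow_mul]

theorem natDegree_Gam (a b : ℕ) (P : ℂ[X]) (h : P.natDegree ≤ a + b) :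
    (H31C.Gam a b P).natDegree ≤ 3 * (a + b) + 2 := by
  unfold H31C.Gam
  refine natDegree_mul_le.trans ?_
  have h1 : ((X:ℂ[X])^2 - 1).natDegree ≤ 2 := by
    refine (natDegree_sub_le _ _).trans ?_
    simp
  have h2 : (((X:ℂ[X]) - 1)^(2*(a+b))).natDegree ≤ 2 * (a+b) := by
    refine natDegree_pow_le.trans ?_
    have : ((X:ℂ[X]) - 1).natDegree ≤ 1 := by
      refine (natDegree_sub_le _ _).trans ?_
      simp
    nlinarith
  have h3 := natDegree_mul_le (p := (X:ℂ[X])^2 - 1) (q := ((X:ℂ[X]) - 1)^(2*(a+b)))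
  omega

theorem eval_reflect (N : ℕ) (f : ℂ[X]) (hf : f.natDegree ≤ N) (w : ℂ) (hw : w ≠ 0) :
    (reflect N f).eval w = w^N * f.eval w⁻¹ := by
  let _ : Invertible w⁻¹ := invertibleOfNonzero (inv_ne_zero hw)
  have h := eval₂_reflect_mul_pow (RingHom.id ℂ) w⁻¹ N f hf
  have e : ⅟(w⁻¹) = w := by rw [invOf_eq_inv, inv_inv]
  rw [e] at h
  change (reflect N f).eval w * (w⁻¹)^N = f.eval w⁻¹ at h
  rw [← h]
  have h4 : (w⁻¹)^N * w^N = 1 := by rw [← mul_pow, inv_mul_cancel₀ hw, one_pow]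
  linear_combination (-(reflect N f).eval w) * h4

theorem natDegree_comp_le' (f : ℂ[X]) (c : ℂ) (N : ℕ) (hf : f.natDegree ≤ N) :
    (f.comp (C c * X)).natDegree ≤ N := by
  refine natDegree_comp_le.trans ?_
  have : (C c * X : ℂ[X]).natDegree ≤ 1 := (natDegree_C_mul_le c X).trans natDegree_X_le
  nlinarith

theorem eval_anti (N : ℕ) (c : ℂ) (f : ℂ[X]) (hf : f.natDegree ≤ N) (w : ℂ) (hw : w ≠ 0) :
    (H31C.anti N c f).eval w = f.eval (c * w) - w^N * f.eval (c * w⁻¹) := by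
  unfold H31C.anti
  rw [eval_sub, eval_reflect N _ (natDegree_comp_le' f c N hf) w hw]
  simp

theorem reflect_anti (N : ℕ) (c : ℂ) (f : ℂ[X]) :
    reflect N (H31C.anti N c f) = - H31C.anti N c f := by
  unfold H31C.anti
  rw [reflect_sub, reflect_reflect]
  ring

/-- an antisymmetric polynomial divisible by an even power of `X-1` is divisible by the next -/
theorem dvd_succ (N m : ℕ) (f : ℂ[X]) (hd : f.natDegree ≤ N) (hf : reflect N f = - f)
    (h : (X - 1 : ℂ[X])^(2*m) ∣ f) : (X - 1 : ℂ[X])^(2*m+1) ∣ f := by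
  obtain ⟨Q, hQ⟩ := h
  have key : ∀ w : ℂ, w ≠ 0 → w ≠ 1 → w^N * Q.eval w⁻¹ * (w⁻¹)^(2*m) = - Q.eval w := by
    intro w hw hw1
    have h1 := eval_reflect N f hd w hw
    rw [hf, eval_neg, hQ, eval_mul, eval_mul] at h1
    simp only [eval_pow, eval_sub, eval_X, eval_one] at h1
    have h2 : (w⁻¹ - 1)^(2*m) = (w - 1)^(2*m) * (w⁻¹)^(2*m) := by
      rw [← mul_pow, pow_mul, pow_mul]
      congr 1
      field_simp
      ring
    rw [h2] at h1
    have h3 : (w - 1)^(2*m) ≠ 0 := pow_ne_zero _ (sub_ne_zero.2 hw1)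
    apply mul_left_cancel₀ h3
    linear_combination -h1
  have hlim : Q.eval 1 = - Q.eval 1 := by
    have hc1 : Filter.Tendsto (fun w : ℂ => w^N * Q.eval w⁻¹ * (w⁻¹)^(2*m)) (nhdsWithin 1 {1}ᶜ)
        (nhds (1^N * Q.eval (1:ℂ)⁻¹ * ((1:ℂ)⁻¹)^(2*m))) := by
      have hinv : ContinuousAt (fun w : ℂ => w⁻¹) 1 := continuousAt_inv₀ one_ne_zero
      have : ContinuousAt (fun w : ℂ => w^N * Q.eval w⁻¹ * (w⁻¹)^(2*m)) 1 :=
        ((continuousAt_id.pow N).mul
          ((Q.continuous.continuousAt (x := (1:ℂ)⁻¹)).comp_of_eq hinv rfl)).mul (hinv.pow _)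
      exact this.tendsto.mono_left nhdsWithin_le_nhds
    have hc2 : Filter.Tendsto (fun w : ℂ => - Q.eval w) (nhdsWithin 1 {1}ᶜ) (nhds (- Q.eval 1)) :=
      (Q.continuous.neg.continuousAt (x := (1:ℂ))).tendsto.mono_left nhdsWithin_le_nhds
    have he : (fun w : ℂ => w^N * Q.eval w⁻¹ * (w⁻¹)^(2*m)) =ᶠ[nhdsWithin 1 {1}ᶜ]
        (fun w : ℂ => - Q.eval w) := by
      have h0 : ∀ᶠ w : ℂ in nhdsWithin 1 {1}ᶜ, w ≠ 0 :=
        nhdsWithin_le_nhds (isOpen_ne.mem_nhds one_ne_zero)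
      have h1 : ∀ᶠ w : ℂ in nhdsWithin 1 {1}ᶜ, w ≠ 1 := self_mem_nhdsWithin
      filter_upwards [h0, h1] with w hw hw1
      exact key w hw hw1
    have := tendsto_nhds_unique (hc1.congr' he) hc2
    simpa using this
  have h0 : Q.eval 1 = 0 := by
    have : (2:ℂ) * Q.eval 1 = 0 := by linear_combination hlim
    simpa using this
  have hdv : (X - C 1 : ℂ[X]) ∣ Q := dvd_iff_isRoot.2 h0
  rw [map_one] at hdv
  rw [hQ, pow_succ]
  exact mul_dvd_mul_left _ hdv

theorem left_of_K (N m : ℕ) (c : ℂ) (f K : ℂ[X]) (hf : f.natDegree ≤ N)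
    (h1 : (X - C 1)^(2*m) ∣ K)
    (h2 : ∀ w, w ≠ 0 → K.eval w = f.eval (c * w) - w^N * f.eval (c * w⁻¹)) :
    (X - 1)^(2*m+1) ∣ H31C.anti N c f := by
  have e : K = H31C.anti N c f := by
    refine Polynomial.eq_of_infinite_eval_eq _ _ ?_
    refine Set.Infinite.mono ?_ (Set.finite_singleton (0:ℂ)).infinite_compl
    intro w hw
    have hw0 : w ≠ 0 := by simpa using hw
    show K.eval w = _
    rw [h2 w hw0, eval_anti N c f hf w hw0]
  rw [map_one] at h1
  rw [e] at h1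
  refine dvd_succ N m _ ?_ (reflect_anti N c f) h1
  unfold H31C.anti
  refine (natDegree_sub_le _ _).trans (max_le (natDegree_comp_le' f c N hf) ?_)
  exact natDegree_reflect_le.trans (max_le le_rfl (natDegree_comp_le' f c N hf))

end Pool.Agent.H492C
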