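import Pool.Agent.H492C.Defs
import Pool.Agent.H492C.P1
import Pool.Agent.H492C.P2
import Pool.Agent.H988R2.Perc.T14

/-! Task G3A: pair annihilation in the first group. -/

namespace Pool.Agent.H492C

open Pool.Agent.H988R2.Perc hiding X
open Finset Polynomial

theorem GR_pairA (A B : List ℂ) (x w : ℂ) (hA : Odd A.length) (hB : Odd B.length) (hx : x ≠ 0) :
    GR (x :: (q^2 * x) :: A) w B =
      fac x (A ++ w :: (B ++ [0])) * fac (q^2 * x)⁻¹ (A.map (fun x => x⁻¹) ++ [0]) * GR A w B := by
  have hq0 := q_ne_zero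
  have hq3 := q_cube
  obtain ⟨a, ha⟩ := hA
  obtain ⟨b, hb⟩ := hB
  have hpar : Even (([] : List ℂ).length + (A ++ w :: (B ++ [0])).length) := by
    simp only [List.length_nil, List.length_append, List.length_cons]
    exact ⟨a + b + 2, by omega⟩
  have hpar' : Even (([] : List ℂ).length + (A.map (fun x => x⁻¹) ++ [0]).length) := by
    simp only [List.length_nil, List.length_append, List.length_cons, List.length_map]
    exact ⟨a + 1, by omega⟩
  set y' := (q^2 * x)⁻¹ with hy'
  have hy'0 : y' ≠ 0 := inv_ne_zero (mul_ne_zero (pow_ne_zero _ hq0) hx)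
  have hxy : x⁻¹ = q^2 * y' := by
    rw [hy', mul_inv, ← mul_assoc, mul_inv_cancel₀ (pow_ne_zero _ hq0), one_mul]
  have r1 := Psi_rec [] (A ++ w :: (B ++ [0])) x hpar
  have r2 := Psi_rec [] (A.map (fun x => x⁻¹) ++ [0]) y' hpar'
  have e1 := Psi_exch [] (A.map (fun x => x⁻¹) ++ [0]) (q^2 * y') y' hpar'
  set H := Psi ([] ++ (A ++ w :: (B ++ [0]))) with hH
  set K := Psi ([] ++ (A.map (fun x => x⁻¹) ++ [0])) with hK
  set G := Psi ([] ++ (q^2 * y') :: y' :: (A.map (fun x => x⁻¹) ++ [0])) with hG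
  have hc1 : q * (q^2 * y') - q^2 * y' = (1 - q^2) * y' := by
    linear_combination y' * hq3
  have hc2 : q * y' - q^2 * (q^2 * y') = 0 := by
    linear_combination (-q * y') * hq3
  have hc3 : y' - q^2 * y' = (1 - q^2) * y' := by ring
  rw [hc1, hc2, hc3, zero_smul, zero_add] at e1
  have hne : (1 - q^2) * y' ≠ 0 :=
    mul_ne_zero (sub_ne_zero.2 (Ne.symm q_sq_ne_one)) hy'0
  have e2 : Psi ([] ++ y' :: (q^2 * y') :: (A.map (fun x => x⁻¹) ++ [0])) =
      Finsupp.mapDomain (St.act 0) G := by
    have := congrArg (fun F => ((1 - q^2) * y')⁻¹ • F) e1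
    simp only [smul_smul, inv_mul_cancel₀ hne, one_smul] at this
    exact this
  rw [e2] at r2
  have r1' : Psi ((x :: (q^2 * x) :: A) ++ w :: (B ++ [0])) =
      fac x (A ++ w :: (B ++ [0])) • Finsupp.mapDomain (St.ins 0) H := r1
  have t1 : up1 (x :: (q^2 * x) :: A) = G := by
    unfold up1
    rw [hG]
    congr 1
    simp only [List.map_cons, List.cons_append, List.nil_append, ← hxy, ← hy']
  have t2 : up1 A = K := rfl
  have s1 : Finsupp.mapDomain (St.ins 0) H =
      Finsupp.mapDomain (St.act 0) (Finsupp.mapDomain (St.ins 0) H) := by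
    rw [← Finsupp.mapDomain_comp]
    congr 1
    funext R
    exact (St.act_ins_self 0 R).symm
  unfold GR
  rw [r1', t1, t2, pairG_smul_left, s1]
  have hl : (x :: (q^2 * x) :: A).length = A.length + 2 := by
    simp only [List.length_cons]
  rw [hl, pairG_act (by omega) (by omega)]
  rw [← comb2_act_left (by omega)]
  have r2' : Finsupp.mapDomain (St.act 0) G =
      fac y' (A.map (fun x => x⁻¹) ++ [0]) • Finsupp.mapDomain (St.ins 0) K := r2
  have hk : (A.length + 2 + 1) / 2 = (A.length + 1) / 2 + 1 := by omega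
  rw [r2', comb2_smul_left, pairG_smul_right, hk, comb2_ins_left]
  have u1 : St.up 0 A.length = A.length + 2 := by unfold St.up; split_ifs <;> omega
  have u2 : St.up 0 (A.length + 1 + B.length) = A.length + 2 + 1 + B.length := by
    unfold St.up; split_ifs <;> omega
  rw [← u2, ← u1, pairG_ins (by decide)]
  rw [mul_assoc]
  rfl

end Pool.Agent.H492C
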