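import Pool.Agent.H492C.Defs
import Pool.Agent.H988R2.Perc.T18

/-! task G5: the smallest case -/

set_option autoImplicit false

namespace Pool.Agent.H492C

open Pool.Agent.H988R2.Perc hiding X
open Pool.Agent.H988R2.Perc.T18
open Finset Polynomial

theorem G5_comb_bot : comb 1 St.bot St.bot = St.bot := by
  ext a b
  show (a = b ∨ (a < 2*1 ∧ b < 2*1 ∧ a = b) ∨ (2*1 ≤ a ∧ 2*1 ≤ b ∧ a - 2*1 = b - 2*1)) ↔ a = b
  omega

theorem G5_comb2 : comb2 1 (Finsupp.single St.bot 1) (Finsupp.single St.bot 1) =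
    Finsupp.single St.bot 1 := by
  unfold comb2
  rw [Finsupp.sum_single_index, Finsupp.sum_single_index, G5_comb_bot, mul_one]
  · rw [mul_zero, Finsupp.single_zero]
  · simp [Finsupp.sum]

theorem G5_pairG (f g : St →₀ ℂ) : pairG 1 3 f g = pair 3 f g := by
  unfold pairG pair
  refine Finsupp.sum_congr (fun R _ => Finsupp.sum_congr (fun R' _ => ?_))
  have h0 : jn 1 3 R R' ↔ conn 3 R R' := Iff.rfl
  by_cases h : conn 3 R R'
  · rw [if_pos h, if_pos (h0.2 h)]
  · rw [if_neg h, if_neg (fun h' => h (h0.1 h'))]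

theorem GR_base (x y w : ℂ) : GR [x] w [y] = - y * (w - q^2 * x) * (x * w - q^2) := by
  have h1 : GR [x] w [y] = pairG 1 3 (Psi [x, w, y, 0])
      (comb2 1 (Psi [x⁻¹, 0]) (Psi [y⁻¹, 0])) := by
    have e1 : ([x] : List ℂ).length = 1 := rfl
    have e2 : ([y] : List ℂ).length = 1 := rfl
    have e3 : (1 + 1 + 1 : ℕ) = 3 := rfl
    have e4 : ((1 + 1) / 2 : ℕ) = 1 := rfl
    have e5 : up1 [x] = Psi [x⁻¹, 0] := rfl
    have e6 : up1 [y] = Psi [y⁻¹, 0] := rfl
    have e7 : ([x] ++ w :: ([y] ++ [0]) : List ℂ) = [x, w, y, 0] := rfl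
    unfold GR
    rw [e1, e2, e3, e4, e5, e6, e7]
  have h2 : (Finsupp.single St.bot 1 : St →₀ ℂ) = Finsupp.single J 0 + Finsupp.single St.bot 1 := by
    rw [Finsupp.single_zero, zero_add]
  rw [h1, G5_pairG, Psi_two, Psi_two, G5_comb2, h2, Psi_four _ rfl, pair_four, f_formula]
  have h3 := q_cube
  linear_combination (- y * (w - q^2 * x) * (x * w - q^2)) * h3

theorem TT_base (x y w : ℂ) :
    TT [x] w [y] = q^2 * (x * y + y * w + x * w + x^2 * y * w + x * y^2 * w + x * y * w^2) := by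
  have h1 : TT [x] w [y] = Z [x⁻¹, 0] * Z [y⁻¹, 0] * Z [x, w, y, 0] := rfl
  rw [h1, Z_two, Z_two, Z_four, f_formula, g_formula]
  unfold G
  have h := q_spec
  generalize q = q at *
  grind

end Pool.Agent.H492C
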