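import Pool.Agent.H492C.Defs
import Pool.Agent.H988R2.Perc.T13

/-!
Joint polynomiality of `GR` along polynomial families of parameters (helper212).
-/

namespace Pool.Agent.H492C

open Pool.Agent.H988R2.Perc hiding X
open Finset Polynomial

theorem joint_sum_fin {ι M : Type*} [AddCommMonoid M] (s : Finset ι) (x : ι → St) (c : ι → ℂ)
    (φ : St → ℂ → M) (h0 : ∀ R, φ R 0 = 0) (hadd : ∀ R a b, φ R (a + b) = φ R a + φ R b) :
    (∑ i ∈ s, Finsupp.single (x i) (c i)).sum φ = ∑ i ∈ s, φ (x i) (c i) := by
  classical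
  induction s using Finset.induction_on with
  | empty => simp
  | insert i s hi ih =>
    rw [Finset.sum_insert hi, Finset.sum_insert hi,
      Finsupp.sum_add_index' h0 hadd, Finsupp.sum_single_index (h0 _), ih]

open Classical in
/-- indicator -/
noncomputable def joint_ind (a b : ℕ) (w0 w1 w2 : Word) : ℂ :=
  if jn a (a + 1 + b) (Phi ((a + b + 2) / 2) w0)
    (comb ((a + 1) / 2) (Phi ((a + 1) / 2) w1) (Phi ((b + 1) / 2) w2)) then 1 else 0

theorem joint_GR_eq (A B : List ℂ) (w : ℂ) : GR A w B =
    ∑ w0 ∈ LP (A.length + B.length + 2), ∑ w1 ∈ LP (A.length + 1), ∑ w2 ∈ LP (B.length + 1),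
      Fw w0 (A ++ w :: (B ++ [0])) * (Fw w1 (A.map (fun x => x⁻¹) ++ [0]) *
        Fw w2 (B.map (fun x => x⁻¹) ++ [0])) * joint_ind A.length B.length w0 w1 w2 := by
  classical
  have l0 : (A ++ w :: (B ++ [0])).length = A.length + B.length + 2 := by
    simp
    omega
  have l1 : (A.map (fun x => x⁻¹) ++ [0]).length = A.length + 1 := by simp
  have l2 : (B.map (fun x => x⁻¹) ++ [0]).length = B.length + 1 := by simp
  unfold GR pairG comb2 up1 Psi
  rw [l0, l1, l2]
  rw [joint_sum_fin]
  · refine Finset.sum_congr rfl fun w0 _ => ?_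
    have e1 : (∑ w1 ∈ LP (A.length + 1), Finsupp.single (Phi ((A.length + 1) / 2) w1)
        (Fw w1 (A.map (fun x => x⁻¹) ++ [0]))).sum (fun R a =>
        (∑ w2 ∈ LP (B.length + 1), Finsupp.single (Phi ((B.length + 1) / 2) w2)
        (Fw w2 (B.map (fun x => x⁻¹) ++ [0]))).sum fun R' b =>
          Finsupp.single (comb ((A.length + 1) / 2) R R') (a * b)) =
        ∑ x ∈ LP (A.length + 1) ×ˢ LP (B.length + 1),
          Finsupp.single (comb ((A.length + 1) / 2) (Phi ((A.length + 1) / 2) x.1)
            (Phi ((B.length + 1) / 2) x.2)) (Fw x.1 (A.map (fun x => x⁻¹) ++ [0]) *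
            Fw x.2 (B.map (fun x => x⁻¹) ++ [0])) := by
      rw [joint_sum_fin, Finset.sum_product]
      · refine Finset.sum_congr rfl fun w1 _ => ?_
        rw [joint_sum_fin]
        · intro R
          simp
        · intro R a b
          rw [mul_add, Finsupp.single_add]
      · intro R
        simp
      · intro R a b
        rw [← Finsupp.sum_add]
        refine Finsupp.sum_congr fun R' _ => ?_
        rw [add_mul, Finsupp.single_add]
    rw [e1, joint_sum_fin]
    · rw [Finset.sum_product]
      rfl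
    · intro R
      simp
    · intro R a b
      ring
  · intro R
    simp
  · intro R a b
    rw [← Finsupp.sum_add]
    refine Finsupp.sum_congr fun R' _ => ?_
    ring

/-- a polynomial function along polynomial families, with one free variable -/
theorem joint_biv {N d : ℕ} {F : List ℂ → ℂ} (hF : PD N d F) (A B : List ℂ[X])
    (hN : A.length + B.length + 2 = N) :
    ∃ Q : ℂ[X][X], Q.natDegree ≤ d ∧ ∀ s W : ℂ, (Q.map (evalRingHom s)).eval W =
      F (A.map (fun p => p.eval s) ++ W :: (B.map (fun p => p.eval s) ++ [0])) := by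
  obtain ⟨p, hp, hp'⟩ := hF
  let v : Fin N → ℂ[X][X] := fun i => (A.map C ++ X :: (B.map C ++ [0])).getD i 0
  refine ⟨MvPolynomial.eval₂ ((C : ℂ[X] →+* ℂ[X][X]).comp (C : ℂ →+* ℂ[X])) v p, ?_, ?_⟩
  · rw [MvPolynomial.eval₂_eq']
    refine Polynomial.natDegree_sum_le_of_forall_le _ _ fun m hm => ?_
    refine (Polynomial.natDegree_mul_le).trans ?_
    have hC : ((((C : ℂ[X] →+* ℂ[X][X]).comp (C : ℂ →+* ℂ[X])) (MvPolynomial.coeff m p))).natDegree
        = 0 := by
      simp
    rw [hC, zero_add]
    refine (Polynomial.natDegree_prod_le _ _).trans ?_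
    have hA : A.length < N := by omega
    have hv : ∀ i : Fin N, (v i ^ m i).natDegree ≤ if i = ⟨A.length, hA⟩ then m i else 0 := by
      intro i
      refine Polynomial.natDegree_pow_le.trans ?_
      by_cases hi : i = ⟨A.length, hA⟩
      · rw [if_pos hi]
        have : v i = X := by
          subst hi
          simp only [v]
          rw [List.getD_eq_getElem?_getD, List.getElem?_append_right (by simp)]
          simp
        rw [this, Polynomial.natDegree_X, mul_one]
      · rw [if_neg hi]
        have hi' : (i : ℕ) ≠ A.length := fun h => hi (Fin.ext h)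
        have : (v i).natDegree = 0 := by
          simp only [v]
          rw [List.getD_eq_getElem?_getD]
          rcases lt_or_gt_of_ne hi' with h | h
          · rw [List.getElem?_append_left (by simpa using h), List.getElem?_map]
            cases A[(i : ℕ)]? <;> simp
          · rw [List.getElem?_append_right (by simp; omega)]
            obtain ⟨k, hk⟩ : ∃ k, (i : ℕ) - (A.map (C : ℂ[X] →+* ℂ[X][X])).length = k + 1 :=
              ⟨(i : ℕ) - A.length - 1, by rw [List.length_map]; omega⟩
            rw [hk, List.getElem?_cons_succ]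
            by_cases hkB : k < B.length
            · rw [List.getElem?_append_left (by simpa using hkB), List.getElem?_map]
              cases B[k]? <;> simp
            · rw [List.getElem?_append_right (by simp; omega)]
              rcases Nat.eq_zero_or_pos (k - (B.map (C : ℂ[X] →+* ℂ[X][X])).length) with h0 | h0
              · rw [h0]
                simp
              · rw [List.getElem?_eq_none (by simp only [List.length_map, List.length_cons, List.length_nil] at h0 ⊢; omega)]
                simp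
        rw [this, mul_zero]
    calc ∑ i : Fin N, (v i ^ m i).natDegree ≤ ∑ i : Fin N, (if i = ⟨A.length, hA⟩ then m i else 0) :=
          Finset.sum_le_sum fun i _ => hv i
      _ = m ⟨A.length, hA⟩ := by
          rw [Finset.sum_ite_eq' Finset.univ]
          simp
      _ ≤ MvPolynomial.degreeOf ⟨A.length, hA⟩ p := MvPolynomial.le_degreeOf_of_mem_support _ hm
      _ ≤ d := hp _
  · intro s W
    rw [hp' _ (by simp; omega)]
    let Θ : ℂ[X][X] →+* ℂ := (evalRingHom W).comp (mapRingHom (evalRingHom s))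
    have h1 : ∀ Q : ℂ[X][X], (Q.map (evalRingHom s)).eval W = Θ Q := fun Q => rfl
    rw [h1, MvPolynomial.eval₂_comp_left]
    have h2 : Θ.comp ((C : ℂ[X] →+* ℂ[X][X]).comp (C : ℂ →+* ℂ[X])) = RingHom.id ℂ := by
      ext z
      simp [Θ]
    rw [h2]
    have h3 : (⇑Θ ∘ v) = fun i : Fin N =>
        (A.map (fun p => p.eval s) ++ W :: (B.map (fun p => p.eval s) ++ [0])).getD i 0 := by
      funext i
      have h4 : (A.map (fun p => p.eval s) ++ W :: (B.map (fun p => p.eval s) ++ [0])) =
          (A.map C ++ X :: (B.map C ++ [0])).map Θ := by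
        simp [Θ, Function.comp_def]
      simp only [Function.comp_apply, v]
      rw [h4, List.getD_eq_getElem?_getD, List.getD_eq_getElem?_getD, List.getElem?_map]
      cases (A.map C ++ X :: (B.map C ++ [0]))[(i : ℕ)]? <;> simp
    rw [h3]
    rfl

theorem joint_prod_list (A : List ℂ) : A.prod = ∏ i : Fin A.length, A.getD i 0 := by
  conv_lhs => rw [← List.ofFn_getElem (xs := A)]
  rw [List.prod_ofFn]
  refine Finset.prod_congr rfl fun i _ => ?_
  simp

/-- a polynomial function at inverted families, after multiplication by a power of the product -/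
theorem joint_inv {d : ℕ} {F : List ℂ → ℂ} (A : List ℂ[X]) (hF : PD (A.length + 1) d F) :
    ∃ Q : ℂ[X], ∀ s : ℂ, (∀ x ∈ A, x.eval s ≠ 0) → Q.eval s =
      ((A.map (fun p : ℂ[X] => p.eval s)).prod) ^ d *
        F ((A.map (fun p : ℂ[X] => p.eval s)).map (fun x : ℂ => x⁻¹) ++ [0]) := by
  obtain ⟨p, hp, hp'⟩ := hF
  refine ⟨∑ m ∈ p.support, C (MvPolynomial.coeff m p) *
    ((∏ i : Fin A.length, (A.getD i 0) ^ (d - m i.castSucc)) * (0 : ℂ[X]) ^ (m (Fin.last _))), ?_⟩
  intro s hs
  rw [hp' _ (by simp), MvPolynomial.eval_eq', Polynomial.eval_finsetSum, Finset.mul_sum]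
  refine Finset.sum_congr rfl fun m hm => ?_
  rw [Fin.prod_univ_castSucc, joint_prod_list]
  have hlast : ((A.map (fun p : ℂ[X] => p.eval s)).map (fun x : ℂ => x⁻¹) ++ [0]).getD
      ((Fin.last A.length : Fin (A.length + 1)) : ℕ) 0 = 0 := by
    rw [List.getD_eq_getElem?_getD, List.getElem?_append_right (by simp)]
    simp
  rw [hlast]
  have hprod : (∏ i : Fin (A.map (fun p : ℂ[X] => p.eval s)).length, (A.map (fun p : ℂ[X] => p.eval s)).getD i 0) =
      ∏ i : Fin A.length, (A.getD i 0).eval s := by
    have hl : (A.map (fun p : ℂ[X] => p.eval s)).length = A.length := List.length_map _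
    rw [← (finCongr hl).prod_comp]
    refine Finset.prod_congr rfl fun i _ => ?_
    have hi : (i : ℕ) < A.length := lt_of_lt_of_eq i.2 hl
    rw [List.getD_eq_getElem?_getD, List.getElem?_map, List.getD_eq_getElem?_getD]
    simp [hi]
  rw [hprod]
  simp only [Polynomial.eval_mul, Polynomial.eval_C, Polynomial.eval_prod, Polynomial.eval_pow,
    Polynomial.eval_zero]
  have hfac : ∀ i : Fin A.length, ((A.getD i 0).eval s) ^ (d - m i.castSucc) =
      ((A.getD i 0).eval s) ^ d * (((A.map (fun p : ℂ[X] => p.eval s)).map (fun x : ℂ => x⁻¹) ++ [0]).getD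
        ((i.castSucc : Fin (A.length + 1)) : ℕ) 0) ^ (m i.castSucc) := by
    intro i
    have hi : (i : ℕ) < A.length := i.2
    have h1 : ((A.map (fun p : ℂ[X] => p.eval s)).map (fun x : ℂ => x⁻¹) ++ [0]).getD
        ((i.castSucc : Fin (A.length + 1)) : ℕ) 0 = ((A.getD i 0).eval s)⁻¹ := by
      rw [List.getD_eq_getElem?_getD, List.getElem?_append_left (by simp), List.getElem?_map,
        List.getElem?_map, List.getD_eq_getElem?_getD]
      simp [hi]
    have h2 : (A.getD i 0).eval s ≠ 0 := by
      apply hs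
      rw [List.getD_eq_getElem _ _ hi]
      exact List.getElem_mem hi
    have h3 : m i.castSucc ≤ d :=
      (MvPolynomial.le_degreeOf_of_mem_support _ hm).trans (hp _)
    rw [h1, inv_pow]
    rw [eq_mul_inv_iff_mul_eq₀ (pow_ne_zero _ h2), ← pow_add]
    congr 1
    omega
  rw [Finset.prod_congr rfl fun i _ => hfac i, Finset.prod_mul_distrib, Finset.prod_pow]
  ring

/-- **Joint polynomiality.** -/
theorem joint_GR (A B : List ℂ[X]) :
    ∃ Q : ℂ[X][X], Q.natDegree ≤ A.length + B.length ∧
      ∀ s W : ℂ, (∀ x ∈ A ++ B, x.eval s ≠ 0) → (Q.map (evalRingHom s)).eval W =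
        ((A.map (fun p => p.eval s)).prod) ^ (A.length - 1) *
          ((B.map (fun p => p.eval s)).prod) ^ (B.length - 1) *
          GR (A.map (fun p => p.eval s)) W (B.map (fun p => p.eval s)) := by
  classical
  have h0 : ∀ w0 ∈ LP (A.length + B.length + 2), ∃ Q : ℂ[X][X],
      Q.natDegree ≤ A.length + B.length ∧ ∀ s W : ℂ, (Q.map (evalRingHom s)).eval W =
      Fw w0 (A.map (fun p => p.eval s) ++ W :: (B.map (fun p => p.eval s) ++ [0])) := by
    intro w0 hw0
    have h := (Fw_V hw0).pd
    rw [Nat.add_sub_cancel] at h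
    exact joint_biv h A B rfl
  have h1 : ∀ w1 ∈ LP (A.length + 1), ∃ Q : ℂ[X], ∀ s : ℂ, (∀ x ∈ A, x.eval s ≠ 0) → Q.eval s =
      ((A.map (fun p => p.eval s)).prod) ^ (A.length - 1) *
        Fw w1 ((A.map (fun p => p.eval s)).map (fun x => x⁻¹) ++ [0]) := by
    intro w1 hw1
    have h := (Fw_V hw1).pd
    have e : A.length + 1 - 2 = A.length - 1 := by omega
    rw [e] at h
    exact joint_inv A h
  have h2 : ∀ w2 ∈ LP (B.length + 1), ∃ Q : ℂ[X], ∀ s : ℂ, (∀ x ∈ B, x.eval s ≠ 0) → Q.eval s =
      ((B.map (fun p => p.eval s)).prod) ^ (B.length - 1) *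
        Fw w2 ((B.map (fun p => p.eval s)).map (fun x => x⁻¹) ++ [0]) := by
    intro w2 hw2
    have h := (Fw_V hw2).pd
    have e : B.length + 1 - 2 = B.length - 1 := by omega
    rw [e] at h
    exact joint_inv B h
  choose! Q0 hQ0 hQ0e using h0
  choose! Q1 hQ1 using h1
  choose! Q2 hQ2 using h2
  refine ⟨∑ w0 ∈ LP (A.length + B.length + 2), ∑ w1 ∈ LP (A.length + 1),
    ∑ w2 ∈ LP (B.length + 1), Q0 w0 * C (Q1 w1 * Q2 w2 *
      C (joint_ind A.length B.length w0 w1 w2)), ?_, ?_⟩
  · refine Polynomial.natDegree_sum_le_of_forall_le _ _ fun w0 hw0 => ?_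
    refine Polynomial.natDegree_sum_le_of_forall_le _ _ fun w1 _ => ?_
    refine Polynomial.natDegree_sum_le_of_forall_le _ _ fun w2 _ => ?_
    refine (Polynomial.natDegree_mul_le).trans ?_
    rw [Polynomial.natDegree_C, add_zero]
    exact hQ0 w0 hw0
  · intro s W hs
    have hsA : ∀ x ∈ A, x.eval s ≠ 0 := fun x hx => hs x (List.mem_append_left _ hx)
    have hsB : ∀ x ∈ B, x.eval s ≠ 0 := fun x hx => hs x (List.mem_append_right _ hx)
    rw [joint_GR_eq]
    simp only [List.length_map]
    rw [Polynomial.map_sum, Polynomial.eval_finsetSum, Finset.mul_sum]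
    refine Finset.sum_congr rfl fun w0 hw0 => ?_
    rw [Polynomial.map_sum, Polynomial.eval_finsetSum, Finset.mul_sum]
    refine Finset.sum_congr rfl fun w1 hw1 => ?_
    rw [Polynomial.map_sum, Polynomial.eval_finsetSum, Finset.mul_sum]
    refine Finset.sum_congr rfl fun w2 hw2 => ?_
    rw [Polynomial.map_mul, Polynomial.eval_mul, hQ0e w0 hw0, Polynomial.map_C, Polynomial.eval_C]
    simp only [coe_evalRingHom, Polynomial.eval_mul, Polynomial.eval_C]
    rw [hQ1 w1 hw1 s hsA, hQ2 w2 hw2 s hsB]
    ring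

end Pool.Agent.H492C
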