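import Pool.Agent.H492C.Defs
import Pool.Agent.H988R2.Perc.T19

/-! Statements (A2), glued qKZ vectors. Each theorem below is a task. -/

namespace Pool.Agent.H492C

open Pool.Agent.H988R2.Perc hiding X
open Finset Polynomial

/-! ### task S1: states -/

theorem jn_act {p r i : ℕ} (hp : p ≠ i+1) (hr : r ≠ i+1) (R R' : St) :
    jn p r (St.act i R) R' ↔ jn p r R (St.act i R') := by sorry

theorem jn_ins {p r i : ℕ} (hi : Even i) (R R' : St) :
    jn (St.up i p) (St.up i r) (St.ins i R) (St.ins i R') ↔ jn p r R R' := by sorry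

theorem jn_isol {p r : ℕ} (h : p ≠ r) (R R' : St) (h1 : ∀ x, R.rel x r → x = r)
    (h2 : ∀ x, R'.rel x r → x = r) : ¬ jn p r R R' := by sorry

theorem comb_act_left {k i : ℕ} (h : i + 2 < 2*k) (R R' : St) :
    comb k (St.act i R) R' = St.act i (comb k R R') := by sorry

theorem comb_act_right (k i : ℕ) (R R' : St) :
    comb k R (St.act i R') = St.act (i + 2*k) (comb k R R') := by sorry

theorem comb_ins_left (k : ℕ) (R R' : St) :
    comb (k+1) (St.ins 0 R) R' = St.ins 0 (comb k R R') := by sorry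

theorem comb_ins_right (k : ℕ) (R R' : St) :
    comb k R (St.ins 0 R') = St.ins (2*k) (comb k R R') := by sorry

/-! ### task P1: bilinear forms -/

theorem pairG_add_left (p r : ℕ) (f g h : St →₀ ℂ) :
    pairG p r (f + g) h = pairG p r f h + pairG p r g h := by sorry

theorem pairG_add_right (p r : ℕ) (f g h : St →₀ ℂ) :
    pairG p r f (g + h) = pairG p r f g + pairG p r f h := by sorry

theorem pairG_smul_left (p r : ℕ) (c : ℂ) (f g : St →₀ ℂ) :
    pairG p r (c • f) g = c * pairG p r f g := by sorry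

theorem pairG_smul_right (p r : ℕ) (c : ℂ) (f g : St →₀ ℂ) :
    pairG p r f (c • g) = c * pairG p r f g := by sorry

theorem pairG_act {p r i : ℕ} (hp : p ≠ i+1) (hr : r ≠ i+1) (f g : St →₀ ℂ) :
    pairG p r (Finsupp.mapDomain (St.act i) f) g = pairG p r f (Finsupp.mapDomain (St.act i) g) := by
  sorry

theorem pairG_ins {p r i : ℕ} (hi : Even i) (f g : St →₀ ℂ) :
    pairG (St.up i p) (St.up i r) (Finsupp.mapDomain (St.ins i) f) (Finsupp.mapDomain (St.ins i) g) =
      pairG p r f g := by sorry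

/-! ### task P2: two strips side by side -/

theorem comb2_add_left (k : ℕ) (f g h : St →₀ ℂ) :
    comb2 k (f + g) h = comb2 k f h + comb2 k g h := by sorry

theorem comb2_add_right (k : ℕ) (f g h : St →₀ ℂ) :
    comb2 k f (g + h) = comb2 k f g + comb2 k f h := by sorry

theorem comb2_smul_left (k : ℕ) (c : ℂ) (f g : St →₀ ℂ) :
    comb2 k (c • f) g = c • comb2 k f g := by sorry

theorem comb2_smul_right (k : ℕ) (c : ℂ) (f g : St →₀ ℂ) :
    comb2 k f (c • g) = c • comb2 k f g := by sorry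

theorem comb2_act_left {k i : ℕ} (h : i + 2 < 2*k) (f g : St →₀ ℂ) :
    comb2 k (Finsupp.mapDomain (St.act i) f) g = Finsupp.mapDomain (St.act i) (comb2 k f g) := by
  sorry

theorem comb2_act_right (k i : ℕ) (f g : St →₀ ℂ) :
    comb2 k f (Finsupp.mapDomain (St.act i) g) =
      Finsupp.mapDomain (St.act (i + 2*k)) (comb2 k f g) := by sorry

theorem comb2_ins_left (k : ℕ) (f g : St →₀ ℂ) :
    comb2 (k+1) (Finsupp.mapDomain (St.ins 0) f) g =
      Finsupp.mapDomain (St.ins 0) (comb2 k f g) := by sorry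

theorem comb2_ins_right (k : ℕ) (f g : St →₀ ℂ) :
    comb2 k f (Finsupp.mapDomain (St.ins 0) g) =
      Finsupp.mapDomain (St.ins (2*k)) (comb2 k f g) := by sorry

/-! ### task G1: symmetry -/

theorem GR_swapA (u v B : List ℂ) (x y w : ℂ) (hA : Odd (u.length + v.length)) (hB : Odd B.length)
    (hx : x ≠ 0) (hy : y ≠ 0) (h0 : ∀ z ∈ u ++ v ++ B, z ≠ 0) :
    GR (u ++ y :: x :: v) w B = GR (u ++ x :: y :: v) w B := by sorry

theorem GR_swapB (A u v : List ℂ) (x y w : ℂ) (hA : Odd A.length) (hB : Odd (u.length + v.length))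
    (hx : x ≠ 0) (hy : y ≠ 0) (h0 : ∀ z ∈ A ++ u ++ v, z ≠ 0) :
    GR A w (u ++ y :: x :: v) = GR A w (u ++ x :: y :: v) := by sorry

/-! ### task G2: inversion -/

theorem GR_invA (A B : List ℂ) (x w : ℂ) (hA : Even A.length) (hB : Odd B.length) (hx : x ≠ 0) :
    GR (x :: A) w B = x^(B.length + 1) * GR (x⁻¹ :: A) w B := by sorry

theorem GR_invB (A B : List ℂ) (x w : ℂ) (hA : Odd A.length) (hB : Even B.length) (hx : x ≠ 0) :
    GR A w (B ++ [x]) = x^(A.length + 1) * GR A w (B ++ [x⁻¹]) := by sorry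

/-! ### task G3: pair annihilation -/

theorem GR_pairA (A B : List ℂ) (x w : ℂ) (hA : Odd A.length) (hB : Odd B.length) (hx : x ≠ 0) :
    GR (x :: (q^2 * x) :: A) w B =
      fac x (A ++ w :: (B ++ [0])) * fac (q^2 * x)⁻¹ (A.map (fun x => x⁻¹) ++ [0]) * GR A w B := by
  sorry

theorem GR_pairB (A B : List ℂ) (x w : ℂ) (hA : Odd A.length) (hB : Odd B.length) (hx : x ≠ 0) :
    GR A w (x :: (q^2 * x) :: B) =
      fac x (A ++ w :: (B ++ [0])) * fac (q^2 * x)⁻¹ (B.map (fun x => x⁻¹) ++ [0]) * GR A w B := by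
  sorry

/-! ### task G4: polynomials -/

theorem GR_poly_w (A B : List ℂ) (hA : Odd A.length) (hB : Odd B.length) :
    ∃ P : ℂ[X], P.natDegree ≤ A.length + B.length ∧ ∀ w, GR A w B = P.eval w := by sorry

theorem GR_poly_A (A B : List ℂ) (w : ℂ) (hA : Even A.length) (hB : Odd B.length)  :
    ∃ P : ℂ[X], P.natDegree ≤ 2 * A.length + 1 + B.length ∧
      ∀ t, t ≠ 0 → P.eval t = t^A.length * GR (t :: A) w B := by sorry

theorem GR_poly_B (A B : List ℂ) (w : ℂ) (hA : Odd A.length) (hB : Even B.length)  :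
    ∃ P : ℂ[X], P.natDegree ≤ 2 * B.length + 1 + A.length ∧
      (∀ t, t ≠ 0 → P.eval t = t^B.length * GR A w (B ++ [t])) ∧ P.eval 0 = 0 := by sorry

/-! ### task G5: the smallest case -/

theorem GR_base (x y w : ℂ) : GR [x] w [y] = - y * (w - q^2 * x) * (x * w - q^2) := by sorry

theorem TT_base (x y w : ℂ) :
    TT [x] w [y] = q^2 * (x * y + y * w + x * w + x^2 * y * w + x * y^2 * w + x * y * w^2) := by
  sorry

/-! ### task G6: the same for the total mass -/

theorem TT_swapA (u v B : List ℂ) (x y w : ℂ) (hA : Odd (u.length + v.length))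
    (hB : Odd B.length) : TT (u ++ y :: x :: v) w B = TT (u ++ x :: y :: v) w B := by sorry

theorem TT_swapB (A u v : List ℂ) (x y w : ℂ) (hA : Odd A.length)
    (hB : Odd (u.length + v.length)) :
    TT A w (u ++ y :: x :: v) = TT A w (u ++ x :: y :: v) := by sorry

theorem TT_invA (A B : List ℂ) (x w : ℂ) (hA : Even A.length) (hB : Odd B.length) (hx : x ≠ 0) :
    TT (x :: A) w B = x^(B.length + 1) * TT (x⁻¹ :: A) w B := by sorry

theorem TT_invB (A B : List ℂ) (x w : ℂ) (hA : Odd A.length) (hB : Even B.length) (hx : x ≠ 0) :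
    TT A w (B ++ [x]) = x^(A.length + 1) * TT A w (B ++ [x⁻¹]) := by sorry

theorem TT_pairA (A B : List ℂ) (x w : ℂ) (hA : Odd A.length) (hB : Odd B.length) (hx : x ≠ 0) :
    TT (x :: (q^2 * x) :: A) w B =
      fac x (A ++ w :: (B ++ [0])) * fac (q^2 * x)⁻¹ (A.map (fun x => x⁻¹) ++ [0]) * TT A w B := by
  sorry

theorem TT_pairB (A B : List ℂ) (x w : ℂ) (hA : Odd A.length) (hB : Odd B.length) (hx : x ≠ 0) :
    TT A w (x :: (q^2 * x) :: B) =
      fac x (A ++ w :: (B ++ [0])) * fac (q^2 * x)⁻¹ (B.map (fun x => x⁻¹) ++ [0]) * TT A w B := by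
  sorry

theorem TT_poly_w (A B : List ℂ) (hA : Odd A.length) (hB : Odd B.length) :
    ∃ P : ℂ[X], P.natDegree ≤ A.length + B.length ∧ ∀ w, TT A w B = P.eval w := by sorry

theorem TT_poly_A (A B : List ℂ) (w : ℂ) (hA : Even A.length) (hB : Odd B.length) :
    ∃ P : ℂ[X], P.natDegree ≤ 2 * A.length + 1 + B.length ∧
      ∀ t, t ≠ 0 → P.eval t = t^A.length * TT (t :: A) w B := by sorry

theorem TT_poly_B (A B : List ℂ) (w : ℂ) (hA : Odd A.length) (hB : Even B.length) :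
    ∃ P : ℂ[X], P.natDegree ≤ 2 * B.length + 1 + A.length ∧
      (∀ t, t ≠ 0 → P.eval t = t^B.length * TT A w (B ++ [t])) ∧
      P.eval 0 = Z (A.map (fun x => x⁻¹) ++ [0]) *
        (fac 0 (B.map (fun x => x⁻¹)) * Z (B.map (fun x => x⁻¹))) *
        (fac 0 (A ++ w :: B) * Z (A ++ w :: B)) := by sorry

/-! ### task U1: uniqueness -/

theorem uniq (D : List ℂ → List ℂ → ℂ)
    (swA : ∀ (u v B : List ℂ) (x y : ℂ), Odd (u.length + v.length) → Odd B.length → x ≠ 0 →
      y ≠ 0 → (∀ z ∈ u ++ v ++ B, z ≠ 0) → D (u ++ y :: x :: v) B = D (u ++ x :: y :: v) B)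
    (swB : ∀ (A u v : List ℂ) (x y : ℂ), Odd A.length → Odd (u.length + v.length) → x ≠ 0 →
      y ≠ 0 → (∀ z ∈ A ++ u ++ v, z ≠ 0) → D A (u ++ y :: x :: v) = D A (u ++ x :: y :: v))
    (invA : ∀ (A B : List ℂ) (x : ℂ), Even A.length → Odd B.length → x ≠ 0 →
      D (x⁻¹ :: A) B = 0 → D (x :: A) B = 0)
    (invB : ∀ (A B : List ℂ) (x : ℂ), Odd A.length → Even B.length → x ≠ 0 →
      D A (B ++ [x⁻¹]) = 0 → D A (B ++ [x]) = 0)
    (pairA : ∀ (A B : List ℂ) (x : ℂ), Odd A.length → Odd B.length → x ≠ 0 → D A B = 0 →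
      D (x :: (q^2 * x) :: A) B = 0)
    (pairB : ∀ (A B : List ℂ) (x : ℂ), Odd A.length → Odd B.length → x ≠ 0 → D A B = 0 →
      D A (x :: (q^2 * x) :: B) = 0)
    (polyA : ∀ (A B : List ℂ), Even A.length → Odd B.length → ∃ P : ℂ[X],
      P.natDegree ≤ 2 * A.length + 1 + B.length ∧ ∀ t, t ≠ 0 → P.eval t = t^A.length * D (t :: A) B)
    (polyB : ∀ (A B : List ℂ), Odd A.length → Even B.length → ∃ P : ℂ[X],
      P.natDegree ≤ 2 * B.length + 1 + A.length ∧
        (∀ t, t ≠ 0 → P.eval t = t^B.length * D A (B ++ [t])) ∧ P.eval 0 = 0)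
    (base : ∀ x y : ℂ, x ≠ 0 → y ≠ 0 → D [x] [y] = 0) :
    ∀ A B : List ℂ, Odd A.length → Odd B.length → (∀ z ∈ A ++ B, z ≠ 0) → D A B = 0 := by sorry

/-! ### task W1: coefficients of a polynomial as linear combinations of values -/

theorem exists_lam (m k : ℕ) : ∃ c : ℕ → ℂ, ∀ P : ℂ[X], P.natDegree ≤ m →
    P.coeff k = ∑ j ∈ range (m+1), c j * P.eval (j : ℂ) := by sorry

theorem cw_eq (m k : ℕ) (P : ℂ[X]) (hP : P.natDegree ≤ m) :
    cw m k (fun w => P.eval w) = P.coeff k := by sorry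

/-! ### task W2: bottom and top coefficients in `w` -/

theorem GR_bottom (A B : List ℂ) (hA : Odd A.length) (hB : Odd B.length)
    (h0 : ∀ z ∈ A ++ B, z ≠ 0) : GR A 0 B = - q^2 * TT A 0 B := by sorry

/-! ### task W3 -/

theorem GR_top (A B : List ℂ) (hA : Odd A.length) (hB : Odd B.length)
    (h0 : ∀ z ∈ A ++ B, z ≠ 0) :
    cw (A.length + B.length) (A.length + B.length) (fun w => GR A w B) =
      - q * cw (A.length + B.length) (A.length + B.length) (fun w => TT A w B) := by sorry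

/-! ### task C1: the lower cup -/

theorem cupA (A B : List ℂ) (u : ℂ) (hA : Even A.length) (hB : Odd B.length) (hu : u ≠ 0)
    (h0 : ∀ z ∈ A ++ B, z ≠ 0) :
    GR (A ++ [u]) (q^2 * u) B * (u^(A.length + 1 + B.length) * fac u⁻¹ (A ++ (B ++ [0]))) =
      GR (A ++ [u]) (q^2 * u⁻¹) B * fac u (A ++ (B ++ [0])) := by sorry

theorem cupB (A B : List ℂ) (v : ℂ) (hA : Odd A.length) (hB : Even B.length) (hv : v ≠ 0)
    (h0 : ∀ z ∈ A ++ B, z ≠ 0) :
    GR A (q * v) (v :: B) * (v^(A.length + 1 + B.length) * fac (q * v⁻¹) (A ++ (B ++ [0]))) =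
      GR A (q * v⁻¹) (v :: B) * fac (q * v) (A ++ (B ++ [0])) := by sorry

/-! ### task C2: the relation (*) at one point, for polynomials in `w` -/

theorem starA (A B : List ℂ) (u : ℂ) (hA : Odd A.length) (hB : Odd B.length) (hu : u ∈ A)
    (h0 : ∀ z ∈ A ++ B, z ≠ 0) (P : ℂ[X]) (hP : ∀ w, GR A w B = P.eval w)
    (hg : fac u (A.erase u ++ B) ≠ 0) :
    (Mp (A ++ B) P).eval (q^2 * u) =
      u^(3 * (A.length + B.length) + 2) * (Mp (A ++ B) P).eval (q^2 * u⁻¹) := by sorry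

theorem starB (A B : List ℂ) (v : ℂ) (hA : Odd A.length) (hB : Odd B.length) (hv : v ∈ B)
    (h0 : ∀ z ∈ A ++ B, z ≠ 0) (P : ℂ[X]) (hP : ∀ w, GR A w B = P.eval w)
    (hg : fac (q * v) (A ++ B.erase v) ≠ 0) :
    (Mp (A ++ B) P).eval (q * v) =
      v^(3 * (A.length + B.length) + 2) * (Mp (A ++ B) P).eval (q * v⁻¹) := by sorry

/-! ### task H1: the homogeneous point (exponents `2a`, `2b`; `dA`, `dB` of helper136 are
`q •` / `q^2 •` the polynomials below) -/

theorem hom_A (a b : ℕ) (ha : Odd a) (hb : Odd b) (P : ℂ[X])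
    (hP : ∀ w, GR (List.replicate a 1) w (List.replicate b 1) = P.eval w) :
    ∃ K : ℂ[X], (X - C 1)^(2*a) ∣ K ∧ ∀ w, w ≠ 0 → K.eval w =
      (Mp (List.replicate (a+b) 1) P).eval (q^2 * w) -
        w^(3 * (a + b) + 2) * (Mp (List.replicate (a+b) 1) P).eval (q^2 * w⁻¹) := by sorry

theorem hom_B (a b : ℕ) (ha : Odd a) (hb : Odd b) (P : ℂ[X])
    (hP : ∀ w, GR (List.replicate a 1) w (List.replicate b 1) = P.eval w) :
    ∃ K : ℂ[X], (X - C 1)^(2*b) ∣ K ∧ ∀ w, w ≠ 0 → K.eval w =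
      (Mp (List.replicate (a+b) 1) P).eval (q * w) -
        w^(3 * (a + b) + 2) * (Mp (List.replicate (a+b) 1) P).eval (q * w⁻¹) := by sorry

/-! ### task H2: the total at the homogeneous point -/

theorem TT_hom (a b : ℕ) (ha : Odd a) (hb : Odd b) (P : ℂ[X]) (hd : P.natDegree ≤ a + b)
    (hP : ∀ w, TT (List.replicate a 1) w (List.replicate b 1) = P.eval w) :
    P.reflect (a + b) = P ∧
    (∀ j, j % 3 = 1 → (Mp (List.replicate (a+b) 1) P).coeff j = 0) ∧
    P.coeff 0 ≠ 0 := by sorry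

end Pool.Agent.H492C
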