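import Mathlib
import Pool.Agent.H492C.Defs

/-! Task U1: abstract uniqueness lemma. -/

namespace Pool.Agent.H492C

open Pool.Agent.H988R2.Perc hiding X
open Finset Polynomial

namespace U1

/-- generic position -/
def Gen : List ℂ → Prop
  | [] => True
  | s :: g => s ≠ 0 ∧ s^6 ≠ 1 ∧ (∀ z ∈ g, s^3 ≠ z^3 ∧ s^3 * z^3 ≠ 1) ∧ Gen g

theorem Gen.ne_zero : ∀ {g : List ℂ}, Gen g → ∀ z ∈ g, z ≠ 0
  | [], _, z, hz => by simp at hz
  | s :: g, h, z, hz => by
    rcases List.mem_cons.1 hz with rfl | hz
    · exact h.1
    · exact Gen.ne_zero h.2.2.2 z hz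

/-- the polynomial of the exceptional values -/
noncomputable def Qp (g : List ℂ) : ℂ[X] :=
  X * (X^6 - 1) * (g.map (fun z => (X^3 - C (z^3)) * (C (z^3) * X^3 - 1))).prod

theorem X6_ne : (X^6 - 1 : ℂ[X]) ≠ 0 := by
  have := Polynomial.X_pow_sub_C_ne_zero (R := ℂ) (n := 6) (by norm_num) 1
  simpa using this

theorem X3_ne (c : ℂ) : (X^3 - C c : ℂ[X]) ≠ 0 :=
  Polynomial.X_pow_sub_C_ne_zero (by norm_num) c

theorem X3c_ne (c : ℂ) : (C c * X^3 - 1 : ℂ[X]) ≠ 0 := by
  intro h
  have := congrArg (fun p => p.eval 0) h
  simp at this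

theorem Qp_ne (g : List ℂ) : Qp g ≠ 0 := by
  unfold Qp
  refine mul_ne_zero (mul_ne_zero X_ne_zero X6_ne) ?_
  apply List.prod_ne_zero
  intro h
  obtain ⟨z, _, hz⟩ := List.mem_map.1 h
  exact (mul_ne_zero (X3_ne _) (X3c_ne _)) hz

theorem Gen_of_Qp {g : List ℂ} (hg : Gen g) {s : ℂ} (h : (Qp g).eval s ≠ 0) : Gen (s :: g) := by
  unfold Qp at h
  rw [eval_mul, eval_mul] at h
  have h1 := left_ne_zero_of_mul (left_ne_zero_of_mul h)
  have h2 := right_ne_zero_of_mul (left_ne_zero_of_mul h)
  have h3 := right_ne_zero_of_mul h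
  refine ⟨by simpa using h1, ?_, ?_, hg⟩
  · intro h6; apply h2; simp [h6]
  · intro z hz
    have h4 : ((X^3 - C (z^3)) * (C (z^3) * X^3 - 1) : ℂ[X]).eval s ≠ 0 := by
      intro h0
      apply h3
      have : (X^3 - C (z^3)) * (C (z^3) * X^3 - 1) ∣
          (g.map (fun z => (X^3 - C (z^3)) * (C (z^3) * X^3 - 1) : ℂ → ℂ[X])).prod :=
        List.dvd_prod (List.mem_map.2 ⟨z, hz, rfl⟩)
      obtain ⟨r, hr⟩ := this
      rw [hr, eval_mul, h0, zero_mul]
    rw [eval_mul] at h4
    constructor
    · intro h5; apply left_ne_zero_of_mul h4; simp [h5]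
    · intro h5; apply right_ne_zero_of_mul h4; simp [← h5]; ring

/-- the four special points of `z` -/
noncomputable def pts4 (z : ℂ) : List ℂ := [q * z, q^2 * z, (q * z)⁻¹, (q^2 * z)⁻¹]

theorem cube_q2 : (q^2)^3 = 1 := by
  rw [← pow_mul, mul_comm, pow_mul, q_cube, one_pow]

theorem cube_pts4 {z t : ℂ} (h : t ∈ pts4 z) : t^3 = z^3 ∨ t^3 = (z^3)⁻¹ := by
  unfold pts4 at h
  simp only [List.mem_cons, List.not_mem_nil, or_false] at h
  rcases h with rfl | rfl | rfl | rfl
  · left; rw [mul_pow, q_cube, one_mul]
  · left; rw [mul_pow, cube_q2, one_mul]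
  · right; rw [inv_pow, mul_pow, q_cube, one_mul]
  · right; rw [inv_pow, mul_pow, cube_q2, one_mul]

theorem q_ne_q2 : q ≠ q^2 := by
  intro h
  have : q * (q - 1) = 0 := by linear_combination (-1 : ℂ) * h
  rcases mul_eq_zero.1 this with h | h
  · exact q_ne_zero h
  · exact q_ne_one (sub_eq_zero.1 h)

theorem nodup_pts4 {z : ℂ} (hz : z ≠ 0) (h6 : z^6 ≠ 1) : (pts4 z).Nodup := by
  have hq := q_ne_zero
  have hinv : ∀ c d : ℂ, c ≠ 0 → d ≠ 0 → c^3 = 1 → d^3 = 1 → c * z ≠ (d * z)⁻¹ := by
    intro c d hc hd hc3 hd3 h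
    have h1 : (c * z) * (d * z) = 1 := by rw [h]; exact inv_mul_cancel₀ (mul_ne_zero hd hz)
    apply h6
    have h2 : ((c * z) * (d * z))^3 = 1 := by rw [h1, one_pow]
    calc z^6 = (c^3 * d^3) * z^6 := by rw [hc3, hd3]; ring
      _ = ((c * z) * (d * z))^3 := by ring
      _ = 1 := h2
  unfold pts4
  have h12 : q * z ≠ q^2 * z := fun h => q_ne_q2 (mul_right_cancel₀ hz h)
  have h13 := hinv q q hq hq q_cube q_cube
  have h14 := hinv q (q^2) hq (pow_ne_zero 2 hq) q_cube cube_q2
  have h23 := hinv (q^2) q (pow_ne_zero 2 hq) hq cube_q2 q_cube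
  have h24 := hinv (q^2) (q^2) (pow_ne_zero 2 hq) (pow_ne_zero 2 hq) cube_q2 cube_q2
  have h34 : (q * z)⁻¹ ≠ (q^2 * z)⁻¹ := fun h => h12 (inv_injective h)
  simp only [List.nodup_cons, List.mem_cons, List.not_mem_nil, or_false, not_or,
    List.nodup_nil, and_true, not_false_eq_true]
  exact ⟨⟨h12, h13, h14⟩, ⟨h23, h24⟩, h34⟩

theorem nodup_flat : ∀ {g : List ℂ}, Gen g → (g.flatMap pts4).Nodup
  | [], _ => by simp
  | s :: g, h => by
    rw [List.flatMap_cons, List.nodup_append']
    refine ⟨nodup_pts4 h.1 h.2.1, nodup_flat h.2.2.2, ?_⟩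
    intro t ht1 ht2
    obtain ⟨z, hz, ht⟩ := List.mem_flatMap.1 ht2
    have hz0 := Gen.ne_zero h.2.2.2 z hz
    obtain ⟨ha, hb⟩ := h.2.2.1 z hz
    have hb' : s^3 ≠ (z^3)⁻¹ := by
      intro h0; apply hb; rw [h0]; exact inv_mul_cancel₀ (pow_ne_zero 3 hz0)
    rcases cube_pts4 ht1 with h1 | h1 <;> rcases cube_pts4 ht with h2 | h2
    · exact ha (h1.symm.trans h2)
    · exact hb' (h1.symm.trans h2)
    · have : (s^3)⁻¹ = z^3 := h1.symm.trans h2
      apply hb'; rw [← this, inv_inv]
    · exact ha (inv_injective (h1.symm.trans h2))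

theorem length_flat (g : List ℂ) : (g.flatMap pts4).length = 4 * g.length := by
  induction g with
  | nil => simp
  | cons s g ih =>
    rw [List.flatMap_cons, List.length_append, ih, List.length_cons]
    simp [pts4]; ring

theorem zero_not_mem_flat {g : List ℂ} (hg : ∀ z ∈ g, z ≠ 0) : (0 : ℂ) ∉ g.flatMap pts4 := by
  intro h
  obtain ⟨z, hz, ht⟩ := List.mem_flatMap.1 h
  have hz0 := hg z hz
  have hz3 : z^3 ≠ 0 := pow_ne_zero 3 hz0
  rcases cube_pts4 ht with h1 | h1
  · rw [zero_pow (by norm_num)] at h1; exact hz3 h1.symm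
  · rw [zero_pow (by norm_num)] at h1; exact inv_ne_zero hz3 h1.symm

/-- one side -/
theorem side (n d e : ℕ) (he : e ≤ 1) (F : List ℂ → ℂ) (hn : 1 ≤ n)
    (perm : ∀ l l' : List ℂ, l.Perm l' → l.length = n → (∀ z ∈ l, z ≠ 0) → F l = F l')
    (inv : ∀ (l : List ℂ) (x : ℂ), l.length + 1 = n → (∀ z ∈ l, z ≠ 0) → x ≠ 0 →
      F (x⁻¹ :: l) = 0 → F (x :: l) = 0)
    (pair : ∀ (l : List ℂ) (x : ℂ), l.length + 2 = n → (∀ z ∈ l, z ≠ 0) → x ≠ 0 →
      F (x :: (q^2 * x) :: l) = 0)
    (poly : ∀ l : List ℂ, l.length + 1 = n → (∀ z ∈ l, z ≠ 0) → ∃ P : ℂ[X],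
      P.natDegree ≤ d ∧ (∀ t, t ≠ 0 → P.eval t = t^(n-1) * F (t :: l)) ∧
        (e = 1 → P.eval 0 = 0))
    (hd : d < 4 * (n - 1) + e) :
    ∀ l : List ℂ, l.length = n → (∀ z ∈ l, z ≠ 0) → F l = 0 := by
  have hq := q_ne_zero
  -- the values at the points `q z`, `q² z`
  have key : ∀ (l : List ℂ) (z : ℂ), l.length + 1 = n → (∀ z ∈ l, z ≠ 0) → z ∈ l →
      F ((q * z) :: l) = 0 ∧ F ((q^2 * z) :: l) = 0 := by
    intro l z hl h0 hz
    have hz0 := h0 z hz
    have hp : l.Perm (z :: l.erase z) := List.perm_cons_erase hz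
    have hlen : (l.erase z).length + 2 = n := by
      rw [List.length_erase_of_mem hz]
      have : 0 < l.length := List.length_pos_of_mem hz
      omega
    have h0' : ∀ y ∈ l.erase z, y ≠ 0 := fun y hy => h0 y (List.mem_of_mem_erase hy)
    constructor
    · have hz2 : z = q^2 * (q * z) := by
        have : q^2 * (q * z) = q^3 * z := by ring
        rw [this, q_cube, one_mul]
      have hp2 : ((q*z) :: l).Perm ((q*z) :: (q^2 * (q * z)) :: l.erase z) := by
        rw [← hz2]; exact hp.cons _
      rw [perm _ _ hp2 (by simpa using hl) (by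
        intro y hy
        rcases List.mem_cons.1 hy with rfl | hy
        · exact mul_ne_zero hq hz0
        · exact h0 y hy)]
      exact pair _ _ hlen h0' (mul_ne_zero hq hz0)
    · have hp2 : ((q^2*z) :: l).Perm (z :: (q^2 * z) :: l.erase z) :=
        (hp.cons _).trans (List.Perm.swap _ _ _)
      rw [perm _ _ hp2 (by simpa using hl) (by
        intro y hy
        rcases List.mem_cons.1 hy with rfl | hy
        · exact mul_ne_zero (pow_ne_zero 2 hq) hz0
        · exact h0 y hy)]
      exact pair _ _ hlen h0' hz0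
  -- generic lists
  have step1 : ∀ g : List ℂ, Gen g → g.length + 1 = n → ∀ t, t ≠ 0 → F (t :: g) = 0 := by
    intro g hg hl
    have h0 := hg.ne_zero
    obtain ⟨P, hPd, hPe, hP0⟩ := poly g hl h0
    have hroot : ∀ t ∈ g.flatMap pts4, P.eval t = 0 := by
      intro t ht
      obtain ⟨z, hz, hzt⟩ := List.mem_flatMap.1 ht
      have hz0 := h0 z hz
      have hk := key g z hl h0 hz
      unfold pts4 at hzt
      simp only [List.mem_cons, List.not_mem_nil, or_false] at hzt
      rcases hzt with rfl | rfl | rfl | rfl
      · rw [hPe _ (mul_ne_zero hq hz0), hk.1, mul_zero]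
      · rw [hPe _ (mul_ne_zero (pow_ne_zero 2 hq) hz0), hk.2, mul_zero]
      · have hne : (q*z)⁻¹ ≠ 0 := inv_ne_zero (mul_ne_zero hq hz0)
        rw [hPe _ hne, inv g _ hl h0 hne (by rw [inv_inv]; exact hk.1), mul_zero]
      · have hne : (q^2*z)⁻¹ ≠ 0 := inv_ne_zero (mul_ne_zero (pow_ne_zero 2 hq) hz0)
        rw [hPe _ hne, inv g _ hl h0 hne (by rw [inv_inv]; exact hk.2), mul_zero]
    have hcard : (g.flatMap pts4).toFinset.card = 4 * (n - 1) := by
      rw [List.toFinset_card_of_nodup (nodup_flat hg), length_flat]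
      congr 1; omega
    have hP : P = 0 := by
      rcases Nat.lt_or_ge e 1 with he0 | he1
      · apply Polynomial.eq_zero_of_natDegree_lt_card_of_eval_eq_zero' P
          (g.flatMap pts4).toFinset
        · intro t ht; exact hroot t (List.mem_toFinset.1 ht)
        · rw [hcard]; omega
      · have he' : e = 1 := le_antisymm he he1
        apply Polynomial.eq_zero_of_natDegree_lt_card_of_eval_eq_zero' P
          (insert 0 (g.flatMap pts4).toFinset)
        · intro t ht
          rcases Finset.mem_insert.1 ht with rfl | ht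
          · exact hP0 he'
          · exact hroot t (List.mem_toFinset.1 ht)
        · rw [Finset.card_insert_of_notMem
            (by rw [List.mem_toFinset]; exact zero_not_mem_flat h0), hcard]
          omega
    intro t ht
    have := hPe t ht
    rw [hP, eval_zero] at this
    rcases mul_eq_zero.1 this.symm with h | h
    · exact absurd h (pow_ne_zero _ ht)
    · exact h
  -- one variable at a time
  have step2 : ∀ (k : ℕ) (bad g : List ℂ), bad.length = k + 1 → Gen g →
      bad.length + g.length = n → (∀ z ∈ bad, z ≠ 0) → F (bad ++ g) = 0 := by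
    intro k
    induction k with
    | zero =>
      intro bad g hb hg hl h0
      obtain ⟨t, rfl⟩ := List.length_eq_one_iff.1 hb
      exact step1 g hg (by simpa [add_comm] using hl) t (h0 t (by simp))
    | succ k ih =>
      intro bad g hb hg hl h0
      match bad, hb with
      | s :: t :: bad', hb =>
        have hg0 := hg.ne_zero
        have h0' : ∀ z ∈ t :: bad' ++ g, z ≠ 0 := by
          intro z hz
          rcases List.mem_append.1 hz with hz | hz
          · exact h0 z (List.mem_cons_of_mem _ hz)
          · exact hg0 z hz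
        have hl' : (t :: bad' ++ g).length + 1 = n := by
          simp only [List.length_cons, List.length_append] at hl ⊢; omega
        obtain ⟨P, _, hPe, _⟩ := poly (t :: bad' ++ g) hl' h0'
        have hzero : P * Qp g = 0 := by
          apply Polynomial.funext
          intro x
          rw [eval_mul, eval_zero]
          by_cases hx : (Qp g).eval x = 0
          · rw [hx, mul_zero]
          · have hgx := Gen_of_Qp hg hx
            have hx0 := hgx.1
            rw [hPe x hx0]
            have hperm : (x :: (t :: bad' ++ g)).Perm ((t :: bad') ++ (x :: g)) :=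
              List.perm_middle.symm
            rw [perm _ _ hperm (by simpa using hl') (by
              intro z hz
              rcases List.mem_cons.1 hz with rfl | hz
              · exact hx0
              · exact h0' z hz)]
            rw [ih (t :: bad') (x :: g) (by simpa using hb) hgx (by
              simp only [List.length_cons] at hl ⊢; omega)
              (fun z hz => h0 z (List.mem_cons_of_mem _ hz))]
            simp
        have hP : P = 0 := by
          rcases mul_eq_zero.1 hzero with h | h
          · exact h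
          · exact absurd h (Qp_ne g)
        have hs0 : s ≠ 0 := h0 s (by simp)
        have := hPe s hs0
        rw [hP, eval_zero] at this
        rcases mul_eq_zero.1 this.symm with h | h
        · exact absurd h (pow_ne_zero _ hs0)
        · exact h
  intro l hl h0
  have := step2 (n-1) l [] (by omega) trivial (by simpa using hl) h0
  simpa using this

theorem perm_gen (D : List ℂ → ℂ) (p : ℕ)
    (sw : ∀ (u v : List ℂ) (x y : ℂ), u.length + v.length + 2 = p → x ≠ 0 → y ≠ 0 →
      (∀ z ∈ u ++ v, z ≠ 0) → D (u ++ y :: x :: v) = D (u ++ x :: y :: v)) :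
    ∀ l l' : List ℂ, l.Perm l' → ∀ u : List ℂ, u.length + l.length = p →
      (∀ z ∈ u ++ l, z ≠ 0) → D (u ++ l) = D (u ++ l') := by
  intro l l' h
  induction h with
  | nil => intro u _ _; rfl
  | cons x _ ih =>
    intro u hu h0
    have := ih (u ++ [x]) (by simp only [List.length_append, List.length_cons, List.length_nil] at hu ⊢; omega)
      (by simpa using h0)
    simpa using this
  | swap x y l =>
    intro u hu h0
    refine sw u l x y (by simp only [List.length_cons] at hu; omega) (h0 x (by simp))
      (h0 y (by simp)) ?_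
    intro z hz
    apply h0
    rcases List.mem_append.1 hz with hz | hz
    · exact List.mem_append.2 (Or.inl hz)
    · exact List.mem_append.2 (Or.inr (by simp [hz]))
  | trans h1 _ ih1 ih2 =>
    intro u hu h0
    rw [ih1 u hu h0]
    apply ih2 u (by rw [← h1.length_eq]; exact hu)
    intro z hz
    apply h0
    rcases List.mem_append.1 hz with hz | hz
    · exact List.mem_append.2 (Or.inl hz)
    · exact List.mem_append.2 (Or.inr (h1.mem_iff.2 hz))

end U1

open U1 in
theorem uniq (D : List ℂ → List ℂ → ℂ)
    (swA : ∀ (u v B : List ℂ) (x y : ℂ), Odd (u.length + v.length) → Odd B.length → x ≠ 0 →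
      y ≠ 0 → (∀ z ∈ u ++ v ++ B, z ≠ 0) → D (u ++ y :: x :: v) B = D (u ++ x :: y :: v) B)
    (swB : ∀ (A u v : List ℂ) (x y : ℂ), Odd A.length → Odd (u.length + v.length) → x ≠ 0 →
      y ≠ 0 → (∀ z ∈ A ++ u ++ v, z ≠ 0) → D A (u ++ y :: x :: v) = D A (u ++ x :: y :: v))
    (invA : ∀ (A B : List ℂ) (x : ℂ), Even A.length → Odd B.length → x ≠ 0 →
      D (x⁻¹ :: A) B = 0 → D (x :: A) B = 0)
    (invB : ∀ (A B : List ℂ) (x : ℂ), Odd A.length → Even B.length → x ≠ 0 →
      D A (B ++ [x⁻¹]) = 0 → D A (B ++ [x]) = 0)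
    (pairA : ∀ (A B : List ℂ) (x : ℂ), Odd A.length → Odd B.length → x ≠ 0 → D A B = 0 →
      D (x :: (q^2 * x) :: A) B = 0)
    (pairB : ∀ (A B : List ℂ) (x : ℂ), Odd A.length → Odd B.length → x ≠ 0 → D A B = 0 →
      D A (x :: (q^2 * x) :: B) = 0)
    (polyA : ∀ (A B : List ℂ), Even A.length → Odd B.length → ∃ P : ℂ[X],
      P.natDegree ≤ 2 * A.length + 1 + B.length ∧ ∀ t, t ≠ 0 → P.eval t = t^A.length * D (t :: A) B)
    (polyB : ∀ (A B : List ℂ), Odd A.length → Even B.length → ∃ P : ℂ[X],
      P.natDegree ≤ 2 * B.length + 1 + A.length ∧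
        (∀ t, t ≠ 0 → P.eval t = t^B.length * D A (B ++ [t])) ∧ P.eval 0 = 0)
    (base : ∀ x y : ℂ, x ≠ 0 → y ≠ 0 → D [x] [y] = 0) :
    ∀ A B : List ℂ, Odd A.length → Odd B.length → (∀ z ∈ A ++ B, z ≠ 0) → D A B = 0 := by
  have main : ∀ N : ℕ, ∀ A B : List ℂ, A.length + B.length = N → Odd A.length → Odd B.length →
      (∀ z ∈ A ++ B, z ≠ 0) → D A B = 0 := by
    intro N
    induction N using Nat.strong_induction_on with
    | _ N IH =>
    intro A B hN hA hB h0
    have hA0 : ∀ z ∈ A, z ≠ 0 := fun z hz => h0 z (List.mem_append.2 (Or.inl hz))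
    have hB0 : ∀ z ∈ B, z ≠ 0 := fun z hz => h0 z (List.mem_append.2 (Or.inr hz))
    by_cases h1 : A.length + 3 ≤ 2 * B.length
    · -- B side
      have hperm : ∀ l l' : List ℂ, l.Perm l' → l.length = B.length → (∀ z ∈ l, z ≠ 0) →
          D A l = D A l' := by
        intro l l' hp hl hl0
        have := perm_gen (D A) B.length (by
          intro u v x y huv hx hy hz
          refine swB A u v x y hA ?_ hx hy ?_
          · have h3 : u.length + v.length + 2 = B.length := huv
            rw [← h3] at hB
            rcases hB with ⟨k, hk⟩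
            exact ⟨k - 1, by omega⟩
          · intro z hz'
            rw [List.append_assoc] at hz'
            rcases List.mem_append.1 hz' with hz' | hz'
            · exact hA0 z hz'
            · exact hz z hz') l l' hp [] (by simpa using hl) (by simpa using hl0)
        simpa using this
      refine side B.length (2 * (B.length - 1) + 1 + A.length) 1 le_rfl (D A)
        (by rcases hB with ⟨k, hk⟩; omega) hperm ?_ ?_ ?_ ?_ B rfl hB0
      · intro l x hl hl0 hx h
        have hlE : Even l.length := by
          rcases hB with ⟨k, hk⟩; exact ⟨k, by omega⟩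
        have e1 : D A (x⁻¹ :: l) = D A (l ++ [x⁻¹]) :=
          hperm _ _ (List.perm_append_singleton _ _).symm (by simpa using hl) (by
            intro z hz
            rcases List.mem_cons.1 hz with rfl | hz
            · exact inv_ne_zero hx
            · exact hl0 z hz)
        have e2 : D A (x :: l) = D A (l ++ [x]) :=
          hperm _ _ (List.perm_append_singleton _ _).symm (by simpa using hl) (by
            intro z hz
            rcases List.mem_cons.1 hz with rfl | hz
            · exact hx
            · exact hl0 z hz)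
        rw [e2]
        exact invB A l x hA hlE hx (by rw [← e1]; exact h)
      · intro l x hl hl0 hx
        have hlO : Odd l.length := by
          rcases hB with ⟨k, hk⟩; exact ⟨k - 1, by omega⟩
        refine pairB A l x hA hlO hx (IH (A.length + l.length) (by omega) A l rfl hA hlO ?_)
        intro z hz
        rcases List.mem_append.1 hz with hz | hz
        · exact hA0 z hz
        · exact hl0 z hz
      · intro l hl hl0
        have hlE : Even l.length := by
          rcases hB with ⟨k, hk⟩; exact ⟨k, by omega⟩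
        obtain ⟨P, hPd, hPe, hP0⟩ := polyB A l hA hlE
        refine ⟨P, ?_, ?_, fun _ => hP0⟩
        · have : l.length = B.length - 1 := by omega
          rw [this] at hPd; exact hPd
        · intro t ht
          have : l.length = B.length - 1 := by omega
          rw [hPe t ht, this]
          congr 1
          exact (hperm _ _ (List.perm_append_singleton _ _).symm (by simpa using hl) (by
            intro z hz
            rcases List.mem_cons.1 hz with rfl | hz
            · exact ht
            · exact hl0 z hz)).symm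
      · omega
    · by_cases h2 : A.length = 1 ∧ B.length = 1
      · obtain ⟨x, rfl⟩ := List.length_eq_one_iff.1 h2.1
        obtain ⟨y, rfl⟩ := List.length_eq_one_iff.1 h2.2
        exact base x y (hA0 x (by simp)) (hB0 y (by simp))
      · -- A side
        have hperm : ∀ l l' : List ℂ, l.Perm l' → l.length = A.length → (∀ z ∈ l, z ≠ 0) →
            D l B = D l' B := by
          intro l l' hp hl hl0
          have := perm_gen (fun l => D l B) A.length (by
            intro u v x y huv hx hy hz
            refine swA u v B x y ?_ hB hx hy ?_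
            · have h3 : u.length + v.length + 2 = A.length := huv
              rw [← h3] at hA
              rcases hA with ⟨k, hk⟩
              exact ⟨k - 1, by omega⟩
            · intro z hz'
              rcases List.mem_append.1 hz' with hz' | hz'
              · exact hz z hz'
              · exact hB0 z hz') l l' hp [] (by simpa using hl) (by simpa using hl0)
          simpa using this
        refine side A.length (2 * (A.length - 1) + 1 + B.length) 0 (by norm_num)
          (fun l => D l B) (by rcases hA with ⟨k, hk⟩; omega) hperm ?_ ?_ ?_ ?_ A rfl hA0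
        · intro l x hl hl0 hx h
          have hlE : Even l.length := by
            rcases hA with ⟨k, hk⟩; exact ⟨k, by omega⟩
          exact invA l B x hlE hB hx h
        · intro l x hl hl0 hx
          have hlO : Odd l.length := by
            rcases hA with ⟨k, hk⟩; exact ⟨k - 1, by omega⟩
          refine pairA l B x hlO hB hx (IH (l.length + B.length) (by omega) l B rfl hlO hB ?_)
          intro z hz
          rcases List.mem_append.1 hz with hz | hz
          · exact hl0 z hz
          · exact hB0 z hz
        · intro l hl hl0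
          have hlE : Even l.length := by
            rcases hA with ⟨k, hk⟩; exact ⟨k, by omega⟩
          obtain ⟨P, hPd, hPe⟩ := polyA l B hlE hB
          have : l.length = A.length - 1 := by omega
          refine ⟨P, ?_, ?_, fun h => absurd h (by norm_num)⟩
          · rw [this] at hPd; exact hPd
          · intro t ht
            rw [hPe t ht, this]
        · rcases hA with ⟨k, hk⟩
          rcases hB with ⟨j, hj⟩
          omega
  intro A B hA hB h0
  exact main _ A B rfl hA hB h0

end Pool.Agent.H492C
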