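import Pool.Agent.H492C.G1
import Pool.Agent.H492C.G2
import Pool.Agent.H492C.G3A
import Pool.Agent.H492C.G3B
import Pool.Agent.H492C.G4
import Pool.Agent.H492C.G5
import Pool.Agent.H492C.G6
import Pool.Agent.H492C.U1

/-! Task W2: the bottom coefficient in `w`. -/

namespace Pool.Agent.H492C

open Pool.Agent.H988R2.Perc hiding X
open Finset Polynomial

theorem GR_bottom (A B : List ℂ) (hA : Odd A.length) (hB : Odd B.length)
    (h0 : ∀ z ∈ A ++ B, z ≠ 0) : GR A 0 B = - q^2 * TT A 0 B := by
  have key := uniq (fun A B => GR A 0 B + q^2 * TT A 0 B) ?swA ?swB ?invA ?invB ?pairA ?pairB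
    ?polyA ?polyB ?base A B hA hB h0
  · linear_combination key
  case swA =>
    intro u v B x y hu hB hx hy h0
    rw [GR_swapA u v B x y 0 hu hB hx hy h0, TT_swapA u v B x y 0 hu hB]
  case swB =>
    intro A u v x y hA hu hx hy h0
    rw [GR_swapB A u v x y 0 hA hu hx hy h0, TT_swapB A u v x y 0 hA hu]
  case invA =>
    intro A B x hA hB hx h
    rw [GR_invA A B x 0 hA hB hx, TT_invA A B x 0 hA hB hx]
    linear_combination x^(B.length + 1) * h
  case invB =>
    intro A B x hA hB hx h
    rw [GR_invB A B x 0 hA hB hx, TT_invB A B x 0 hA hB hx]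
    linear_combination x^(A.length + 1) * h
  case pairA =>
    intro A B x hA hB hx h
    rw [GR_pairA A B x 0 hA hB hx, TT_pairA A B x 0 hA hB hx]
    linear_combination (fac x (A ++ 0 :: (B ++ [0])) *
      fac (q^2 * x)⁻¹ (A.map (fun x => x⁻¹) ++ [0])) * h
  case pairB =>
    intro A B x hA hB hx h
    rw [GR_pairB A B x 0 hA hB hx, TT_pairB A B x 0 hA hB hx]
    linear_combination (fac x (A ++ 0 :: (B ++ [0])) *
      fac (q^2 * x)⁻¹ (B.map (fun x => x⁻¹) ++ [0])) * h
  case polyA =>
    intro A B hA hB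
    obtain ⟨P, hd, hP⟩ := GR_poly_A A B 0 hA hB
    obtain ⟨Q, hd', hQ⟩ := TT_poly_A A B 0 hA hB
    refine ⟨P + C (q^2) * Q, ?_, ?_⟩
    · refine (natDegree_add_le _ _).trans ?_
      exact max_le hd ((natDegree_C_mul_le _ _).trans hd')
    · intro t ht
      rw [eval_add, eval_mul, eval_C, hP t ht, hQ t ht]
      ring
  case polyB =>
    intro A B hA hB
    obtain ⟨P, hd, hP, hP0⟩ := GR_poly_B A B 0 hA hB
    obtain ⟨Q, hd', hQ, hQ0⟩ := TT_poly_B A B 0 hA hB
    refine ⟨P + C (q^2) * Q, ?_, ?_, ?_⟩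
    · refine (natDegree_add_le _ _).trans ?_
      exact max_le hd ((natDegree_C_mul_le _ _).trans hd')
    · intro t ht
      rw [eval_add, eval_mul, eval_C, hP t ht, hQ t ht]
      ring
    · rw [eval_add, eval_mul, eval_C, hP0, hQ0]
      have : fac 0 (A ++ 0 :: B) = 0 := by
        unfold fac
        rw [List.map_append, List.map_cons, List.prod_append, List.prod_cons]
        ring
      rw [this]
      ring
  case base =>
    intro x y hx hy
    rw [GR_base, TT_base]
    ring

end Pool.Agent.H492C
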