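import Pool.Agent.H492C.G1
import Pool.Agent.H492C.G2
import Pool.Agent.H492C.G3A
import Pool.Agent.H492C.G3B
import Pool.Agent.H492C.G4
import Pool.Agent.H492C.G5
import Pool.Agent.H492C.G6
import Pool.Agent.H492C.U1
import Pool.Agent.H492C.W1

/-! task W3: the top coefficient in `w` (helper28) -/

namespace Pool.Agent.H492C

open Pool.Agent.H988R2.Perc hiding X
open Finset Polynomial

theorem w3_cw_congr {m m' : ℕ} (hm : m = m') {F G : ℂ → ℂ} (h : ∀ w, F w = G w) :
    cw m m F = cw m' m' G := by
  subst hm
  unfold cw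
  exact Finset.sum_congr rfl (fun j _ => by rw [h])

theorem w3_cw_smul (m k : ℕ) (c : ℂ) (F : ℂ → ℂ) : cw m k (fun w => c * F w) = c * cw m k F := by
  unfold cw
  rw [Finset.mul_sum]
  exact Finset.sum_congr rfl (fun j _ => by ring)

theorem w3_cw_add (m k : ℕ) (F G : ℂ → ℂ) :
    cw m k (fun w => F w + G w) = cw m k F + cw m k G := by
  unfold cw
  rw [← Finset.sum_add_distrib]
  exact Finset.sum_congr rfl (fun j _ => by ring)

theorem w3_fac (x w : ℂ) (u v : List ℂ) :
    fac x (u ++ w :: v) = fac x (u ++ v) * ((x - q^2 * w) * (x * w - q^2)) := by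
  unfold fac
  simp only [List.map_append, List.map_cons, List.prod_append, List.prod_cons]
  ring

/-- multiplication by the factor of `w` -/
theorem w3_top (m : ℕ) (x c : ℂ) (T : ℂ[X]) (hT : T.natDegree ≤ m) (h0 : T.coeff m = 0) :
    cw (m + 2) (m + 2) (fun w => c * ((x - q^2 * w) * (x * w - q^2)) * T.eval w) = 0 := by
  have h1 : (C (c * (- q^2 * x)) * (X^2 * T) + C (c * (x^2 + q^4)) * (X * T)
      + C (c * (- q^2 * x)) * T).natDegree ≤ m + 2 := by
    rw [Polynomial.natDegree_le_iff_coeff_eq_zero]
    intro N hN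
    obtain ⟨n, rfl⟩ : ∃ n, N = n + 2 := ⟨N - 2, by omega⟩
    rw [coeff_add, coeff_add, coeff_C_mul, coeff_C_mul, coeff_C_mul, coeff_X_pow_mul,
      show n + 2 = (n + 1) + 1 by ring, coeff_X_mul,
      coeff_eq_zero_of_natDegree_lt (show T.natDegree < n by omega),
      coeff_eq_zero_of_natDegree_lt (show T.natDegree < n + 1 by omega),
      coeff_eq_zero_of_natDegree_lt (show T.natDegree < n + 1 + 1 by omega)]
    ring
  have h2 := cw_eq (m + 2) (m + 2) _ h1
  rw [coeff_add, coeff_add, coeff_C_mul, coeff_C_mul, coeff_C_mul, coeff_X_pow_mul, h0,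
      show m + 2 = (m + 1) + 1 by ring, coeff_X_mul,
      coeff_eq_zero_of_natDegree_lt (show T.natDegree < m + 1 by omega),
      coeff_eq_zero_of_natDegree_lt (show T.natDegree < m + 1 + 1 by omega)] at h2
  rw [show m + 2 = (m + 1) + 1 by ring]
  calc cw (m + 1 + 1) (m + 1 + 1) (fun w => c * ((x - q^2 * w) * (x * w - q^2)) * T.eval w)
      = cw (m + 1 + 1) (m + 1 + 1) (fun w => (C (c * (- q^2 * x)) * (X^2 * T)
          + C (c * (x^2 + q^4)) * (X * T) + C (c * (- q^2 * x)) * T).eval w) := by
        refine w3_cw_congr rfl (fun w => ?_)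
        simp only [eval_add, eval_mul, eval_C, eval_pow, eval_X]
        ring
    _ = 0 := by rw [h2]; ring

theorem w3_pair (A B : List ℂ) (hA : Odd A.length) (hB : Odd B.length)
    (h : cw (A.length + B.length) (A.length + B.length) (fun w => GR A w B + q * TT A w B) = 0) :
    ∃ T : ℂ[X], T.natDegree ≤ A.length + B.length ∧ T.coeff (A.length + B.length) = 0 ∧
      ∀ w, T.eval w = GR A w B + q * TT A w B := by
  obtain ⟨P, hP, hP'⟩ := GR_poly_w A B hA hB
  obtain ⟨Q, hQ, hQ'⟩ := TT_poly_w A B hA hB
  have hd : (P + C q * Q).natDegree ≤ A.length + B.length := by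
    refine (natDegree_add_le _ _).trans (max_le hP ?_)
    exact (natDegree_C_mul_le _ _).trans hQ
  have he : ∀ w, (P + C q * Q).eval w = GR A w B + q * TT A w B := by
    intro w
    rw [eval_add, eval_mul, eval_C, ← hP', ← hQ']
  refine ⟨P + C q * Q, hd, ?_, he⟩
  rw [← cw_eq _ _ _ hd, ← h]
  exact w3_cw_congr rfl he

theorem GR_top (A B : List ℂ) (hA : Odd A.length) (hB : Odd B.length)
    (h0 : ∀ z ∈ A ++ B, z ≠ 0) :
    cw (A.length + B.length) (A.length + B.length) (fun w => GR A w B) =
      - q * cw (A.length + B.length) (A.length + B.length) (fun w => TT A w B) := by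
  have key := uniq (fun A B => cw (A.length + B.length) (A.length + B.length)
      (fun w => GR A w B + q * TT A w B)) ?_ ?_ ?_ ?_ ?_ ?_ ?_ ?_ ?_ A B hA hB h0
  · have h1 := w3_cw_add (A.length + B.length) (A.length + B.length) (fun w => GR A w B)
      (fun w => q * TT A w B)
    have h2 := w3_cw_smul (A.length + B.length) (A.length + B.length) q (fun w => TT A w B)
    beta_reduce at key
    rw [h1, h2] at key
    linear_combination key
  · intro u v B x y hu hB hx hy hz
    refine w3_cw_congr (by simp) (fun w => ?_)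
    rw [GR_swapA u v B x y w hu hB hx hy hz, TT_swapA u v B x y w hu hB]
  · intro A u v x y hA hu hx hy hz
    refine w3_cw_congr (by simp) (fun w => ?_)
    rw [GR_swapB A u v x y w hA hu hx hy hz, TT_swapB A u v x y w hA hu]
  · intro A B x hA hB hx h
    have e : cw ((x :: A).length + B.length) ((x :: A).length + B.length)
        (fun w => GR (x :: A) w B + q * TT (x :: A) w B) =
        x^(B.length + 1) * cw ((x⁻¹ :: A).length + B.length) ((x⁻¹ :: A).length + B.length)
          (fun w => GR (x⁻¹ :: A) w B + q * TT (x⁻¹ :: A) w B) := by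
      rw [← w3_cw_smul]
      refine w3_cw_congr (by simp) (fun w => ?_)
      rw [GR_invA A B x w hA hB hx, TT_invA A B x w hA hB hx]
      ring
    beta_reduce at h ⊢
    rw [e, h, mul_zero]
  · intro A B x hA hB hx h
    have e : cw (A.length + (B ++ [x]).length) (A.length + (B ++ [x]).length)
        (fun w => GR A w (B ++ [x]) + q * TT A w (B ++ [x])) =
        x^(A.length + 1) * cw (A.length + (B ++ [x⁻¹]).length) (A.length + (B ++ [x⁻¹]).length)
          (fun w => GR A w (B ++ [x⁻¹]) + q * TT A w (B ++ [x⁻¹])) := by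
      rw [← w3_cw_smul]
      refine w3_cw_congr (by simp) (fun w => ?_)
      rw [GR_invB A B x w hA hB hx, TT_invB A B x w hA hB hx]
      ring
    beta_reduce at h ⊢
    rw [e, h, mul_zero]
  · intro A B x hA hB hx h
    obtain ⟨T, hT, hT0, hTe⟩ := w3_pair A B hA hB h
    have h3 := w3_top (A.length + B.length) x
      (fac x (A ++ (B ++ [0])) * fac (q^2 * x)⁻¹ (A.map (fun x => x⁻¹) ++ [0])) T hT hT0
    rw [← h3]
    refine w3_cw_congr (by simp only [List.length_cons]; ring) (fun w => ?_)
    rw [GR_pairA A B x w hA hB hx, TT_pairA A B x w hA hB hx, w3_fac, hTe]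
    ring
  · intro A B x hA hB hx h
    obtain ⟨T, hT, hT0, hTe⟩ := w3_pair A B hA hB h
    have h3 := w3_top (A.length + B.length) x
      (fac x (A ++ (B ++ [0])) * fac (q^2 * x)⁻¹ (B.map (fun x => x⁻¹) ++ [0])) T hT hT0
    rw [← h3]
    refine w3_cw_congr (by simp only [List.length_cons]; ring) (fun w => ?_)
    rw [GR_pairB A B x w hA hB hx, TT_pairB A B x w hA hB hx, w3_fac, hTe]
    ring
  · intro A B hA hB
    have h1 := fun j : ℕ => GR_poly_A A B (j : ℂ) hA hB
    have h2 := fun j : ℕ => TT_poly_A A B (j : ℂ) hA hB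
    choose P hP hP' using h1
    choose Q hQ hQ' using h2
    refine ⟨∑ j ∈ range (A.length + 1 + B.length + 1),
      C (lam (A.length + 1 + B.length) (A.length + 1 + B.length) j) * (P j + C q * Q j), ?_, ?_⟩
    · refine Polynomial.natDegree_sum_le_of_forall_le _ _ (fun j _ => ?_)
      refine (natDegree_C_mul_le _ _).trans ?_
      refine (natDegree_add_le _ _).trans (max_le (hP j) ?_)
      exact (natDegree_C_mul_le _ _).trans (hQ j)
    · intro t ht
      rw [eval_finsetSum]
      simp only [List.length_cons]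
      unfold cw
      rw [Finset.mul_sum]
      refine Finset.sum_congr rfl (fun j _ => ?_)
      rw [eval_mul, eval_C, eval_add, eval_mul, eval_C, hP' j t ht, hQ' j t ht]
      ring
  · intro A B hA hB
    have h1 := fun j : ℕ => GR_poly_B A B (j : ℂ) hA hB
    have h2 := fun j : ℕ => TT_poly_B A B (j : ℂ) hA hB
    choose P hP hP' hP0 using h1
    choose Q hQ hQ' hQ0 using h2
    refine ⟨∑ j ∈ range (A.length + (B.length + 1) + 1),
      C (lam (A.length + (B.length + 1)) (A.length + (B.length + 1)) j) * (P j + C q * Q j),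
      ?_, ?_, ?_⟩
    · refine Polynomial.natDegree_sum_le_of_forall_le _ _ (fun j _ => ?_)
      refine (natDegree_C_mul_le _ _).trans ?_
      refine (natDegree_add_le _ _).trans (max_le (hP j) ?_)
      exact (natDegree_C_mul_le _ _).trans (hQ j)
    · intro t ht
      rw [eval_finsetSum]
      have hl : ∀ t : ℂ, A.length + (B ++ [t]).length = A.length + (B.length + 1) := by
        intro t; simp
      simp only [hl]
      unfold cw
      rw [Finset.mul_sum]
      refine Finset.sum_congr rfl (fun j _ => ?_)
      rw [eval_mul, eval_C, eval_add, eval_mul, eval_C, hP' j t ht, hQ' j t ht]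
      ring
    · have hE : Even (A.length + B.length + 1) := by
        obtain ⟨a, ha⟩ := hA
        obtain ⟨b, hb⟩ := hB
        exact ⟨a + b + 1, by omega⟩
      obtain ⟨S, hS, hS'⟩ := (Z_pd (A.length + B.length + 1) hE).univ A B rfl
      have hA1 : 1 ≤ A.length := hA.pos
      have hdeg : (C (fac 0 (A ++ B) * q^4) * (X * S)).natDegree < A.length + (B.length + 1) := by
        refine lt_of_le_of_lt ((natDegree_C_mul_le _ _).trans (natDegree_mul_le)) ?_
        have : (X : ℂ[X]).natDegree ≤ 1 := natDegree_X_le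
        omega
      have hcw := cw_eq (A.length + (B.length + 1)) (A.length + (B.length + 1)) _ hdeg.le
      rw [coeff_eq_zero_of_natDegree_lt hdeg] at hcw
      rw [eval_finsetSum]
      have hsum : ∀ j ∈ range (A.length + (B.length + 1) + 1),
          (C (lam (A.length + (B.length + 1)) (A.length + (B.length + 1)) j) *
            (P j + C q * Q j)).eval 0 =
          (q * (Z (A.map (fun x => x⁻¹) ++ [0]) *
            (fac 0 (B.map (fun x => x⁻¹)) * Z (B.map (fun x => x⁻¹))))) *
          (lam (A.length + (B.length + 1)) (A.length + (B.length + 1)) j *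
            (C (fac 0 (A ++ B) * q^4) * (X * S)).eval (j : ℂ)) := by
        intro j _
        rw [eval_mul, eval_C, eval_add, eval_mul, eval_C, hP0 j, hQ0 j, w3_fac, hS', eval_mul, eval_C,
          eval_mul, eval_X]
        ring
      rw [Finset.sum_congr rfl hsum, ← Finset.mul_sum]
      unfold cw at hcw
      rw [hcw, mul_zero]
  · intro x y hx hy
    have hd : (C (y * q^2 * (1 + x^2) + y + x + x^2 * y + x * y^2) * X +
        C (x * y - q^4 * x * y)).natDegree ≤ 2 := by
      refine (natDegree_linear_le).trans (by norm_num)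
    have hcw := cw_eq 2 2 _ hd
    have hc : (C (y * q^2 * (1 + x^2) + y + x + x^2 * y + x * y^2) * X +
        C (x * y - q^4 * x * y)).coeff 2 = 0 :=
      coeff_eq_zero_of_natDegree_lt (lt_of_le_of_lt natDegree_linear_le (by norm_num))
    rw [hc] at hcw
    simp only [List.length_singleton]
    rw [← hcw]
    refine w3_cw_congr rfl (fun w => ?_)
    rw [GR_base, TT_base]
    simp only [eval_add, eval_mul, eval_C, eval_X]
    have h3 := q_cube
    linear_combination (x * y + y * w + x * w + x^2 * y * w + x * y^2 * w + x * y * w^2) * h3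

end Pool.Agent.H492C
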